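import Pool.Agent.Lib_MP_b9fedf_td.YRelL
import Pool.Agent.Lib_MP_b9fedf_tt.DefsNRP
import Pool.Agent.Lib_MP_b9fedf_tt.SpecialYG
import Pool.Agent.Lib_MP_1209e6_yb.YBasis
import Pool.Agent.Lib_MP_1209e6_yb.YRel
import Pool.Agent.Lib_MP_1209e6_yb.YKey
import Pool.Agent.Lib_MP_1209e6_yb.YCard
import Pool.Agent.Lib_MP_b9fedf_lo.DefsRp
import Pool.Agent.Lib_MP_1209e6_mh.CoreE
import Pool.Agent.Lib_MP_1209e6_mh.CoreG0

/-! Varieties on which a union of many sections of a variety is nowhere reduced are not special; the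
number of members does not depend on their degree. -/

set_option autoImplicit false

namespace Pool.Agent.TD
open MvPolynomial Pool.Agent.QY Pool.Agent.Campana Pool.Agent.LO Pool.Agent.YB Pool.Agent.TT

private theorem zero_of_mem_ycore {K : Type} [Field K] [Algebra ℂ K] {n : ℕ}
    {q : Ideal (MvPolynomial (Fin (n + 1)) ℂ)} (hqh : HomI q) (x : Fin (n + 1) → K)
    (hx : ∀ (d : ℕ) (Q : MvPolynomial (Fin (n + 1)) ℂ), Q.IsHomogeneous d →
      (aeval x Q = 0 ↔ Q ∈ q)) : ∀ Q ∈ q, aeval x Q = 0 := by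
  intro Q hQ
  rw [← sum_homogeneousComponent Q, map_sum]
  exact Finset.sum_eq_zero fun d _ =>
    (hx d _ (homogeneousComponent_isHomogeneous d Q)).2 (hqh Q hQ d)

private theorem scale_ycore {K : Type} [Field K] [Algebra ℂ K] {n : ℕ}
    {q : Ideal (MvPolynomial (Fin (n + 1)) ℂ)} (y x : Fin (n + 1) → K) (h : K) (hh : h ≠ 0)
    (hyx : y = fun j => h * x j)
    (hy : ∀ (d : ℕ) (Q : MvPolynomial (Fin (n + 1)) ℂ), Q.IsHomogeneous d →
      (aeval y Q = 0 ↔ Q ∈ q)) (d : ℕ) (Q : MvPolynomial (Fin (n + 1)) ℂ)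
    (hQ : Q.IsHomogeneous d) : aeval x Q = 0 ↔ Q ∈ q := by
  rw [← hy d Q hQ, hyx, aeval_mul_hom _ _ _ _ hQ]
  constructor
  · intro h0
    rw [h0, mul_zero]
  · intro h0
    exact (mul_eq_zero.1 h0).resolve_left (pow_ne_zero _ hh)

/-- the relation of a form, evaluated -/
private theorem rel_ycore {K : Type} [Field K] [Algebra ℂ K] {n k : ℕ}
    {q : Ideal (MvPolynomial (Fin (n + 1)) ℂ)} (w : Fin (k + 1) → Fin (n + 1))
    (y : Fin (n + 1) → K)
    (hy : ∀ (d : ℕ) (Q : MvPolynomial (Fin (n + 1)) ℂ), Q.IsHomogeneous d →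
      (aeval y Q = 0 ↔ Q ∈ q)) (z : Fin (k + 1) → K) (h : K) (hh : h ≠ 0)
    (hz : (fun l => y (w l)) = fun l => h * z l) (d : ℕ)
    (Q : MvPolynomial (Fin (n + 1)) ℂ) (hQ : Q.IsHomogeneous d) (g : ℕ)
    (b : ℕ → MvPolynomial (Fin (k + 1)) ℂ)
    (hb : ∀ i, d * i ≤ g → (b i).IsHomogeneous (g - d * i))
    (hrel : ∑ i ∈ Finset.range (g / d + 1), rename w (b i) * Q ^ i ∈ q) :
    ∑ i ∈ Finset.range (g / d + 1), aeval z (b i) * (aeval y Q / h ^ d) ^ i = 0 := by
  have hdi : ∀ i ∈ Finset.range (g / d + 1), d * i ≤ g := by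
    intro i hi
    have h1 : i ≤ g / d := Nat.lt_succ_iff.1 (Finset.mem_range.1 hi)
    calc d * i ≤ d * (g / d) := Nat.mul_le_mul_left d h1
      _ ≤ g := Nat.mul_div_le g d
  have hhom : (∑ i ∈ Finset.range (g / d + 1), rename w (b i) * Q ^ i).IsHomogeneous g := by
    refine IsHomogeneous.sum _ _ _ fun i hi => ?_
    have h1 := (hb i (hdi i hi)).rename_isHomogeneous (f := w)
    have h2 := h1.mul (hQ.pow i)
    rwa [Nat.sub_add_cancel (hdi i hi)] at h2
  have h0 := (hy g _ hhom).2 hrel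
  rw [map_sum] at h0
  have h2 : h ^ g * ∑ i ∈ Finset.range (g / d + 1), aeval z (b i) * (aeval y Q / h ^ d) ^ i = 0 := by
    rw [← h0, Finset.mul_sum]
    refine Finset.sum_congr rfl fun i hi => ?_
    have h3 : (y ∘ w) = fun l => h * z l := hz
    rw [map_mul, map_pow, aeval_rename, h3, aeval_mul_hom _ _ _ _ (hb i (hdi i hi))]
    have h4 : h ^ g = h ^ (g - d * i) * (h ^ d) ^ i := by
      rw [← pow_mul, ← pow_add, Nat.sub_add_cancel (hdi i hi)]
    rw [h4, div_pow]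
    have h5 : (h ^ d) ^ i ≠ 0 := pow_ne_zero _ (pow_ne_zero _ hh)
    field_simp
  exact (mul_eq_zero.1 h2).resolve_left (pow_ne_zero _ hh)

/-- As `not_special_y_tot` (Lib_MP_b9fedf_tt/SpecialY.lean); the number `N` does not depend on the
degree of the members. -/
theorem not_special_y_lin (n M : ℕ) (q : Ideal (MvPolynomial (Fin (n + 1)) ℂ)) (hq : q.IsPrime)
    (hqh : HomI q) (htr : Tr q 2) : ∃ N : ℕ, ∀ d : ℕ, 1 ≤ d →
    ∀ D : Finset (MvPolynomial (Fin (n + 1)) ℂ),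
    (∀ Q ∈ D, Q.totalDegree = d ∧ Q.IsHomogeneous d ∧ Q ∉ q) → RedOn q (∏ Q ∈ D, Q) →
    (∀ x : Fin (n + 1) → ℂ, x ≠ 0 → (∀ g ∈ q, eval x g = 0) → ∀ A ⊆ D,
      (∀ Q ∈ A, eval x Q = 0) → A.card ≤ M) → N < D.card →
    ∀ (K : Type) [Field K] [Algebra ℂ K] (y : Fin (n + 1) → K),
      (∀ (d : ℕ) (Q : MvPolynomial (Fin (n + 1)) ℂ), Q.IsHomogeneous d →
        (aeval y Q = 0 ↔ Q ∈ q)) → NowhereReducedPl y (∏ Q ∈ D, Q) → ¬ SpecialField K := by
  classical
  obtain ⟨k, w, hk, hwinj, hTr, hw, hrel⟩ := y_basis hq hqh htr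
  have hrelF : ∀ j, j ∉ Set.range w → ∃ (g : ℕ) (F : MvPolynomial (Fin (n + 1)) ℂ),
      F.IsHomogeneous g ∧ F ∈ q ∧ pderiv j F ∉ q ∧
      ∀ l, l ≠ j → l ∉ Set.range w → pderiv l F = 0 := by
    intro j hj
    obtain ⟨r, g, a, hr1, hrg, ha, ha0, hmem, hder⟩ := hrel j hj
    obtain ⟨h1, h2⟩ := rel_form w j hj r g hrg a ha
    exact ⟨g, _, h1, hmem, hder, h2⟩
  obtain ⟨c, hc1, hCf⟩ := y_rel_lin hq w hw (fun j hj => by
    obtain ⟨r, g, a, hr1, hrg, ha, ha0, hmem, -⟩ := hrel j hj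
    exact ⟨r, g, a, hr1, hrg, ha, ha0, hmem⟩)
  refine ⟨2 * (M + 1) * c * (k + 1) + M * (1 + c), ?_⟩
  intro e he D hD' hred hpt hcard K _ _ y hy hT hS
  obtain ⟨C₁, hC₁⟩ : ∃ C₁, C₁ = c * e := ⟨_, rfl⟩
  have hC₁1 : 1 ≤ C₁ := by
    rw [hC₁]
    exact Nat.mul_pos (by omega) (by omega)
  set m := 2 * (M + 1) * C₁ with hm
  have hm1 : 1 ≤ m := by
    rw [hm]
    exact Nat.mul_pos (by omega) (by omega)
  have hD : ∀ Q ∈ D, 1 ≤ Q.totalDegree ∧ Q.totalDegree ≤ e ∧ Q.IsHomogeneous Q.totalDegree ∧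
      Q ∉ q := by
    intro Q hQ
    obtain ⟨h1, h2, h3⟩ := hD' Q hQ
    rw [h1]
    exact ⟨he, le_rfl, h2, h3⟩
  have hbig : m * (k + 1) + M * (e + C₁) + 1 ≤ ∑ Q ∈ D, Q.totalDegree := by
    have h1 : ∑ Q ∈ D, Q.totalDegree = D.card * e := by
      rw [Finset.sum_congr rfl fun Q hQ => (hD' Q hQ).1, Finset.sum_const, smul_eq_mul]
    have h2 : (2 * (M + 1) * c * (k + 1) + M * (1 + c) + 1) * e ≤ D.card * e :=
      Nat.mul_le_mul_right e hcard
    have h3 : (2 * (M + 1) * c * (k + 1) + M * (1 + c) + 1) * e =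
        m * (k + 1) + M * (e + C₁) + e := by
      rw [hm, hC₁]
      ring
    rw [h1]
    omega
  have hndω : ∀ (d : ℕ) (R : MvPolynomial (Fin (k + 1)) ℂ), R.IsHomogeneous d →
      aeval (fun l => y (w l)) R = 0 → R = 0 := by
    intro d R hR h0
    refine hw R ((hy d _ hR.rename_isHomogeneous).1 ?_)
    rw [aeval_rename]
    exact h0
  set ω : Fin (k + 1) → K := fun l => y (w l) with hωdef
  have hωne : ∀ l, ω l ≠ 0 := by
    intro l h0
    have h1 := hndω 1 (X l) (isHomogeneous_X ℂ l) (by rw [aeval_X]; exact h0)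
    exact X_ne_zero l h1
  have hPne : ∀ P ∈ D, aeval y P ≠ 0 := fun P hP h0 =>
    (hD P hP).2.2.2 ((hy P.totalDegree P (hD P hP).2.2.1).1 h0)
  have hωai : AlgebraicIndependent ℂ (fun i : Fin k => ω i.succ / ω 0) :=
    algInd_of_hom ω (hωne 0) hndω
  -- derivations
  have hex : ∀ i : Fin k, ∃ E : Derivation ℂ K K, ∀ j : Fin k,
      E (ω j.succ / ω 0) = if j = i then 1 else 0 :=
    fun i => exists_derivation (fun i : Fin k => ω i.succ / ω 0) hωai
      (fun j => if j = i then 1 else 0)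
  choose D₀ hD₀ using hex
  have hwr : wr ω ≠ 0 := by
    intro h0
    have h1 := wr_ne_zero ω (hωne 0) D₀ hD₀
    rw [h0] at h1
    exact pow_ne_zero (k + 1) (hωne 0) h1.symm
  obtain ⟨r, hr⟩ : ∃ r, 1 + r + m * (k + 1) = ∑ Q ∈ D, Q.totalDegree :=
    ⟨∑ Q ∈ D, Q.totalDegree - 1 - m * (k + 1), by omega⟩
  set P := ∏ Q ∈ D, aeval y Q with hP
  have hPne' : P ≠ 0 := Finset.prod_ne_zero_iff.2 hPne
  set f : Fin (k + 1) → K := fun i => ω i * ω 0 ^ r / P with hf
  have hfne : ∀ i, f i ≠ 0 := fun i =>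
    div_ne_zero (mul_ne_zero (hωne i) (pow_ne_zero _ (hωne 0))) hPne'
  refine hS k hk (wr ω) hwr m hm1 (f 0) (hfne 0) (fun i => f i.succ) ?_ ?_
  swap
  · have h1 : (fun i : Fin k => f i.succ / f 0) = fun i : Fin k => ω i.succ / ω 0 := by
      funext i
      simp only [hf]
      have h2 : ω 0 ^ r ≠ 0 := pow_ne_zero _ (hωne 0)
      have h4 := hωne 0
      field_simp
    rw [h1]
    exact hωai
  intro O hO
  suffices hreg : ∀ i, RegularAt O (wr ω) m (f i) from ⟨hreg 0, fun i => hreg i.succ⟩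
  obtain ⟨v, hv⟩ := place_order O hO
  obtain ⟨t, ht0, hvt⟩ := hv.2.2
  have htO : t ∈ O := by
    rw [hv.2.1 t ht0, hvt]
    norm_num
  -- the minimal order of the coordinates
  obtain ⟨i₀, hi₀m, hi₀⟩ := Finset.exists_min_image
    (Finset.univ.filter fun i : Fin (n + 1) => y i ≠ 0) (fun i => v (y i))
    ⟨w 0, Finset.mem_filter.2 ⟨Finset.mem_univ _, hωne 0⟩⟩
  have hy0 : y i₀ ≠ 0 := (Finset.mem_filter.1 hi₀m).2
  have hmin : ∀ i, y i ≠ 0 → v (y i₀) ≤ v (y i) := fun i hi =>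
    hi₀ i (Finset.mem_filter.2 ⟨Finset.mem_univ _, hi⟩)
  have hquot : ∀ g : K, g ≠ 0 → v g ≤ v (y i₀) → ∀ j, y j / g ∈ O := by
    intro g hg hvg j
    by_cases hj : y j = 0
    · rw [hj, zero_div]
      exact O.zero_mem
    · rw [hv.2.1 _ (div_ne_zero hj hg), ord_div hv _ _ hj hg]
      have := hmin j hj
      omega
  set h := y i₀ with hh
  set x : Fin (n + 1) → K := fun j => y j / h with hx
  have hxO : ∀ j, x j ∈ O := hquot h hy0 le_rfl
  have hxi : x i₀ = 1 := div_self hy0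
  have hyx : y = fun j => h * x j := by
    ext j
    rw [hx]
    field_simp
  have hxq := scale_ycore y x h hy0 hyx hy
  have hPx : ∀ (d : ℕ) (Q : MvPolynomial (Fin (n + 1)) ℂ), Q.IsHomogeneous d →
      aeval y Q = h ^ d * aeval x Q := by
    intro d Q hQ
    conv_lhs => rw [hyx]
    exact aeval_mul_hom _ _ _ _ hQ
  have hPxne : ∀ Q ∈ D, aeval x Q ≠ 0 := fun Q hQ h0 =>
    (hD Q hQ).2.2.2 ((hxq Q.totalDegree Q (hD Q hQ).2.2.1).1 h0)
  have hvP : ∀ Q ∈ D, v (aeval y Q) = Q.totalDegree * v h + v (aeval x Q) := by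
    intro Q hQ
    rw [hPx Q.totalDegree Q (hD Q hQ).2.2.1, hv.1 _ _ (pow_ne_zero _ hy0) (hPxne Q hQ),
      F_ord_pow hv _ hy0]
  have hν0 : ∀ Q ∈ D, 0 ≤ v (aeval x Q) := fun Q hQ =>
    (hv.2.1 _ (hPxne Q hQ)).1 (aeval_mem hO x hxO Q)
  set B := D.filter (fun Q => 1 ≤ v (aeval x Q)) with hB
  have hBM : B.card ≤ M := card_vanishing_y hO hv x hxO i₀ hxi (zero_of_mem_ycore hqh x hxq) D
    hPxne hpt B (Finset.filter_subset _ _) fun Q hQ => (Finset.mem_filter.1 hQ).2
  -- the selected coordinates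
  obtain ⟨l₀, hl₀⟩ := Finite.exists_min (fun l => v (ω l))
  set u := ω l₀ with hu
  have hu0 : u ≠ 0 := hωne l₀
  obtain ⟨a, ha⟩ : ∃ a : ℕ, (a : ℤ) = v u - v h := by
    have h1 : v h ≤ v u := hmin (w l₀) (hωne l₀)
    exact ⟨(v u - v h).toNat, by omega⟩
  set z : Fin (k + 1) → K := fun l => ω l / u with hz
  have hzO : ∀ l, z l ∈ O := by
    intro l
    rw [hz, hv.2.1 _ (div_ne_zero (hωne l) hu0), ord_div hv _ _ (hωne l) hu0]
    have h1 : v u ≤ v (ω l) := hl₀ l
    omega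
  have hωz : ∀ l, ω l = u * z l := by
    intro l
    rw [hz]
    field_simp
  have hωz' : ω = fun l => u * z l := funext hωz
  have hndz : ∀ (d : ℕ) (Q : MvPolynomial (Fin (k + 1)) ℂ), Q.IsHomogeneous d → aeval z Q = 0 →
      Q = 0 := hnd_x ω z u hωz hndω
  have hwrω : ∀ E : Fin k → Derivation ℂ K K, wr ω E = u ^ (k + 1) * wr z E := by
    intro E
    have h2 := wr_scale u z E
    rw [← hωz'] at h2
    exact h2
  have hcases : ∃ β N : ℕ, (M * N ≤ (∑ Q ∈ D, Q.totalDegree) * a + m * β) ∧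
      (∀ Q ∈ D, v (aeval x Q) ≤ N) ∧
      ∀ E : Fin k → Derivation ℂ K K, (∀ i, ∀ a ∈ O, E i a ∈ O) →
        (u ^ (k + 1) * t ^ β)⁻¹ * wr ω E ∈ O := by
    by_cases hall : ∀ E : Fin k → Derivation ℂ K K, (∀ i, ∀ a ∈ O, E i a ∈ O) → wr z E = 0
    · obtain ⟨N, hN⟩ : ∃ N : ℕ, ∀ Q ∈ D, v (aeval x Q) ≤ N := by
        refine ⟨∑ Q ∈ D, (v (aeval x Q)).toNat, fun Q hQ => ?_⟩
        have h1 : (v (aeval x Q)).toNat ≤ ∑ Q ∈ D, (v (aeval x Q)).toNat :=
          Finset.single_le_sum (f := fun Q => (v (aeval x Q)).toNat) (fun _ _ => Nat.zero_le _) hQ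
        have h2 := Int.self_le_toNat (v (aeval x Q))
        omega
      refine ⟨M * N, N, ?_, hN, ?_⟩
      · have h1 : M * N ≤ m * (M * N) := Nat.le_mul_of_pos_left _ hm1
        omega
      · intro E hE
        rw [hwrω, hall E hE, mul_zero, mul_zero]
        exact O.zero_mem
    · push Not at hall
      have hex : ∃ β : ℕ, ∃ E : Fin k → Derivation ℂ K K, (∀ i, ∀ a ∈ O, E i a ∈ O) ∧
          wr z E ≠ 0 ∧ v (wr z E) = β := by
        obtain ⟨E, hE, hEne⟩ := hall
        have h1 := (hv.2.1 _ hEne).1 (wr_mem z hzO E hE)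
        exact ⟨(v (wr z E)).toNat, E, hE, hEne, by omega⟩
      set β := Nat.find hex with hβ
      obtain ⟨E, hE, hEne, hEv⟩ := Nat.find_spec hex
      rw [← hβ] at hEv
      have hmin' : ∀ E' : Fin k → Derivation ℂ K K, (∀ i, ∀ a ∈ O, E' i a ∈ O) →
          wr z E' ≠ 0 → (β : ℤ) ≤ v (wr z E') := by
        intro E' hE' hne
        by_contra hcon
        push Not at hcon
        have h1 := (hv.2.1 _ hne).1 (wr_mem z hzO E' hE')
        exact Nat.find_min hex (m := (v (wr z E')).toNat) (by rw [← hβ]; omega)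
          ⟨E', hE', hne, by omega⟩
      have hform : ∀ E' : Fin k → Derivation ℂ K K, (∀ i, ∀ a ∈ O, E' i a ∈ O) →
          (u ^ (k + 1) * t ^ β)⁻¹ * wr ω E' ∈ O := by
        intro E' hE'
        by_cases hne : wr z E' = 0
        · rw [hwrω, hne, mul_zero, mul_zero]
          exact O.zero_mem
        have h1 : (u ^ (k + 1) * t ^ β)⁻¹ * wr ω E' = wr z E' / t ^ β := by
          rw [hwrω]
          have h2 : u ^ (k + 1) ≠ 0 := pow_ne_zero _ hu0
          field_simp
        rw [h1, hv.2.1 _ (div_ne_zero hne (pow_ne_zero _ ht0)),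
          ord_div hv _ _ hne (pow_ne_zero _ ht0), F_ord_pow hv t ht0, hvt]
        have := hmin' E' hE' hne
        omega
      have hdet : v (wrM z E).det = β := hEv
      -- the order relative to the selected coordinates
      have hvp : ∀ Q ∈ D, v (aeval y Q / u ^ Q.totalDegree) =
          v (aeval x Q) - Q.totalDegree * a := by
        intro Q hQ
        rw [ord_div hv _ _ (hPne Q hQ) (pow_ne_zero _ hu0), F_ord_pow hv _ hu0, hvP Q hQ, ha]
        ring
      have hbound : ∀ Q ∈ D, v (aeval x Q) ≤ e * a + C₁ * (1 + β) := by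
        intro Q hQ
        have hdQ := (hD Q hQ).2.1
        have h6 : (Q.totalDegree : ℤ) * a ≤ e * a :=
          mul_le_mul_of_nonneg_right (by exact_mod_cast hdQ) (by positivity)
        have h7 : (0 : ℤ) ≤ C₁ * (1 + β) := by positivity
        by_cases hle : v (aeval y Q / u ^ Q.totalDegree) ≤ 0
        · rw [hvp Q hQ] at hle
          linarith
        push Not at hle
        obtain ⟨g, b, hg, hb, hb0, hrelQ⟩ := hCf Q.totalDegree (hD Q hQ).1 Q (hD Q hQ).2.2.1
          (hD Q hQ).2.2.2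
        have hrel' := rel_ycore w y hy z u hu0 hωz' Q.totalDegree Q
          (hD Q hQ).2.2.1 g b hb hrelQ
        have hp0 : aeval y Q / u ^ Q.totalDegree ≠ 0 :=
          div_ne_zero (hPne Q hQ) (pow_ne_zero _ hu0)
        have hb0h : (b 0).IsHomogeneous g := by
          have := hb 0 (by omega)
          rwa [Nat.mul_zero, Nat.sub_zero] at this
        have hbx : aeval z (b 0) ≠ 0 := fun h0 => hb0 (hndz _ _ hb0h h0)
        have h1 := trail_ord hO hv z hzO _ hp0 hle.le (g / Q.totalDegree) b hrel' hbx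
        have h2 := ord_form_le hO hv z hzO hndz E hE hEne g (b 0) hb0h hb0
        rw [hdet] at h2
        rw [hvp Q hQ] at h1
        have h5 : (g : ℤ) * (1 + β) ≤ C₁ * (1 + β) :=
          mul_le_mul_of_nonneg_right
            (by exact_mod_cast (hg.trans (Nat.mul_le_mul_left c hdQ)).trans_eq hC₁.symm)
            (by positivity)
        linarith
      by_cases h0 : a = 0 ∧ β = 0
      · obtain ⟨ha0, hβ0⟩ := h0
        refine ⟨β, 0, by simp, ?_, hform⟩
        have hvuh : v u = v h := by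
          rw [ha0] at ha
          push_cast at ha
          omega
        -- the product of the members
        have hPD : (∏ Q ∈ D, Q).IsHomogeneous (∑ Q ∈ D, Q.totalDegree) :=
          IsHomogeneous.prod _ _ _ fun Q hQ => (hD Q hQ).2.2.1
        have hPx0 : aeval x (∏ Q ∈ D, Q) ≠ 0 := by
          rw [map_prod]
          exact Finset.prod_ne_zero_iff.2 hPxne
        have hPD0 : (∏ Q ∈ D, Q) ≠ 0 := by
          intro h0
          apply hPx0
          rw [h0, map_zero]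
        have hPdeg : (∏ Q ∈ D, Q).totalDegree = ∑ Q ∈ D, Q.totalDegree := hPD.totalDegree hPD0
        have hvPP : v (aeval y (∏ Q ∈ D, Q)) =
            (∑ Q ∈ D, (Q.totalDegree : ℤ)) * v h + v (aeval x (∏ Q ∈ D, Q)) := by
          rw [hPx _ _ hPD, hv.1 _ _ (pow_ne_zero _ hy0) hPx0, F_ord_pow hv _ hy0]
          push_cast
          rfl
        have hone : v (aeval x (∏ Q ∈ D, Q)) ≤ 1 := by
          have hyu : y = fun j => u * (y j / u) := by
            ext j
            field_simp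
          have h1 := y_key hO hv hq hqh w hTr hw hrelF (fun j => y j / u)
            (hquot u hu0 hvuh.le) (scale_ycore y (fun j => y j / u) u hu0 hyu hy) E hE hEne
            (by rw [hβ0] at hdet; exact hdet) _ (∏ Q ∈ D, Q) hPD hred
          have h3 : aeval y (∏ Q ∈ D, Q) = u ^ (∑ Q ∈ D, Q.totalDegree) *
              aeval (fun j => y j / u) (∏ Q ∈ D, Q) := by
            conv_lhs => rw [hyu]
            exact aeval_mul_hom _ _ _ _ hPD
          have h4 : u ^ (∑ Q ∈ D, Q.totalDegree) ≠ 0 := pow_ne_zero _ hu0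
          have h5 : aeval (fun j => y j / u) (∏ Q ∈ D, Q) ≠ 0 := by
            intro h0
            apply hPx0
            have h6 := h3
            rw [h0, mul_zero, hPx _ _ hPD] at h6
            exact (mul_eq_zero.1 h6).resolve_left (pow_ne_zero _ hy0)
          have h7 := congrArg v h3
          rw [hv.1 _ _ h4 h5, F_ord_pow hv _ hu0, hvPP, hvuh] at h7
          push_cast at h7
          linarith
        have hne1 : v (aeval x (∏ Q ∈ D, Q)) ≠ 1 := by
          intro h1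
          refine hT O hO v hv (v h) hmin ⟨i₀, hy0, rfl⟩ ?_
          rw [hvPP, h1, hPdeg]
          push_cast
          rfl
        have hsum : v (aeval x (∏ Q ∈ D, Q)) = ∑ Q ∈ D, v (aeval x Q) := by
          rw [map_prod]
          exact ord_prod hv D _ hPxne
        have hsum0 : ∑ Q ∈ D, v (aeval x Q) = 0 := by
          have h1 : 0 ≤ ∑ Q ∈ D, v (aeval x Q) := Finset.sum_nonneg hν0
          omega
        intro Q hQ
        have h1 := (Finset.sum_eq_zero_iff_of_nonneg hν0).1 hsum0 Q hQ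
        rw [h1]
        rfl
      · refine ⟨β, e * a + C₁ * (1 + β), ?_, ?_, hform⟩
        · have hN : M * (e + C₁) ≤ ∑ Q ∈ D, Q.totalDegree := by omega
          have e1 : M * (e * a + C₁ * (1 + β)) = M * e * a + M * C₁ + M * C₁ * β := by ring
          have e2 : m * β = M * C₁ * β + M * C₁ * β + 2 * (C₁ * β) := by rw [hm]; ring
          have e3 : M * (e + C₁) * a ≤ (∑ Q ∈ D, Q.totalDegree) * a := Nat.mul_le_mul_right a hN
          have e4 : M * (e + C₁) * a = M * e * a + M * C₁ * a := by ring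
          rw [e1, e2]
          rcases Nat.eq_zero_or_pos β with hβ0 | hβ1
          · have ha1 : 1 ≤ a := by
              rcases Nat.eq_zero_or_pos a with h1 | h1
              · exact absurd ⟨h1, hβ0⟩ h0
              · exact h1
            have e5 : M * C₁ ≤ M * C₁ * a := Nat.le_mul_of_pos_right _ ha1
            rw [hβ0]
            omega
          · have e5 : M * C₁ ≤ M * C₁ * β := Nat.le_mul_of_pos_right _ hβ1
            omega
        · intro Q hQ
          have h1 := hbound Q hQ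
          push_cast
          exact h1
  obtain ⟨β, N, hβN, hN, hEO⟩ := hcases
  intro i
  have hU0 : u ^ (k + 1) * t ^ β ≠ 0 := mul_ne_zero (pow_ne_zero _ hu0) (pow_ne_zero _ ht0)
  refine ⟨u ^ (k + 1) * t ^ β, hU0, hEO, ?_⟩
  rw [hv.2.1 _ (mul_ne_zero (hfne i) (pow_ne_zero _ hU0)),
    hv.1 _ _ (hfne i) (pow_ne_zero _ hU0), F_ord_pow hv _ hU0,
    hv.1 _ _ (pow_ne_zero _ hu0) (pow_ne_zero _ ht0), F_ord_pow hv _ hu0, F_ord_pow hv _ ht0, hvt]
  have h1 : v (f i) = v (ω i) + r * v (ω 0) - ∑ Q ∈ D, v (aeval y Q) := by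
    simp only [hf]
    rw [ord_div hv _ _ (mul_ne_zero (hωne i) (pow_ne_zero _ (hωne 0))) hPne',
      hv.1 _ _ (hωne i) (pow_ne_zero _ (hωne 0)), F_ord_pow hv _ (hωne 0), hP,
      ord_prod hv D _ hPne]
  have h2 : ∑ Q ∈ D, v (aeval y Q) ≤ (∑ Q ∈ D, (Q.totalDegree : ℤ)) * v h + M * N := by
    have h3 : ∀ Q ∈ D, v (aeval y Q) ≤
        Q.totalDegree * v h + if 1 ≤ v (aeval x Q) then (N : ℤ) else 0 := by
      intro Q hQ
      rw [hvP Q hQ]
      split_ifs with h4
      · have := hN Q hQ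
        omega
      · omega
    refine (Finset.sum_le_sum h3).trans ?_
    rw [Finset.sum_add_distrib, ← Finset.sum_mul, ← Finset.sum_filter,
      Finset.sum_const, nsmul_eq_mul, ← hB]
    have h4 : (B.card : ℤ) * N ≤ M * N :=
      mul_le_mul_of_nonneg_right (by exact_mod_cast hBM) (by positivity)
    linarith
  have h3 : v u ≤ v (ω i) := hl₀ i
  have h4 : (r : ℤ) * v u ≤ r * v (ω 0) := mul_le_mul_of_nonneg_left (hl₀ 0) (by positivity)
  have h5 : ((1 : ℤ) + r + m * (k + 1)) = ∑ Q ∈ D, (Q.totalDegree : ℤ) := by exact_mod_cast hr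
  have h6 : (M : ℤ) * N ≤ (∑ Q ∈ D, (Q.totalDegree : ℤ)) * a + m * β := by exact_mod_cast hβN
  have h7 : (∑ Q ∈ D, (Q.totalDegree : ℤ)) * a =
      (∑ Q ∈ D, (Q.totalDegree : ℤ)) * v u - (∑ Q ∈ D, (Q.totalDegree : ℤ)) * v h := by
    rw [ha]
    ring
  have h8 : (∑ Q ∈ D, (Q.totalDegree : ℤ)) * v u = v u + r * v u + m * (k + 1) * v u := by
    rw [← h5]
    ring
  rw [h1]
  push_cast
  have h9 : (m : ℤ) * ((k + 1) * v u + β * 1) = m * (k + 1) * v u + m * β := by ring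
  rw [h9]
  linarith

open Pool.Agent.GGL Pool.Agent.GH in
theorem special_of_snc_yl {n : ℕ} (hn : 1 ≤ n)
    (q : Ideal (MvPolynomial (Fin (n + 1)) ℂ)) (hq : q.IsPrime) (hqh : HomI q) (htr : Tr q 2) :
    ∃ N : ℕ, ∀ d : ℕ, 1 ≤ d → ∀ Q, N ≤ Q → ∀ b : Fin Q → MvPolynomial (Fin (n + 1)) ℂ,
      (∀ i, (b i).IsHomogeneous d) → Snc b → RedOn q (∏ i, b i) →
      ∀ (K : Type) [Field K] [Algebra ℂ K] (y : Fin (n + 1) → K),
        (∀ (d : ℕ) (Q : MvPolynomial (Fin (n + 1)) ℂ), Q.IsHomogeneous d →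
          (aeval y Q = 0 ↔ Q ∈ q)) → NowhereReducedPl y (∏ i, b i) → ¬ SpecialField K := by
  classical
  obtain ⟨N, hN⟩ := not_special_y_lin n n q hq hqh htr
  refine ⟨N + 1, fun d hd Q hQ b hb hs hred K _ _ y hy hNR => ?_⟩
  have hinj := snc_injective hn hd b hb hs
  have hdeg : ∀ i, (b i).totalDegree = d := fun i => (hb i).totalDegree (snc_ne_zero hs i)
  have hprod : ∏ P ∈ Finset.univ.image b, P = ∏ i, b i := by
    rw [Finset.prod_image (fun i _ j _ h => hinj h)]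
  have hcard : (Finset.univ.image b).card = Q := by
    rw [Finset.card_image_of_injective _ hinj, Finset.card_univ, Fintype.card_fin]
  refine hN d hd (Finset.univ.image b) ?_ ?_ ?_ ?_ K y hy ?_
  · intro P hP
    obtain ⟨i, -, rfl⟩ := Finset.mem_image.1 hP
    refine ⟨hdeg i, hb i, fun h => hred.1 ?_⟩
    exact Ideal.mem_of_dvd q (Finset.dvd_prod_of_mem b (Finset.mem_univ i)) h
  · rw [hprod]
    exact hred
  · intro x hx _ A hA hA0
    have h1 : A = (Finset.univ.filter fun i => b i ∈ A).image b := by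
      ext P
      simp only [Finset.mem_image, Finset.mem_filter, Finset.mem_univ, true_and]
      constructor
      · intro hP
        obtain ⟨i, -, hi⟩ := Finset.mem_image.1 (hA hP)
        exact ⟨i, hi ▸ hP, hi⟩
      · rintro ⟨i, hi, rfl⟩
        exact hi
    rw [h1]
    refine Finset.card_image_le.trans ?_
    refine card_le_of_snc hd b hb hs x hx _ ?_
    intro i hi
    exact hA0 _ (Finset.mem_filter.1 hi).2
  · rw [hcard]
    omega
  · rw [hprod]
    exact hNR

end Pool.Agent.TD
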