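import Pool.Agent.Lib_MP_b9fedf_td.Defs
import Pool.Agent.Lib_MP_b9fedf_tt.AutC
import Pool.Agent.Lib_MP_b9fedf_gh.Act

/-! [TD-6]: automorphisms of `ℂ` which act on general forms by a rational matrix. -/

set_option autoImplicit false

namespace Pool.Agent.TD
open MvPolynomial Pool.Agent.TT Pool.Agent.GGL Pool.Agent.GH

/-- as `algInd_mul`, for any finite index type and with a given left inverse -/
private theorem algInd_mulF {ι β : Type} [Fintype β] [DecidableEq β] (R : Subalgebra ℚ ℂ)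
    (a : ι → β → ℂ)
    (ha : AlgebraicIndependent R (fun p : ι × β => a p.1 p.2))
    (M M' : Matrix β β ℚ) (hM : M' * M = 1) :
    AlgebraicIndependent R (fun p : ι × β => ∑ l', a p.1 l' * (M l' p.2 : ℂ)) := by
  classical
  let φ : Matrix β β ℚ → MvPolynomial (ι × β) R →ₐ[R] MvPolynomial (ι × β) R :=
    fun N => aeval (fun p : ι × β => ∑ l', C (algebraMap ℚ R (N l' p.2)) * X (p.1, l'))
  have hcomp : ∀ N N' : Matrix β β ℚ, N' * N = 1 → ∀ P, φ N' (φ N P) = P := by
    intro N N' hN P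
    have h1 : (φ N').comp (φ N) = AlgHom.id R _ := by
      refine MvPolynomial.algHom_ext fun p => ?_
      show φ N' (φ N (X p)) = X p
      have h2 : φ N (X p) = ∑ l', C (algebraMap ℚ R (N l' p.2)) * X (p.1, l') := aeval_X _ _
      rw [h2, map_sum]
      have h3 : ∀ l', φ N' (C (algebraMap ℚ R (N l' p.2)) * X (p.1, l')) =
          ∑ k, C (algebraMap ℚ R (N' k l' * N l' p.2)) * X (p.1, k) := by
        intro l'
        rw [map_mul]
        have h4 : φ N' (X (p.1, l')) = ∑ k, C (algebraMap ℚ R (N' k l')) * X (p.1, k) :=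
          aeval_X _ _
        have h5 : φ N' (C (algebraMap ℚ R (N l' p.2))) = C (algebraMap ℚ R (N l' p.2)) :=
          aeval_C _ _
        rw [h4, h5, Finset.mul_sum]
        refine Finset.sum_congr rfl fun k _ => ?_
        rw [map_mul, map_mul]
        ring
      rw [Finset.sum_congr rfl fun l' _ => h3 l', Finset.sum_comm]
      have h6 : ∀ k, ∑ l', C (algebraMap ℚ R (N' k l' * N l' p.2)) * X (p.1, k) =
          (C (algebraMap ℚ R ((N' * N) k p.2)) * X (p.1, k) : MvPolynomial (ι × β) R) := by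
        intro k
        rw [← Finset.sum_mul, Matrix.mul_apply, map_sum, map_sum]
      rw [Finset.sum_congr rfl fun k _ => h6 k, hN]
      rw [Finset.sum_eq_single p.2]
      · rw [Matrix.one_apply_eq, map_one, map_one, one_mul]
      · intro k _ hk
        rw [Matrix.one_apply_ne hk, map_zero, map_zero, zero_mul]
      · intro h
        exact absurd (Finset.mem_univ _) h
    exact AlgHom.congr_fun h1 P
  have hinj : Function.Injective (φ M) :=
    Function.LeftInverse.injective (g := φ M') (hcomp M M' hM)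
  rw [algebraicIndependent_iff_injective_aeval] at ha ⊢
  have h7 : (aeval (fun p : ι × β => ∑ l', a p.1 l' * (M l' p.2 : ℂ)) :
      MvPolynomial (ι × β) R →ₐ[R] ℂ) = (aeval (fun p : ι × β => a p.1 p.2)).comp (φ M) := by
    refine MvPolynomial.algHom_ext fun p => ?_
    rw [aeval_X]
    show _ = aeval (fun p : ι × β => a p.1 p.2) (φ M (X p))
    have h2 : φ M (X p) = ∑ l', C (algebraMap ℚ R (M l' p.2)) * X (p.1, l') := aeval_X _ _
    rw [h2, map_sum]
    refine Finset.sum_congr rfl fun l' _ => ?_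
    rw [map_mul, aeval_C, aeval_X, mul_comm]
    congr 1
  rw [h7]
  exact ha.comp hinj

variable {n d : ℕ}

/-- the matrix of the action of a rational matrix on the coefficients -/
private noncomputable def repQ (g : Matrix (Fin (n + 1)) (Fin (n + 1)) ℚ) (m m' : Mon n d) : ℚ :=
  coeff m.1 (sub g (monomial m'.1 (1 : ℚ)))

private theorem sub_map_rat (g : Matrix (Fin (n + 1)) (Fin (n + 1)) ℚ)
    (P : MvPolynomial (Fin (n + 1)) ℚ) :
    sub (g.map (Rat.cast : ℚ → ℂ)) (MvPolynomial.map (algebraMap ℚ ℂ) P) =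
      MvPolynomial.map (algebraMap ℚ ℂ) (sub g P) := by
  unfold sub
  induction P using MvPolynomial.induction_on with
  | C a => simp
  | add p q hp hq => rw [map_add, map_add, map_add, map_add, hp, hq]
  | mul_X p i hp =>
    rw [map_mul, map_mul, map_mul, map_mul, hp]
    refine congrArg (HMul.hMul _) ?_
    simp [map_sum]

private theorem sub_addQ (g : Matrix (Fin (n + 1)) (Fin (n + 1)) ℂ) (c : Mon n d → ℂ) :
    sub g (frm c) = ∑ m' : Mon n d, C (c m') * sub g (monomial m'.1 (1 : ℂ)) := by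
  unfold frm sub
  rw [map_sum]
  refine Finset.sum_congr rfl fun m' _ => ?_
  have h : (monomial m'.1 (c m') : MvPolynomial (Fin (n + 1)) ℂ) = C (c m') * monomial m'.1 (1 : ℂ) := by
    rw [C_mul_monomial, mul_one]
  rw [h, map_mul, aeval_C]
  rfl

private theorem act_eqQ (g : Matrix (Fin (n + 1)) (Fin (n + 1)) ℚ) (c : Mon n d → ℂ) (m : Mon n d) :
    act (g.map (Rat.cast : ℚ → ℂ)) c m = ∑ m', (repQ g m m' : ℂ) * c m' := by
  unfold act repQ
  rw [sub_addQ, coeff_sum]
  refine Finset.sum_congr rfl fun m' _ => ?_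
  have h : (monomial m'.1 (1 : ℂ) : MvPolynomial (Fin (n + 1)) ℂ) =
      MvPolynomial.map (algebraMap ℚ ℂ) (monomial m'.1 (1 : ℚ)) := by
    rw [map_monomial]
    congr 1
    exact (map_one (algebraMap ℚ ℂ)).symm
  rw [coeff_C_mul, h, sub_map_rat, coeff_map, mul_comm]
  rfl

open scoped Classical in
private theorem repQ_mul (g h : Matrix (Fin (n + 1)) (Fin (n + 1)) ℚ) (hgh : h * g = 1)
    (m m' : Mon n d) : ∑ k, repQ g m k * repQ h k m' = if m = m' then 1 else 0 := by
  have hC : h.map (Rat.cast : ℚ → ℂ) * g.map (Rat.cast : ℚ → ℂ) = 1 := by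
    have h1 := congrArg (fun A : Matrix (Fin (n + 1)) (Fin (n + 1)) ℚ => A.map (Rat.castHom ℂ)) hgh
    simp only [Matrix.map_mul] at h1
    rw [Matrix.map_one _ (map_zero _) (map_one _)] at h1
    exact h1
  have h1 := congrFun (act_act (g.map (Rat.cast : ℚ → ℂ)) (h.map (Rat.cast : ℚ → ℂ))
    (Pi.single m' (1 : ℂ) : Mon n d → ℂ)) m
  rw [hC, act_one, act_eqQ] at h1
  have h2 : ∀ k, act (h.map (Rat.cast : ℚ → ℂ)) (Pi.single m' (1 : ℂ) : Mon n d → ℂ) k =
      (repQ h k m' : ℂ) := by
    intro k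
    rw [act_eqQ, Finset.sum_eq_single m']
    · rw [Pi.single_eq_same, mul_one]
    · intro b _ hb
      rw [Pi.single_eq_of_ne hb, mul_zero]
    · intro hj
      exact absurd (Finset.mem_univ _) hj
  simp only [h2] at h1
  have h3 : ((∑ k, repQ g m k * repQ h k m' : ℚ) : ℂ) = ((if m = m' then 1 else 0 : ℚ) : ℂ) := by
    push_cast
    rw [h1]
    by_cases hm : m = m'
    · rw [if_pos hm, hm, Pi.single_eq_same, Rat.cast_one]
    · rw [if_neg hm, Pi.single_eq_of_ne hm, Rat.cast_zero]
  exact_mod_cast h3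

/-- [TD-6] Proof.  As `exists_aut` (AutC.lean): the numbers `act M (a i) m` are the images of the `a i m'` under an invertible
rational matrix (`act_act`, `act_one`: the inverse is `act M⁻¹`; rational as in `act_eq`), so they are algebraically independent over `ℚ(x)` as well. -/
theorem exists_autF {n d s : ℕ} {ι : Type} [Finite ι] (x : Fin s → ℂ) (a : ι → Mon n d → ℂ)
    (ha : AlgebraicIndependent (Algebra.adjoin ℚ (Set.range x))
      (fun p : ι × Mon n d => a p.1 p.2))
    (M : Matrix (Fin (n + 1)) (Fin (n + 1)) ℚ) (hM : M.det ≠ 0) :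
    ∃ σ : ℂ ≃+* ℂ, (∀ i, σ (x i) = x i) ∧
      ∀ i, map (σ : ℂ →+* ℂ) (frm (a i)) = sub (M.map (Rat.cast : ℚ → ℂ)) (frm (a i)) := by
  classical
  have hinv : M⁻¹ * M = 1 := Matrix.nonsing_inv_mul M (Ne.isUnit hM)
  let N : Matrix (Mon n d) (Mon n d) ℚ := fun l m => repQ M m l
  let N' : Matrix (Mon n d) (Mon n d) ℚ := fun l m => repQ M⁻¹ m l
  have hN : N' * N = 1 := by
    funext m' m
    rw [Matrix.mul_apply]
    have h1 := repQ_mul (n := n) (d := d) M M⁻¹ hinv m m'
    have h2 : ∑ k, N' m' k * N k m = ∑ k, repQ M m k * repQ M⁻¹ k m' :=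
      Finset.sum_congr rfl fun k _ => mul_comm _ _
    rw [h2, h1, Matrix.one_apply]
    by_cases h : m = m'
    · rw [if_pos h, if_pos h.symm]
    · rw [if_neg h, if_neg (fun h' => h h'.symm)]
  obtain ⟨σ, h1, h2⟩ := exists_ringEquiv_over x ha (algInd_mulF _ a ha N N' hN)
  refine ⟨σ, h1, fun i => ?_⟩
  rw [map_frm, ← frm_act]
  congr 1
  funext m
  have h3 := h2 (i, m)
  rw [act_eqQ]
  have h4 : ∑ m', (repQ M m m' : ℂ) * a i m' = ∑ l', a i l' * (N l' m : ℂ) :=
    Finset.sum_congr rfl fun l' _ => mul_comm _ _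
  rw [h4]
  exact h3

end Pool.Agent.TD
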