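import Pool.Agent.Lib_MP_b9fedf_td.Defs
import Pool.Agent.Lib_MP_b9fedf_tt.Lin
import Pool.Agent.Lib_MP_b9fedf_gh.Act

/-! [TD-5]: linear substitutions, points. -/

set_option autoImplicit false

namespace Pool.Agent.TD
open MvPolynomial Pool.Agent.TT Pool.Agent.GGL Pool.Agent.GH

/-- the substitution `x ↦ M x`, `g_j ↦ M g_j` without jets -/
private noncomputable def phi {n : ℕ} (M : Matrix (Fin (n + 1)) (Fin (n + 1)) ℂ) :
    MvPolynomial (XG n) ℂ →ₐ[ℂ] MvPolynomial (XG n) ℂ :=
  aeval (Sum.elim (fun l => ∑ l', C (M l l') * X (Sum.inl l'))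
      (fun p => ∑ l', C (M p.2 l') * X (Sum.inr (p.1, l'))))

private theorem phi_inl {n : ℕ} (M : Matrix (Fin (n + 1)) (Fin (n + 1)) ℂ) (l : Fin (n + 1)) :
    phi M (X (Sum.inl l)) = ∑ l', C (M l l') * X (Sum.inl l') := by
  unfold phi
  rw [aeval_X]
  rfl

private theorem phi_inr {n : ℕ} (M : Matrix (Fin (n + 1)) (Fin (n + 1)) ℂ) (p : GV n) :
    phi M (X (Sum.inr p)) = ∑ l', C (M p.2 l') * X (Sum.inr (p.1, l')) := by
  unfold phi
  rw [aeval_X]
  rfl

private theorem phi_C {n : ℕ} (M : Matrix (Fin (n + 1)) (Fin (n + 1)) ℂ) (c : ℂ) :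
    phi M (C c) = C c := by
  unfold phi
  rw [aeval_C]
  rfl

private theorem spec_C {n : ℕ} (y : YV n → ℂ) (c : ℂ) :
    spec y (C c) = (C c : MvPolynomial (XG n) ℂ) := by
  unfold spec
  rw [aeval_C]
  rfl

private theorem spec_inl {n : ℕ} (y : YV n → ℂ) (v : YV n) :
    spec y (X (Sum.inl v)) = (C (y v) : MvPolynomial (XG n) ℂ) := by
  unfold spec
  rw [aeval_X]
  rfl

private theorem spec_inr {n : ℕ} (y : YV n → ℂ) (v : XG n) :
    spec y (X (Sum.inr v)) = (X v : MvPolynomial (XG n) ℂ) := by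
  unfold spec
  rw [aeval_X]
  rfl

private theorem spec_sbh {n : ℕ} (y : YV n → ℂ) (M : Matrix (Fin (n + 1)) (Fin (n + 1)) ℂ)
    (F : MvPolynomial (Vr n) ℂ) : spec y (sbh M F) = phi M (spec y F) := by
  induction F using MvPolynomial.induction_on with
  | C a =>
    have h : sbh M (C a) = (C a : MvPolynomial (Vr n) ℂ) := by
      unfold sbh
      rw [aeval_C]
      rfl
    rw [h, spec_C, phi_C]
  | add p q hp hq => rw [map_add, map_add, map_add, map_add, hp, hq]
  | mul_X p v hp =>
    rw [map_mul, map_mul, map_mul, map_mul, hp]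
    refine congrArg (HMul.hMul _) ?_
    rcases v with v | l | p
    · have h : sbh M (X (Sum.inl v)) = (X (Sum.inl v) : MvPolynomial (Vr n) ℂ) := by
        unfold sbh
        rw [aeval_X]
        rfl
      rw [h, spec_inl, phi_C]
    · have h : sbh M (X (Sum.inr (Sum.inl l))) =
          (∑ l', C (M l l') * X (Sum.inr (Sum.inl l')) : MvPolynomial (Vr n) ℂ) := by
        unfold sbh
        rw [aeval_X]
        rfl
      rw [h, spec_inr, phi_inl, map_sum]
      refine Finset.sum_congr rfl fun l' _ => ?_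
      rw [map_mul, spec_C, spec_inr]
    · have h : sbh M (X (Sum.inr (Sum.inr p))) =
          (∑ l', C (M p.2 l') * X (Sum.inr (Sum.inr (p.1, l'))) : MvPolynomial (Vr n) ℂ) := by
        unfold sbh
        rw [aeval_X]
        rfl
      rw [h, spec_inr, phi_inr, map_sum]
      refine Finset.sum_congr rfl fun l' _ => ?_
      rw [map_mul, spec_C, spec_inr]

private theorem phi_rename {n : ℕ} (M : Matrix (Fin (n + 1)) (Fin (n + 1)) ℂ)
    (b : MvPolynomial (Fin (n + 1)) ℂ) :
    phi M (rename Sum.inl b) = rename Sum.inl (sub M b) := by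
  unfold sub
  induction b using MvPolynomial.induction_on with
  | C a => rw [rename_C, phi_C, aeval_C, MvPolynomial.algebraMap_eq, rename_C]
  | add p q hp hq => rw [map_add, map_add, map_add, map_add, hp, hq]
  | mul_X p l hp =>
    rw [map_mul, map_mul, map_mul, map_mul, hp]
    refine congrArg (HMul.hMul _) ?_
    rw [rename_X, phi_inl, aeval_X, map_sum]
    refine Finset.sum_congr rfl fun l' _ => ?_
    rw [map_mul, rename_C, rename_X]

/-- the bidegree -/
private def w2 (n : ℕ) : XG n → ℕ × ℕ := Sum.elim (fun _ => (1, 0)) (fun _ => (0, 1))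

private theorem weight_w2 {n : ℕ} (m : XG n →₀ ℕ) :
    Finsupp.weight (w2 n) m = (∑ l, m (Sum.inl l), ∑ p, m (Sum.inr p)) := by
  rw [Finsupp.weight_apply,
    Finsupp.sum_fintype m (fun i c => c • w2 n i) (fun i => zero_smul ℕ (w2 n i)),
    Fintype.sum_sum_type]
  apply Prod.ext
  · simp [w2, Prod.fst_sum, Prod.fst_add]
  · simp [w2, Prod.snd_sum, Prod.snd_add]

private theorem hom_phi {n : ℕ} (M : Matrix (Fin (n + 1)) (Fin (n + 1)) ℂ) (m : XG n →₀ ℕ) :
    IsWeightedHomogeneous (w2 n) (phi M (monomial m 1)) (Finsupp.weight (w2 n) m) := by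
  induction m using Finsupp.induction_linear with
  | zero =>
    rw [map_zero]
    have h : (monomial (0 : XG n →₀ ℕ) (1 : ℂ)) = C 1 := rfl
    rw [h, phi_C]
    exact isWeightedHomogeneous_C _ _
  | add f g hf hg =>
    have h : (monomial (f + g) (1 : ℂ)) = monomial f 1 * monomial g 1 := by
      rw [monomial_mul, one_mul]
    rw [h, map_mul, map_add]
    exact hf.mul hg
  | single v e =>
    have h : (monomial (Finsupp.single v e) (1 : ℂ)) = X v ^ e := (X_pow_eq_monomial).symm
    rw [h, map_pow, Finsupp.weight_single]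
    refine IsWeightedHomogeneous.pow ?_ e
    rcases v with l | p
    · rw [phi_inl]
      refine IsWeightedHomogeneous.sum _ _ _ fun l' _ => ?_
      have := (isWeightedHomogeneous_C (w2 n) (M l l')).mul
        (isWeightedHomogeneous_X ℂ (w2 n) (Sum.inl l'))
      rw [zero_add] at this
      exact this
    · rw [phi_inr]
      refine IsWeightedHomogeneous.sum _ _ _ fun l' _ => ?_
      have := (isWeightedHomogeneous_C (w2 n) (M p.2 l')).mul
        (isWeightedHomogeneous_X ℂ (w2 n) (Sum.inr (p.1, l')))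
      rw [zero_add] at this
      exact this

private theorem mem_of_hom {n d A B : ℕ} (b b' c : MvPolynomial (Fin (n + 1)) ℂ)
    (hc : c = b ∨ c = b') (m : XG n →₀ ℕ) (h1 : ∑ l, m (Sum.inl l) + d ≤ A)
    (h2 : ∑ p, m (Sum.inr p) ≤ B) (P : MvPolynomial (XG n) ℂ)
    (hP : IsWeightedHomogeneous (w2 n) P (Finsupp.weight (w2 n) m)) :
    rename Sum.inl c * P ∈ Lsp d A B b b' := by
  have e : rename Sum.inl c * P =
      ∑ m' ∈ P.support, coeff m' P • (rename Sum.inl c * monomial m' 1) := by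
    conv_lhs => rw [← support_sum_monomial_coeff P]
    rw [Finset.mul_sum]
    refine Finset.sum_congr rfl fun m' _ => ?_
    rw [← mul_smul_comm, smul_monomial, smul_eq_mul, mul_one]
  rw [e]
  refine Submodule.sum_mem _ fun m' hm' => Submodule.smul_mem _ _ (Submodule.subset_span ?_)
  have h3 := hP (mem_support_iff.1 hm')
  rw [weight_w2, weight_w2, Prod.mk.injEq] at h3
  refine ⟨m', ?_, ?_, ?_⟩
  · rw [h3.1]
    exact h1
  · rw [h3.2]
    exact h2
  · rcases hc with rfl | rfl
    · exact Or.inl rfl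
    · exact Or.inr rfl

private theorem phi_lsp {n d A B : ℕ} (M : Matrix (Fin (n + 1)) (Fin (n + 1)) ℂ)
    (b b' : MvPolynomial (Fin (n + 1)) ℂ) (F : MvPolynomial (XG n) ℂ) (hF : F ∈ Lsp d A B b b') :
    phi M F ∈ Lsp d A B (sub M b) (sub M b') := by
  unfold Lsp at hF
  refine Submodule.span_induction ?_ ?_ ?_ ?_ hF
  · rintro F ⟨m, h1, h2, h3⟩
    rcases h3 with rfl | rfl
    · rw [map_mul, phi_rename]
      exact mem_of_hom _ _ _ (Or.inl rfl) m h1 h2 _ (hom_phi M m)
    · rw [map_mul, phi_rename]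
      exact mem_of_hom _ _ _ (Or.inr rfl) m h1 h2 _ (hom_phi M m)
  · rw [map_zero]
    exact Submodule.zero_mem _
  · intro F G _ _ hF hG
    rw [map_add]
    exact Submodule.add_mem _ hF hG
  · intro c F _ hF
    rw [map_smul]
    exact Submodule.smul_mem _ _ hF

/-- [TD-5a] Proof.  `dd` commutes with `sbh M` (Lin.lean); `spec y (sbh M F)` is the image of `spec y F` under the substitution
`x ↦ M x`, `g_j ↦ M g_j`, which maps `Lsp b b'` to `Lsp (sub M b) (sub M b')` (it preserves the degrees in `x` and in the `g_j`). -/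
theorem vn_sbh {n d A B c : ℕ} {Ω ι : Type} (y : Ω → YV n → ℂ)
    (b : ι → MvPolynomial (Fin (n + 1)) ℂ) (M : Matrix (Fin (n + 1)) (Fin (n + 1)) ℂ)
    (G : MvPolynomial (Vr n) ℂ) (hV : Vn d A B c y b G) :
    Vn d A B c y (fun i => sub M (b i)) (sbh M G) := by
  intro a ha i j hij z
  rw [dd_iter_sbh, spec_sbh]
  exact phi_lsp M _ _ _ (hV a ha i j hij z)

private theorem eval_spec {n : ℕ} (y : YV n → ℂ) (x : Fin (n + 1) → ℂ) (g : GV n → ℂ)
    (F : MvPolynomial (Vr n) ℂ) : eval (ev y x g) F = eval (Sum.elim x g) (spec y F) := by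
  induction F using MvPolynomial.induction_on with
  | C a => rw [spec_C, eval_C, eval_C]
  | add p q hp hq => rw [map_add, map_add, map_add, hp, hq]
  | mul_X p v hp =>
    rw [map_mul, map_mul, map_mul, hp]
    refine congrArg (HMul.hMul _) ?_
    rcases v with v | v
    · rw [spec_inl, eval_C, eval_X]
      rfl
    · rw [spec_inr, eval_X, eval_X]
      rfl

/-- [TD-5b] evaluation at a common zero of `b_i` and `b_j` -/
theorem vn_point {n d A B c : ℕ} {Ω ι : Type} {y : Ω → YV n → ℂ}
    {b : ι → MvPolynomial (Fin (n + 1)) ℂ} {G : MvPolynomial (Vr n) ℂ} (hV : Vn d A B c y b G)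
    {a : ℕ} (ha : a < c) {i j : ι} (hij : i ≠ j) (z : Ω) (x : Fin (n + 1) → ℂ) (g : GV n → ℂ)
    (hi : eval x (b i) = 0) (hj : eval x (b j) = 0) :
    eval (ev (y z) x g) ((⇑(dd n))^[a] G) = 0 := by
  rw [eval_spec]
  have h := hV a ha i j hij z
  unfold Lsp at h
  refine Submodule.span_induction (p := fun F _ => eval (Sum.elim x g) F = 0) ?_ ?_ ?_ ?_ h
  · rintro F ⟨m, -, -, h3⟩
    have e : ∀ P : MvPolynomial (Fin (n + 1)) ℂ,
        eval (Sum.elim x g) (rename Sum.inl P) = eval x P := fun P => by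
      rw [eval_rename, Sum.elim_comp_inl]
    rcases h3 with rfl | rfl
    · rw [map_mul, e, hi, zero_mul]
    · rw [map_mul, e, hj, zero_mul]
  · rw [map_zero]
  · intro F G _ _ hF hG
    rw [map_add, hF, hG, add_zero]
  · intro c F _ hF
    rw [smul_eval, hF, mul_zero]

private theorem sub_sub {n : ℕ} (g h : Matrix (Fin (n + 1)) (Fin (n + 1)) ℂ) (P : MvPolynomial (Fin (n + 1)) ℂ) :
    sub g (sub h P) = sub (h * g) P := by
  unfold sub
  induction P using MvPolynomial.induction_on with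
  | C a => simp
  | add p q hp hq => rw [map_add, map_add, map_add, hp, hq]
  | mul_X p i hp =>
    rw [map_mul, map_mul, map_mul, hp]
    refine congrArg (HMul.hMul _) ?_
    rw [aeval_X, aeval_X, map_sum]
    have e : ∀ k, aeval (fun j => ∑ l, C (g j l) * X l) (C (h i k) * X k : MvPolynomial (Fin (n + 1)) ℂ) =
        ∑ l, (C (h i k * g k l) * X l : MvPolynomial (Fin (n + 1)) ℂ) := by
      intro k
      rw [map_mul, aeval_C, aeval_X, Finset.mul_sum]
      refine Finset.sum_congr rfl fun l _ => ?_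
      rw [MvPolynomial.algebraMap_eq, ← mul_assoc, ← C_mul]
    rw [Finset.sum_congr rfl fun k _ => e k, Finset.sum_comm]
    refine Finset.sum_congr rfl fun l _ => ?_
    rw [Matrix.mul_apply, map_sum, Finset.sum_mul]

/-- [TD-5c] (`sub_sub` of Act.lean is private: copy it) -/
theorem sub_inv {n : ℕ} (M Mi : Matrix (Fin (n + 1)) (Fin (n + 1)) ℂ) (h : Mi * M = 1)
    (P : MvPolynomial (Fin (n + 1)) ℂ) : sub M (sub Mi P) = P := by
  rw [sub_sub, h]
  unfold sub
  have e3 : (fun j => ∑ k, C ((1 : Matrix (Fin (n + 1)) (Fin (n + 1)) ℂ) j k) * X k :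
      Fin (n + 1) → MvPolynomial (Fin (n + 1)) ℂ) = X := by
    funext j
    rw [Finset.sum_eq_single j]
    · rw [Matrix.one_apply_eq, C_1, one_mul]
    · intro k _ hk
      rw [Matrix.one_apply_ne hk.symm, C_0, zero_mul]
    · intro hj
      exact absurd (Finset.mem_univ _) hj
  rw [e3, aeval_X_left_apply]

end Pool.Agent.TD
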