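import Mathlib

/-! [TD-7]: a functional which vanishes on the intersection of preimages of subspaces. -/

set_option autoImplicit false

namespace Pool.Agent.TD

/-- [TD-7] Proof.  The kernel of `V → ∏ δ, W ⧸ L δ` is contained in the kernel of `ℓ`, so `ℓ` factors through the range, and the functional
extends to the product (`LinearMap.exists_extend`). -/
theorem exists_dual4 {V W Δ : Type} [AddCommGroup V] [Module ℂ V] [AddCommGroup W] [Module ℂ W]
    [Fintype Δ] (φ : Δ → V →ₗ[ℂ] W) (L : Δ → Submodule ℂ W) (ℓ : V →ₗ[ℂ] ℂ)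
    (h : ∀ v, (∀ δ, φ δ v ∈ L δ) → ℓ v = 0) :
    ∃ ξ : Δ → W →ₗ[ℂ] ℂ, (∀ δ, ∀ u ∈ L δ, ξ δ u = 0) ∧ ∀ v, ℓ v = ∑ δ, ξ δ (φ δ v) := by
  classical
  let Φ : V →ₗ[ℂ] (δ : Δ) → W ⧸ L δ := LinearMap.pi fun δ => (L δ).mkQ ∘ₗ φ δ
  have hker : ℓ ∈ (LinearMap.ker Φ).dualAnnihilator := by
    rw [Submodule.mem_dualAnnihilator]
    intro v hv
    refine h v fun δ => ?_
    have h1 : Φ v δ = 0 := by
      rw [LinearMap.mem_ker.1 hv]
      rfl
    have h2 : (L δ).mkQ (φ δ v) = 0 := h1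
    rwa [Submodule.mkQ_apply, Submodule.Quotient.mk_eq_zero] at h2
  rw [← LinearMap.range_dualMap_eq_dualAnnihilator_ker] at hker
  obtain ⟨g, hg⟩ := hker
  refine ⟨fun δ => g ∘ₗ LinearMap.single ℂ (fun δ => W ⧸ L δ) δ ∘ₗ (L δ).mkQ, fun δ u hu => ?_,
    fun v => ?_⟩
  · have h1 : (L δ).mkQ u = 0 := by
      rw [Submodule.mkQ_apply, Submodule.Quotient.mk_eq_zero]
      exact hu
    rw [LinearMap.comp_apply, LinearMap.comp_apply, h1, map_zero, map_zero]
  · have h1 : ℓ v = g (Φ v) := by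
      rw [← hg]
      rfl
    rw [h1]
    have h2 : Φ v = ∑ δ, Pi.single δ (Φ v δ) := (Finset.univ_sum_single (Φ v)).symm
    rw [h2, map_sum]
    refine Finset.sum_congr rfl fun δ _ => ?_
    rfl

end Pool.Agent.TD
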