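import Pool.Agent.Lib_MP_b9fedf_td.Restr4
import Pool.Agent.Lib_MP_b9fedf_tt.Indep

/-! [TD-3]: existence of the auxiliary polynomial. -/

set_option autoImplicit false

namespace Pool.Agent.TD
open MvPolynomial Module Pool.Agent.TT Pool.Agent.GGL Pool.Agent.GH

/-- [TD-3a] monotone in the degree in the `g_j` -/
theorem lsp_mono {n d A B B' : ℕ} (h : B ≤ B') (b b' : MvPolynomial (Fin (n + 1)) ℂ) :
    Lsp d A B b b' ≤ Lsp d A B' b b' := by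
  refine Submodule.span_mono ?_
  rintro F ⟨m, h1, h2, h3⟩
  exact ⟨m, h1, h2.trans h, h3⟩

/-- [TD-3b] the inequality of the dimensions (`kapF`, `bF`); see `num_ineq` in Exist.lean -/
theorem num_ineq4 {k d K Q u : ℕ} (hd : 1 ≤ d) (hK : 1 ≤ K) (hu : 1 ≤ u) :
    K ^ 2 * Q ^ 2 * (2 * u * (d ^ 2 * ((k + 2) * bF (k + 1) d K Q) ^ k *
      (K ^ 2 + K ^ 2) ^ ((k + 1) * (k + 2)))) <
    u * (bF (k + 1) d K Q ^ (k + 2) * (K ^ 2) ^ ((k + 1) * (k + 2))) := by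
  set A := bF (k + 1) d K Q with hA
  set m := (k + 1) * (k + 2) with hm
  have hkap : kapF (k + 1) = 2 ^ (m + 1) * (k + 2) ^ (k + 1) := rfl
  have hk1 : 1 ≤ kapF (k + 1) := by
    rw [hkap]
    exact Nat.mul_pos (pow_pos (by norm_num) _) (pow_pos (by omega) _)
  have hk2 : 2 ^ (m + 1) * (k + 2) ^ k ≤ kapF (k + 1) := by
    rw [hkap]
    exact Nat.mul_le_mul_left _ (Nat.pow_le_pow_right (by omega) (by omega))
  have hA1 : A = kapF (k + 1) * K * d * (Q + 1) := rfl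
  have hA0 : 0 < A := by
    rw [hA1]
    exact Nat.mul_pos (Nat.mul_pos (Nat.mul_pos hk1 hK) hd) (Nat.succ_pos Q)
  have key : K ^ 2 * Q ^ 2 * (d ^ 2 * (2 ^ (m + 1) * (k + 2) ^ k)) < A ^ 2 := by
    have h1 : K ^ 2 * Q ^ 2 * (d ^ 2 * (2 ^ (m + 1) * (k + 2) ^ k)) ≤
        K ^ 2 * Q ^ 2 * (d ^ 2 * (kapF (k + 1) * kapF (k + 1))) :=
      Nat.mul_le_mul_left _ (Nat.mul_le_mul_left _ (hk2.trans (Nat.le_mul_of_pos_left _ hk1)))
    have h2 : K ^ 2 * Q ^ 2 * (d ^ 2 * (kapF (k + 1) * kapF (k + 1))) <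
        K ^ 2 * (Q + 1) ^ 2 * (d ^ 2 * (kapF (k + 1) * kapF (k + 1))) := by
      refine Nat.mul_lt_mul_of_pos_right ?_ (Nat.mul_pos (pow_pos hd 2) (Nat.mul_pos hk1 hk1))
      refine Nat.mul_lt_mul_of_pos_left ?_ (pow_pos hK 2)
      exact Nat.pow_lt_pow_left (Nat.lt_succ_self Q) (by norm_num)
    have h3 : A ^ 2 = K ^ 2 * (Q + 1) ^ 2 * (d ^ 2 * (kapF (k + 1) * kapF (k + 1))) := by
      rw [hA1]; ring
    rw [h3]
    exact h1.trans_lt h2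
  have hpos : 0 < u * (A ^ k * (K ^ 2) ^ m) :=
    Nat.mul_pos hu (Nat.mul_pos (pow_pos hA0 _) (pow_pos (pow_pos hK 2) _))
  calc K ^ 2 * Q ^ 2 * (2 * u * (d ^ 2 * ((k + 2) * A) ^ k * (K ^ 2 + K ^ 2) ^ m))
      = (K ^ 2 * Q ^ 2 * (d ^ 2 * (2 ^ (m + 1) * (k + 2) ^ k))) * (u * (A ^ k * (K ^ 2) ^ m)) := by
        rw [← two_mul, mul_pow, mul_pow, pow_succ 2 m]
        ring
    _ < A ^ 2 * (u * (A ^ k * (K ^ 2) ^ m)) := Nat.mul_lt_mul_of_pos_right key hpos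
    _ = u * (A ^ (k + 2) * (K ^ 2) ^ m) := by
        rw [show k + 2 = 2 + k by omega, pow_add]
        ring

/-- [TD-3c] Proof.  As `exists_form_bx` in Lib_MP_b9fedf_tt/Exist.lean, with the maps `Θ` of `restr_dim4` (for `ω + a`, `B = K ^ 2 + a`,
`A = bF (k + 1) d K Q`; `bx_iter`) composed with the derivations and with `Φ` of `box_indep`, in place of the evaluations. -/
theorem exists_formF {k d K : ℕ} (hd : 1 ≤ d) (hK : 1 ≤ K) {ι : Type} [Fintype ι] {Q : ℕ}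
    (hQ : Fintype.card ι ≤ Q) {Ω : Type} [Nonempty Ω] (y : Ω → YV (k + 1) → ℂ) {ω : ℕ}
    (hω : finrank ℂ (U y (ω + K ^ 2)) ≤ 2 * finrank ℂ (U y ω))
    (b : ι → MvPolynomial (Fin (k + 2)) ℂ)
    (hb : ∀ i j, i ≠ j → Nrm d (dF (k + 1) d K Q) (b i) (b j)) :
    ∃ G : MvPolynomial (Vr (k + 1)) ℂ, Bx ω (bF (k + 1) d K Q) (K ^ 2) G ∧
      Vn d (dF (k + 1) d K Q) (gF (k + 1) K) (K ^ 2) y b G ∧
      ∃ (z : Ω) (x : Fin (k + 2) → ℂ) (g : GV (k + 1) → ℂ), eval (ev (y z) x g) G ≠ 0 := by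
  classical
  obtain ⟨Φ, hΦ1, hΦ2⟩ := box_indep y ω (bF (k + 1) d K Q) (K ^ 2)
  -- the restrictions
  have hW : ∀ p : Fin (K ^ 2) × ι × ι, ∃ (J : Type)
      (Θ : MvPolynomial (Vr (k + 1)) ℂ →ₗ[ℂ] (Ω × J → ℂ)) (W : Submodule ℂ (Ω × J → ℂ)),
      FiniteDimensional ℂ W ∧
      finrank ℂ W ≤ finrank ℂ (U y (ω + (p.1 : ℕ))) *
        (d ^ 2 * ((k + 2) * bF (k + 1) d K Q) ^ k * (K ^ 2 + (p.1 : ℕ)) ^ ((k + 1) * (k + 2))) ∧
      ∀ G : MvPolynomial (Vr (k + 1)) ℂ,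
        Bx (ω + (p.1 : ℕ)) (bF (k + 1) d K Q) (K ^ 2 + (p.1 : ℕ)) G → Θ G ∈ W ∧
        (p.2.1 ≠ p.2.2 → Θ G = 0 → ∀ z, spec (y z) G ∈
          Lsp d ((k + 2) * bF (k + 1) d K Q) ((k + 1) * (k + 2) * (K ^ 2 + (p.1 : ℕ)))
            (b p.2.1) (b p.2.2)) := by
    intro p
    by_cases hp : p.2.1 = p.2.2
    · refine ⟨Empty, 0, ⊥, inferInstance, ?_, fun G _ => ⟨?_, fun h => absurd hp h⟩⟩
      · rw [finrank_bot]
        exact Nat.zero_le _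
      · exact Submodule.zero_mem _
    · obtain ⟨J, Θ, W, h1, h2, h3⟩ := restr_dim4 y (ω + (p.1 : ℕ)) (bF (k + 1) d K Q)
        (K ^ 2 + (p.1 : ℕ)) d (b p.2.1) (b p.2.2) (hb _ _ hp)
      exact ⟨J, Θ, W, h1, h2, fun G hG => ⟨(h3 G hG).1, fun _ => (h3 G hG).2⟩⟩
  choose J Θ W hWf hWd hWm using hW
  -- the linear maps
  let T0 : (p : Fin (K ^ 2) × ι × ι) → ((Fin (finrank ℂ (U y ω)) × (Fin (k + 1 + 1) →
      Fin (bF (k + 1) d K Q)) × (GV (k + 1) → Fin (K ^ 2))) → ℂ) →ₗ[ℂ] (Ω × J p → ℂ) :=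
    fun p => Θ p ∘ₗ
      ((dd (k + 1) : MvPolynomial (Vr (k + 1)) ℂ →ₗ[ℂ] MvPolynomial (Vr (k + 1)) ℂ) ^ (p.1 : ℕ)) ∘ₗ Φ
  have hT0 : ∀ p c, T0 p c = Θ p ((⇑(dd (k + 1)))^[(p.1 : ℕ)] (Φ c)) := by
    intro p c
    show Θ p (((dd (k + 1) : MvPolynomial (Vr (k + 1)) ℂ →ₗ[ℂ] MvPolynomial (Vr (k + 1)) ℂ) ^
      (p.1 : ℕ)) (Φ c)) = _
    rw [Module.End.pow_apply]
    rfl
  have hmem : ∀ p c, T0 p c ∈ W p := by
    intro p c
    rw [hT0]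
    exact (hWm p _ (bx_iter (hΦ1 c) (p.1 : ℕ))).1
  let T : ((Fin (finrank ℂ (U y ω)) × (Fin (k + 1 + 1) → Fin (bF (k + 1) d K Q)) ×
      (GV (k + 1) → Fin (K ^ 2))) → ℂ) →ₗ[ℂ] ((p : Fin (K ^ 2) × ι × ι) → W p) :=
    LinearMap.pi fun p => (T0 p).codRestrict (W p) (hmem p)
  -- the dimensions
  have hu := u_pos y ω
  have hbound : ∀ p : Fin (K ^ 2) × ι × ι, finrank ℂ (W p) ≤
      2 * finrank ℂ (U y ω) * (d ^ 2 * ((k + 2) * bF (k + 1) d K Q) ^ k *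
        (K ^ 2 + K ^ 2) ^ ((k + 1) * (k + 2))) := by
    intro p
    refine (hWd p).trans ?_
    have := u_finite y (ω + K ^ 2)
    have h1 : finrank ℂ (U y (ω + (p.1 : ℕ))) ≤ 2 * finrank ℂ (U y ω) :=
      (Submodule.finrank_mono (u_mono y (Nat.add_le_add_left p.1.2.le ω))).trans hω
    refine Nat.mul_le_mul h1 (Nat.mul_le_mul_left _ ?_)
    exact Nat.pow_le_pow_left (Nat.add_le_add_left p.1.2.le _) _
  have hlt : finrank ℂ ((p : Fin (K ^ 2) × ι × ι) → W p) <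
      finrank ℂ ((Fin (finrank ℂ (U y ω)) × (Fin (k + 1 + 1) → Fin (bF (k + 1) d K Q)) ×
        (GV (k + 1) → Fin (K ^ 2))) → ℂ) := by
    rw [Module.finrank_pi_fintype, Module.finrank_fintype_fun_eq_card, Fintype.card_prod,
      Fintype.card_prod, Fintype.card_fun, Fintype.card_fun, Fintype.card_fin, Fintype.card_fin,
      Fintype.card_fin, Fintype.card_fin, Fintype.card_prod, Fintype.card_fin, Fintype.card_fin]
    refine lt_of_le_of_lt ?_ (num_ineq4 (k := k) (Q := Q) hd hK hu)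
    refine (Finset.sum_le_sum fun p _ => hbound p).trans ?_
    rw [Finset.sum_const, Finset.card_univ, Fintype.card_prod, Fintype.card_prod, Fintype.card_fin,
      smul_eq_mul]
    refine Nat.mul_le_mul_right _ (Nat.mul_le_mul_left _ ?_)
    rw [sq]
    exact Nat.mul_le_mul hQ hQ
  have hker := LinearMap.ker_ne_bot_of_finrank_lt (f := T) hlt
  obtain ⟨c, hc, hc0⟩ := (Submodule.ne_bot_iff _).1 hker
  refine ⟨Φ c, hΦ1 c, ?_, hΦ2 c hc0⟩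
  intro a ha i j hij z
  have h3 : T c = 0 := hc
  have h4 := congrFun h3 (⟨a, ha⟩, i, j)
  have h5 : T0 (⟨a, ha⟩, i, j) c = 0 := congrArg Subtype.val h4
  rw [hT0] at h5
  have h6 := (hWm (⟨a, ha⟩, i, j) _ (bx_iter (hΦ1 c) a)).2 hij h5 z
  refine lsp_mono ?_ _ _ h6
  show (k + 1) * (k + 2) * (K ^ 2 + a) ≤ (k + 1) * (k + 2) * (2 * K ^ 2)
  refine Nat.mul_le_mul_left _ ?_
  omega

end Pool.Agent.TD
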