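import Pool.Agent.Lib_MP_b9fedf_gh.BasicA

/-! Normal forms of the monomials modulo two general forms of degree `d`. -/

set_option autoImplicit false

namespace Pool.Agent.TD
open MvPolynomial Pool.Agent.GGL Pool.Agent.GH

variable {n d : ℕ}

/-- the row of the monomial `μ` -/
noncomputable def nrow {R : Type} [CommRing R] (p q : Fin (n + 1)) (b b' : Mon n d → R)
    (μ : Fin (n + 1) →₀ ℕ) : MvPolynomial (Fin (n + 1)) R :=
  if d ≤ μ p then monomial (μ - Finsupp.single p d) 1 * frm b
  else if d ≤ μ q then monomial (μ - Finsupp.single q d) 1 * frm b'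
  else monomial μ 1

theorem map_nrow {R S : Type} [CommRing R] [CommRing S] (f : R →+* S) (p q : Fin (n + 1))
    (b b' : Mon n d → R) (μ : Fin (n + 1) →₀ ℕ) :
    map f (nrow p q b b' μ) = nrow p q (fun m => f (b m)) (fun m => f (b' m)) μ := by
  unfold nrow
  split_ifs
  · rw [map_mul, map_monomial, map_one, map_frm]
  · rw [map_mul, map_monomial, map_one, map_frm]
  · rw [map_monomial, map_one]

theorem nf_deg (m : Mon n d) : (m.1 : Fin (n + 1) →₀ ℕ).degree = d := by
  have h := (Finset.mem_finsuppAntidiag.1 m.2).1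
  rw [Finsupp.degree_eq_sum]
  exact h

theorem nf_mem (m : Fin (n + 1) →₀ ℕ) (hm : m.degree = d) :
    m ∈ Finset.finsuppAntidiag (Finset.univ : Finset (Fin (n + 1))) d := by
  rw [Finset.mem_finsuppAntidiag]
  refine ⟨?_, Finset.subset_univ _⟩
  rw [← hm, Finsupp.degree_eq_sum]

private theorem deg_sub (μ : Fin (n + 1) →₀ ℕ) (p : Fin (n + 1)) (h : d ≤ μ p) :
    (μ - Finsupp.single p d).degree + d = μ.degree := by
  have h1 : μ - Finsupp.single p d + Finsupp.single p d = μ :=
    tsub_add_cancel_of_le (Finsupp.single_le_iff.2 h)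
  have h2 := congrArg Finsupp.degree h1
  rw [map_add, Finsupp.degree_single] at h2
  exact h2

theorem nrow_hom {R : Type} [CommRing R] (p q : Fin (n + 1)) (b b' : Mon n d → R)
    (μ : Fin (n + 1) →₀ ℕ) : (nrow p q b b' μ).IsHomogeneous μ.degree := by
  unfold nrow
  split_ifs with h1 h2
  · rw [← deg_sub μ p h1]
    exact (isHomogeneous_monomial _ rfl).mul (frm_hom b)
  · rw [← deg_sub μ q h2]
    exact (isHomogeneous_monomial _ rfl).mul (frm_hom b')
  · exact isHomogeneous_monomial _ rfl

/-- the matrix of the rows -/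
noncomputable def nmat {R : Type} [CommRing R] (p q : Fin (n + 1)) (b b' : Mon n d → R) (t : ℕ) :
    Matrix (Mon n t) (Mon n t) R :=
  Matrix.of fun μ ν => coeff ν.1 (nrow p q b b' μ.1)

open scoped Classical in
private theorem frm_single (R : Type) [CommRing R] (p : Fin (n + 1)) :
    frm (fun m : Mon n d => if m.1 = Finsupp.single p d then (1 : R) else 0) =
      monomial (Finsupp.single p d) 1 := by
  unfold frm
  have hp : Finsupp.single p d ∈
      Finset.finsuppAntidiag (Finset.univ : Finset (Fin (n + 1))) d :=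
    nf_mem _ (Finsupp.degree_single p d)
  rw [Finset.sum_eq_single (⟨_, hp⟩ : Mon n d)]
  · show monomial (Finsupp.single p d) (if Finsupp.single p d = Finsupp.single p d then (1 : R)
      else 0) = _
    rw [if_pos rfl]
  · intro m _ hm
    show monomial m.1 (if m.1 = Finsupp.single p d then (1 : R) else 0) = 0
    rw [if_neg, monomial_zero]
    intro h
    exact hm (Subtype.ext h)
  · intro h
    exact absurd (Finset.mem_univ _) h

open scoped Classical in
private theorem nmat_single (R : Type) [CommRing R] (p q : Fin (n + 1)) (t : ℕ) :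
    nmat p q (fun m : Mon n d => if m.1 = Finsupp.single p d then (1 : R) else 0)
      (fun m : Mon n d => if m.1 = Finsupp.single q d then (1 : R) else 0) t = 1 := by
  ext μ ν
  have h1 : nrow p q (fun m : Mon n d => if m.1 = Finsupp.single p d then (1 : R) else 0)
      (fun m : Mon n d => if m.1 = Finsupp.single q d then (1 : R) else 0) μ.1 =
      monomial μ.1 1 := by
    unfold nrow
    rw [frm_single, frm_single]
    split_ifs with h1 h2
    · rw [monomial_mul, one_mul, tsub_add_cancel_of_le (Finsupp.single_le_iff.2 h1)]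
    · rw [monomial_mul, one_mul, tsub_add_cancel_of_le (Finsupp.single_le_iff.2 h2)]
    · rfl
  show coeff ν.1 _ = _
  rw [h1, coeff_monomial, Matrix.one_apply]
  by_cases h : μ = ν
  · rw [if_pos h, if_pos (congrArg Subtype.val h)]
  · rw [if_neg h, if_neg (fun h' => h (Subtype.ext h'))]

theorem nmat_map {R S : Type} [CommRing R] [CommRing S] (f : R →+* S) (p q : Fin (n + 1))
    (b b' : Mon n d → R) (t : ℕ) :
    f.mapMatrix (nmat p q b b' t) = nmat p q (fun m => f (b m)) (fun m => f (b' m)) t := by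
  ext μ ν
  show f (coeff ν.1 (nrow p q b b' μ.1)) = coeff ν.1 (nrow p q _ _ μ.1)
  rw [← map_nrow, coeff_map]

open scoped Classical in
/-- The determinant of the universal matrix is not zero. -/
theorem nmat_univ {E : Type} (p q : Fin (n + 1)) (u v : Mon n d → E)
    (hu : ∀ m m', u m ≠ v m') (hu1 : Function.Injective u) (hv1 : Function.Injective v) (t : ℕ) :
    (nmat p q (fun m => (X (u m) : MvPolynomial E ℚ)) (fun m => X (v m)) t).det ≠ 0 := by
  intro h0
  let s : E → ℚ := fun e =>
    if e ∈ Set.range u then (if ∃ m, u m = e ∧ m.1 = Finsupp.single p d then 1 else 0)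
    else (if ∃ m, v m = e ∧ m.1 = Finsupp.single q d then 1 else 0)
  have hsu : ∀ m : Mon n d, s (u m) = if m.1 = Finsupp.single p d then (1 : ℚ) else 0 := by
    intro m
    show (if u m ∈ Set.range u then (if ∃ m', u m' = u m ∧ m'.1 = Finsupp.single p d then (1 : ℚ)
      else 0) else _) = _
    rw [if_pos ⟨m, rfl⟩]
    by_cases hm : m.1 = Finsupp.single p d
    · rw [if_pos ⟨m, rfl, hm⟩, if_pos hm]
    · rw [if_neg, if_neg hm]
      rintro ⟨m', h1, h2⟩
      rw [hu1 h1] at h2
      exact hm h2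
  have hsv : ∀ m : Mon n d, s (v m) = if m.1 = Finsupp.single q d then (1 : ℚ) else 0 := by
    intro m
    show (if v m ∈ Set.range u then _ else (if ∃ m', v m' = v m ∧ m'.1 = Finsupp.single q d
      then (1 : ℚ) else 0)) = _
    rw [if_neg (by rintro ⟨m', h1⟩; exact hu m' m h1)]
    by_cases hm : m.1 = Finsupp.single q d
    · rw [if_pos ⟨m, rfl, hm⟩, if_pos hm]
    · rw [if_neg, if_neg hm]
      rintro ⟨m', h1, h2⟩
      rw [hv1 h1] at h2
      exact hm h2
  let f : MvPolynomial E ℚ →+* ℚ := (aeval s : MvPolynomial E ℚ →ₐ[ℚ] ℚ).toRingHom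
  have h1 := congrArg f h0
  rw [map_zero, RingHom.map_det, nmat_map] at h1
  have h2 : nmat p q (fun m => f (X (u m))) (fun m => f (X (v m))) t =
      (1 : Matrix (Mon n t) (Mon n t) ℚ) := by
    rw [← nmat_single ℚ p q t]
    have e1 : (fun m : Mon n d => f (X (u m))) =
        (fun m : Mon n d => if m.1 = Finsupp.single p d then (1 : ℚ) else 0) := by
      funext m
      rw [← hsu m]
      exact aeval_X _ _
    have e2 : (fun m : Mon n d => f (X (v m))) =
        (fun m : Mon n d => if m.1 = Finsupp.single q d then (1 : ℚ) else 0) := by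
      funext m
      rw [← hsv m]
      exact aeval_X _ _
    rw [e1, e2]
  rw [h2, Matrix.det_one] at h1
  exact one_ne_zero h1

/-- The determinant is not zero for algebraically independent coefficients. -/
theorem nmat_det (p q : Fin (n + 1)) (b b' : Mon n d → ℂ)
    (h : AlgebraicIndependent ℚ (Sum.elim b b')) (t : ℕ) : (nmat p q b b' t).det ≠ 0 := by
  classical
  let R0 := MvPolynomial (Mon n d ⊕ Mon n d) ℚ
  let M0 : Matrix (Mon n t) (Mon n t) R0 :=
    nmat p q (fun m => X (Sum.inl m)) (fun m => X (Sum.inr m)) t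
  have h0 : M0.det ≠ 0 := by
    intro h0
    let f : R0 →+* ℚ := (aeval (Sum.elim
      (fun m : Mon n d => if m.1 = Finsupp.single p d then (1 : ℚ) else 0)
      (fun m : Mon n d => if m.1 = Finsupp.single q d then (1 : ℚ) else 0)) :
        R0 →ₐ[ℚ] ℚ).toRingHom
    have h1 := congrArg f h0
    rw [map_zero, RingHom.map_det, nmat_map] at h1
    have h2 : nmat p q (fun m => f (X (Sum.inl m))) (fun m => f (X (Sum.inr m))) t =
        (1 : Matrix (Mon n t) (Mon n t) ℚ) := by
      rw [← nmat_single ℚ p q t]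
      have e1 : (fun m : Mon n d => f (X (Sum.inl m))) =
          (fun m : Mon n d => if m.1 = Finsupp.single p d then (1 : ℚ) else 0) := by
        funext m
        exact aeval_X _ _
      have e2 : (fun m : Mon n d => f (X (Sum.inr m))) =
          (fun m : Mon n d => if m.1 = Finsupp.single q d then (1 : ℚ) else 0) := by
        funext m
        exact aeval_X _ _
      rw [e1, e2]
    rw [h2, Matrix.det_one] at h1
    exact one_ne_zero h1
  intro h1
  apply h0
  have h2 : (aeval (Sum.elim b b') : R0 →ₐ[ℚ] ℂ) M0.det = 0 := by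
    have h3 := RingHom.map_det ((aeval (Sum.elim b b') : R0 →ₐ[ℚ] ℂ).toRingHom) M0
    have h4 : ((aeval (Sum.elim b b') : R0 →ₐ[ℚ] ℂ).toRingHom).mapMatrix M0 =
        nmat p q b b' t := by
      rw [nmat_map]
      have e1 : (fun m : Mon n d => (aeval (Sum.elim b b') : R0 →ₐ[ℚ] ℂ).toRingHom
          (X (Sum.inl m))) = b := by
        funext m
        exact aeval_X _ _
      have e2 : (fun m : Mon n d => (aeval (Sum.elim b b') : R0 →ₐ[ℚ] ℂ).toRingHom
          (X (Sum.inr m))) = b' := by
        funext m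
        exact aeval_X _ _
      rw [e1, e2]
    rw [h4, h1] at h3
    exact h3
  exact h.eq_zero_of_aeval_eq_zero _ h2

/-- Every monomial of degree `t` is a combination of multiples of `b` and `b'` of degree `t` and of
the monomials with exponents of `x_p` and `x_q` below `d`. -/
theorem nf_span_det (p q : Fin (n + 1)) (b b' : Mon n d → ℂ)
    (μ : Fin (n + 1) →₀ ℕ) (h : (nmat p q b b' μ.degree).det ≠ 0) :
    monomial μ (1 : ℂ) ∈ Submodule.span ℂ
      ({P | ∃ m : Fin (n + 1) →₀ ℕ, m.degree + d = μ.degree ∧ P = monomial m 1 * frm b} ∪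
        {P | ∃ m : Fin (n + 1) →₀ ℕ, m.degree + d = μ.degree ∧ P = monomial m 1 * frm b'} ∪
        {P | ∃ ν : Fin (n + 1) →₀ ℕ, ν.degree = μ.degree ∧ ν p < d ∧ ν q < d ∧
          P = monomial ν 1}) := by
  classical
  set t := μ.degree with ht
  set M := nmat p q b b' t with hM
  have hdet : IsUnit M.det := isUnit_iff_ne_zero.2 h
  let μ' : Mon n t := ⟨μ, nf_mem μ rfl⟩
  have hrow : ∀ κ : Mon n t, nrow p q b b' κ.1 = ∑ ν : Mon n t, M κ ν • monomial ν.1 (1 : ℂ) := by
    intro κ
    have h1 : (nrow p q b b' κ.1).IsHomogeneous t := by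
      have h2 := nrow_hom p q b b' κ.1
      rwa [nf_deg κ] at h2
    have h3 := frm_coeff (nrow p q b b' κ.1) h1
    conv_lhs => rw [← h3]
    unfold frm
    refine Finset.sum_congr rfl fun ν _ => ?_
    rw [smul_monomial, smul_eq_mul, mul_one]
    rfl
  have hsum : monomial μ (1 : ℂ) = ∑ κ : Mon n t, M⁻¹ μ' κ • nrow p q b b' κ.1 := by
    have h1 : ∑ κ : Mon n t, M⁻¹ μ' κ • nrow p q b b' κ.1 =
        ∑ ν : Mon n t, (M⁻¹ * M) μ' ν • monomial ν.1 (1 : ℂ) := by
      calc ∑ κ : Mon n t, M⁻¹ μ' κ • nrow p q b b' κ.1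
          = ∑ κ : Mon n t, ∑ ν : Mon n t, (M⁻¹ μ' κ * M κ ν) • monomial ν.1 (1 : ℂ) := by
            refine Finset.sum_congr rfl fun κ _ => ?_
            rw [hrow κ, Finset.smul_sum]
            refine Finset.sum_congr rfl fun ν _ => ?_
            rw [smul_smul]
        _ = _ := by
            rw [Finset.sum_comm]
            refine Finset.sum_congr rfl fun ν _ => ?_
            rw [← Finset.sum_smul, Matrix.mul_apply]
    rw [h1, Matrix.nonsing_inv_mul _ hdet, Finset.sum_eq_single μ']
    · rw [Matrix.one_apply_eq, one_smul]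
    · intro ν _ hν
      rw [Matrix.one_apply_ne (Ne.symm hν), zero_smul]
    · intro h2
      exact absurd (Finset.mem_univ _) h2
  rw [hsum]
  refine Submodule.sum_mem _ fun κ _ => Submodule.smul_mem _ _ (Submodule.subset_span ?_)
  have hκ := nf_deg κ
  unfold nrow
  split_ifs with h1 h2
  · refine Or.inl (Or.inl ⟨_, ?_, rfl⟩)
    rw [deg_sub κ.1 p h1, hκ]
  · refine Or.inl (Or.inr ⟨_, ?_, rfl⟩)
    rw [deg_sub κ.1 q h2, hκ]
  · exact Or.inr ⟨κ.1, hκ, by omega, by omega, rfl⟩

theorem nf_span (p q : Fin (n + 1)) (b b' : Mon n d → ℂ)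
    (h : AlgebraicIndependent ℚ (Sum.elim b b')) (μ : Fin (n + 1) →₀ ℕ) :
    monomial μ (1 : ℂ) ∈ Submodule.span ℂ
      ({P | ∃ m : Fin (n + 1) →₀ ℕ, m.degree + d = μ.degree ∧ P = monomial m 1 * frm b} ∪
        {P | ∃ m : Fin (n + 1) →₀ ℕ, m.degree + d = μ.degree ∧ P = monomial m 1 * frm b'} ∪
        {P | ∃ ν : Fin (n + 1) →₀ ℕ, ν.degree = μ.degree ∧ ν p < d ∧ ν q < d ∧
          P = monomial ν 1}) :=
  nf_span_det p q b b' μ (nmat_det p q b b' h _)

end Pool.Agent.TD
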