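import Pool.Agent.Lib_MP_b9fedf_td.Defs
import Pool.Agent.Lib_MP_b9fedf_td.Nf

/-! [TD-1]: normal forms modulo two general forms. -/

set_option autoImplicit false

namespace Pool.Agent.TD
open MvPolynomial Pool.Agent.TT Pool.Agent.GGL Pool.Agent.GH

/-- [TD-1] Proof.  For each degree `t ≤ A` let `N_t` be the set of the `μ` of degree `t` with `μ 0 ≥ d` or `μ 1 ≥ d`, and
`v_μ = b * x ^ (μ - d e_0)` if `μ 0 ≥ d`, `v_μ = b' * x ^ (μ - d e_1)` otherwise.  The matrix `M_t` of the coefficients of the `v_μ` at the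
`x ^ ν`, `μ, ν ∈ N_t`, is polynomial in the coefficients of `b = frm (a 0)`, `b' = frm (a 1)` (each entry is a coefficient
`a i m` or zero), and it is the identity for `b = x_0 ^ d`, `b' = x_1 ^ d`; so its determinant is a nonzero polynomial.
`S` is the product over `t ≤ A`.  If `det M_t ≠ 0` then `x ^ ν`, `ν ∈ N_t`, is a combination of the `v_μ` and of the `x ^ ν'`,
`ν' ∉ N_t`.  (For `t < d` the set `N_t` is empty.) -/
theorem nrm_open (k d A : ℕ) (hd : 1 ≤ d) : ∃ S : MvPolynomial (Fin 2 × Mon (k + 1) d) ℚ, S ≠ 0 ∧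
    ∀ a : Fin 2 → Mon (k + 1) d → ℂ, aeval (fun p : Fin 2 × Mon (k + 1) d => a p.1 p.2) S ≠ 0 →
      Nrm d A (frm (a 0)) (frm (a 1)) := by
  classical
  let D : ℕ → MvPolynomial (Fin 2 × Mon (k + 1) d) ℚ := fun t =>
    (nmat (0 : Fin (k + 2)) 1 (fun m => (X ((0 : Fin 2), m) : MvPolynomial (Fin 2 × Mon (k + 1) d) ℚ))
      (fun m => X ((1 : Fin 2), m)) t).det
  refine ⟨∏ t ∈ Finset.range (A + 1), D t, ?_, fun a ha μ hμ => ?_⟩
  · refine Finset.prod_ne_zero_iff.2 fun t _ => ?_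
    refine nmat_univ (0 : Fin (k + 2)) 1 (fun m => ((0 : Fin 2), m)) (fun m => ((1 : Fin 2), m)) ?_ ?_ ?_ t
    · intro m m' h
      have h' : (0 : Fin 2) = 1 := congrArg Prod.fst h
      exact absurd h' (by decide)
    · intro m m' h
      exact congrArg Prod.snd h
    · intro m m' h
      exact congrArg Prod.snd h
  · have hdeg : μ.degree = ∑ l, μ l := Finsupp.degree_eq_sum μ
    have hdet : (nmat (0 : Fin (k + 2)) 1 (a 0) (a 1) μ.degree).det ≠ 0 := by
      rw [map_prod] at ha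
      have h1 := Finset.prod_ne_zero_iff.1 ha μ.degree
        (Finset.mem_range.2 (Nat.lt_succ_of_le (hdeg.le.trans hμ)))
      have h3 := RingHom.map_det ((aeval (fun p : Fin 2 × Mon (k + 1) d => a p.1 p.2) :
        MvPolynomial (Fin 2 × Mon (k + 1) d) ℚ →ₐ[ℚ] ℂ).toRingHom)
        (nmat (0 : Fin (k + 2)) 1
          (fun m => (X ((0 : Fin 2), m) : MvPolynomial (Fin 2 × Mon (k + 1) d) ℚ))
          (fun m => X ((1 : Fin 2), m)) μ.degree)
      rw [nmat_map] at h3
      have e1 : (fun m : Mon (k + 1) d => (aeval (fun p : Fin 2 × Mon (k + 1) d => a p.1 p.2) :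
          MvPolynomial (Fin 2 × Mon (k + 1) d) ℚ →ₐ[ℚ] ℂ).toRingHom (X ((0 : Fin 2), m))) = a 0 := by
        funext m
        exact aeval_X _ _
      have e2 : (fun m : Mon (k + 1) d => (aeval (fun p : Fin 2 × Mon (k + 1) d => a p.1 p.2) :
          MvPolynomial (Fin 2 × Mon (k + 1) d) ℚ →ₐ[ℚ] ℂ).toRingHom (X ((1 : Fin 2), m))) = a 1 := by
        funext m
        exact aeval_X _ _
      rw [e1, e2] at h3
      rw [← h3]
      exact h1
    have h2 := nf_span_det (0 : Fin (k + 2)) 1 (a 0) (a 1) μ hdet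
    rw [hdeg] at h2
    refine Submodule.span_le.2 ?_ h2
    have hs : ∀ m : Fin (k + 2) →₀ ℕ, m.degree = ∑ l, m l := fun m => Finsupp.degree_eq_sum m
    rintro P ((⟨m, hm, rfl⟩ | ⟨m, hm, rfl⟩) | ⟨ν, hν, hp, hq, rfl⟩)
    · refine Submodule.mem_sup_right (Submodule.subset_span ⟨m, ?_, Or.inl (mul_comm _ _)⟩)
      have h5 := hs m
      omega
    · refine Submodule.mem_sup_right (Submodule.subset_span ⟨m, ?_, Or.inr (mul_comm _ _)⟩)
      have h5 := hs m
      omega
    · refine Submodule.mem_sup_left (Submodule.subset_span ⟨ν, ?_, hp, hq, rfl⟩)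
      have h5 := hs ν
      omega

end Pool.Agent.TD
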