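import Pool.Agent.Lib_MP_b9fedf_td.Defs
import Pool.Agent.Lib_MP_b9fedf_tt.Poly

/-! [TD-8]: coefficients. -/

set_option autoImplicit false

namespace Pool.Agent.TD
open MvPolynomial Pool.Agent.TT Pool.Agent.GGL Pool.Agent.GH

private theorem spec_C {n : ℕ} (y : YV n → ℂ) (c : ℂ) : spec y (C c) = C c := by
  unfold spec
  rw [aeval_C]
  rfl

private theorem spec_inl {n : ℕ} (y : YV n → ℂ) (v : YV n) : spec y (X (Sum.inl v)) = C (y v) := by
  unfold spec
  rw [aeval_X]
  rfl

private theorem spec_inr {n : ℕ} (y : YV n → ℂ) (q : XG n) : spec y (X (Sum.inr q)) = X q := by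
  unfold spec
  rw [aeval_X]
  rfl

private theorem coeff_spec_rat {n : ℕ} (F : MvPolynomial (Vr n) ℚ) :
    ∀ κ : XG n →₀ ℕ, ∃ P : MvPolynomial (YV n) ℚ, ∀ y : YV n → ℂ,
      aeval y P = coeff κ (spec y (map (algebraMap ℚ ℂ) F)) := by
  classical
  induction F using MvPolynomial.induction_on with
  | C q =>
    intro κ
    by_cases h : (0 : XG n →₀ ℕ) = κ
    · refine ⟨C q, fun y => ?_⟩
      rw [map_C, spec_C, coeff_C, if_pos h, aeval_C]
    · refine ⟨0, fun y => ?_⟩
      rw [map_C, spec_C, coeff_C, if_neg h, map_zero]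
  | add p q hp hq =>
    intro κ
    obtain ⟨P, hP⟩ := hp κ
    obtain ⟨Q, hQ⟩ := hq κ
    refine ⟨P + Q, fun y => ?_⟩
    rw [map_add, map_add, map_add, coeff_add, hP, hQ]
  | mul_X p v hp =>
    intro κ
    rcases v with v | q
    · obtain ⟨P, hP⟩ := hp κ
      refine ⟨P * X v, fun y => ?_⟩
      rw [map_mul, map_mul, map_mul, map_X, spec_inl, mul_comm _ (C (y v)), coeff_C_mul, aeval_X,
        hP, mul_comm]
    · by_cases h : q ∈ κ.support
      · obtain ⟨P, hP⟩ := hp (κ - Finsupp.single q 1)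
        refine ⟨P, fun y => ?_⟩
        rw [map_mul, map_mul, map_X, spec_inr, coeff_mul_X', if_pos h, hP]
      · refine ⟨0, fun y => ?_⟩
        rw [map_mul, map_mul, map_X, spec_inr, coeff_mul_X', if_neg h, map_zero]

/-- [TD-8a] Proof.  Induction on `a`, or `exists_rat_dd` and `sumAlgEquiv` over `ℚ`. -/
theorem exists_rat_spec {n : ℕ} (m : Vr n →₀ ℕ) (a : ℕ) (κ : XG n →₀ ℕ) :
    ∃ P : MvPolynomial (YV n) ℚ, ∀ y : YV n → ℂ,
      aeval y P = coeff κ (spec y ((⇑(dd n))^[a] (monomial m 1))) := by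
  obtain ⟨F, hF⟩ := exists_rat_dd m a
  have h : map (algebraMap ℚ ℂ) F = (⇑(dd n))^[a] (monomial m 1) := by
    refine MvPolynomial.funext fun v => ?_
    rw [← hF v, eval_map, aeval_def]
  rw [← h]
  exact coeff_spec_rat F κ

/-- [TD-8b] a coefficient of `b(x) x ^ μ g ^ μ'` is a coefficient of `b` or zero -/
theorem coeff_frm_mul {n d : ℕ} (μ κ : XG n →₀ ℕ) :
    (∃ m : Mon n d, ∀ c : Mon n d → ℂ,
      coeff κ (rename Sum.inl (frm c) * monomial μ (1 : ℂ) : MvPolynomial (XG n) ℂ) = c m) ∨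
    ∀ c : Mon n d → ℂ,
      coeff κ (rename Sum.inl (frm c) * monomial μ (1 : ℂ) : MvPolynomial (XG n) ℂ) = 0 := by
  classical
  have h1 : ∀ c : Mon n d → ℂ,
      coeff κ (rename Sum.inl (frm c) * monomial μ (1 : ℂ) : MvPolynomial (XG n) ℂ) =
        if μ ≤ κ then coeff (κ - μ) (rename Sum.inl (frm c) : MvPolynomial (XG n) ℂ) else 0 := by
    intro c
    rw [coeff_mul_monomial', mul_one]
  by_cases hμ : μ ≤ κ
  · by_cases hu : ∃ u : Fin (n + 1) →₀ ℕ, u.mapDomain Sum.inl = κ - μ
    · obtain ⟨u, hu⟩ := hu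
      have h2 : ∀ c : Mon n d → ℂ,
          coeff κ (rename Sum.inl (frm c) * monomial μ (1 : ℂ) : MvPolynomial (XG n) ℂ) =
            ∑ m : Mon n d, if m.1 = u then c m else 0 := by
        intro c
        rw [h1, if_pos hμ, ← hu, coeff_rename_mapDomain _ Sum.inl_injective]
        unfold frm
        rw [coeff_sum]
        exact Finset.sum_congr rfl fun m _ => coeff_monomial _ _ _
      by_cases hm : u ∈ Finset.finsuppAntidiag (Finset.univ : Finset (Fin (n + 1))) d
      · left
        refine ⟨⟨u, hm⟩, fun c => ?_⟩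
        rw [h2, Finset.sum_eq_single (⟨u, hm⟩ : Mon n d)]
        · rw [if_pos rfl]
        · intro m _ hne
          rw [if_neg fun h => hne (Subtype.ext h)]
        · intro h
          exact absurd (Finset.mem_univ _) h
      · right
        intro c
        rw [h2]
        refine Finset.sum_eq_zero fun m _ => ?_
        rw [if_neg]
        intro h
        exact hm (h ▸ m.2)
    · right
      intro c
      rw [h1, if_pos hμ]
      exact coeff_rename_eq_zero _ _ _ fun u hu' => absurd ⟨u, hu'⟩ hu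
  · right
    intro c
    rw [h1, if_neg hμ]

/-! weights -/

/-- all monomials of `P` have weight at most `N` -/
private def Wd {σ : Type} (w : σ → ℕ) (N : ℕ) (P : MvPolynomial σ ℂ) : Prop :=
  ∀ m ∈ P.support, Finsupp.weight w m ≤ N

private theorem wd_mul {σ : Type} {w : σ → ℕ} {N M : ℕ} {P Q : MvPolynomial σ ℂ}
    (hP : Wd w N P) (hQ : Wd w M Q) : Wd w (N + M) (P * Q) := by
  classical
  intro m hm
  obtain ⟨a, ha, b, hb, rfl⟩ := Finset.mem_add.1 (support_mul P Q hm)
  rw [map_add]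
  exact add_le_add (hP a ha) (hQ b hb)

private theorem wd_const {σ : Type} (w : σ → ℕ) (c : ℂ) : Wd w 0 (C c) := by
  classical
  intro m hm
  have h3 : m = 0 := by
    by_contra hne
    rw [mem_support_iff, coeff_C, if_neg (Ne.symm hne)] at hm
    exact hm rfl
  rw [h3, map_zero]

private theorem wd_sum {σ : Type} {w : σ → ℕ} {N : ℕ} {ρ : Type} (s : Finset ρ)
    (P : ρ → MvPolynomial σ ℂ) (hP : ∀ i ∈ s, Wd w N (P i)) : Wd w N (∑ i ∈ s, P i) := by
  classical
  intro m hm
  obtain ⟨i, hi, hm2⟩ := Finset.mem_biUnion.1 (support_sum hm)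
  exact hP i hi m hm2

private theorem wd_pow {σ : Type} {w : σ → ℕ} {N : ℕ} {P : MvPolynomial σ ℂ}
    (hP : Wd w N P) (k : ℕ) : Wd w (k * N) (P ^ k) := by
  induction k with
  | zero =>
    rw [pow_zero, zero_mul]
    exact wd_const w 1
  | succ k ih =>
    rw [pow_succ, Nat.succ_mul]
    exact wd_mul ih hP

private theorem wd_prod {σ : Type} {w : σ → ℕ} {ρ : Type} (s : Finset ρ) (N : ρ → ℕ)
    (P : ρ → MvPolynomial σ ℂ) (hP : ∀ i ∈ s, Wd w (N i) (P i)) :
    Wd w (∑ i ∈ s, N i) (∏ i ∈ s, P i) := by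
  classical
  induction s using Finset.induction_on with
  | empty =>
    rw [Finset.prod_empty, Finset.sum_empty]
    exact wd_const w 1
  | insert i s hi ih =>
    rw [Finset.prod_insert hi, Finset.sum_insert hi]
    exact wd_mul (hP i (Finset.mem_insert_self i s))
      (ih fun j hj => hP j (Finset.mem_insert_of_mem hj))

private theorem wd_var {σ : Type} (w : σ → ℕ) (v : σ) : Wd w (w v) (X v) := by
  intro m hm
  rw [support_X, Finset.mem_singleton] at hm
  rw [hm, Finsupp.weight_single, one_smul]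

private theorem wd_mono {σ : Type} {w : σ → ℕ} {N M : ℕ} {P : MvPolynomial σ ℂ}
    (h : Wd w N P) (hNM : N ≤ M) : Wd w M P := fun m hm => (h m hm).trans hNM

private theorem wd_smul {σ : Type} {w : σ → ℕ} {N : ℕ} {P : MvPolynomial σ ℂ} (c : ℂ)
    (h : Wd w N P) : Wd w N (c • P) := by
  rw [smul_eq_C_mul]
  have h1 := wd_mul (wd_const w c) h
  rw [zero_add] at h1
  exact h1

private theorem wd_monomial {σ : Type} (w : σ → ℕ) (m : σ →₀ ℕ) (c : ℂ) :
    Wd w (Finsupp.weight w m) (monomial m c) := by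
  classical
  intro m' hm'
  rw [mem_support_iff, coeff_monomial] at hm'
  by_cases h : m = m'
  · rw [h]
  · rw [if_neg h] at hm'
    exact absurd rfl hm'

private theorem wd_zero {σ : Type} (w : σ → ℕ) (N : ℕ) : Wd w N (0 : MvPolynomial σ ℂ) := by
  intro m hm
  rw [support_zero] at hm
  exact absurd hm (Finset.notMem_empty m)

/-- the derivation raises the weight by at most `c` -/
private theorem wd_dd {n : ℕ} (w : Vr n → ℕ) (c : ℕ)
    (h1 : ∀ v : YV n, w (Sum.inl (v.1, v.2 + 1)) ≤ w (Sum.inl v) + c)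
    (h2 : ∀ (l : Fin (n + 1)) (j : Fin n),
      w (Sum.inl (j, 0)) + w (Sum.inr (Sum.inr (j, l))) ≤ w (Sum.inr (Sum.inl l)) + c)
    {N : ℕ} {G : MvPolynomial (Vr n) ℂ} (hG : Wd w N G) : Wd w (N + c) (dd n G) := by
  classical
  have hv : ∀ i, Wd w (w i + c) (dvar n i) := by
    intro i
    rcases i with v | l | p
    · exact wd_mono (wd_var w (Sum.inl (v.1, v.2 + 1))) (h1 v)
    · show Wd w (w (Sum.inr (Sum.inl l)) + c)
        (∑ j, X (Sum.inl (j, 0)) * X (Sum.inr (Sum.inr (j, l))))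
      exact wd_sum _ _ fun j _ => wd_mono (wd_mul (wd_var w (Sum.inl (j, 0)))
        (wd_var w (Sum.inr (Sum.inr (j, l))))) (h2 l j)
    · exact wd_zero w _
  rw [← support_sum_monomial_coeff G, map_sum]
  refine wd_sum _ _ fun m hm => ?_
  unfold dd
  rw [mkDerivation_monomial, Finsupp.sum]
  refine wd_smul _ (wd_sum _ _ fun i hi => ?_)
  rw [smul_eq_mul]
  have hle : Finsupp.single i 1 ≤ m :=
    Finsupp.single_le_iff.2 (Nat.one_le_iff_ne_zero.2 (Finsupp.mem_support_iff.1 hi))
  have hw : Finsupp.weight w (m - Finsupp.single i 1) + w i = Finsupp.weight w m := by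
    have h3 : w i = Finsupp.weight w (Finsupp.single i 1) := by
      rw [Finsupp.weight_single, one_smul]
    rw [h3, ← map_add, tsub_add_cancel_of_le hle]
  refine wd_mono (wd_mul (wd_monomial w (m - Finsupp.single i 1) _) (hv i)) ?_
  have h4 := hG m hm
  omega

private theorem wd_dd_iter {n : ℕ} (w : Vr n → ℕ) (c : ℕ)
    (h1 : ∀ v : YV n, w (Sum.inl (v.1, v.2 + 1)) ≤ w (Sum.inl v) + c)
    (h2 : ∀ (l : Fin (n + 1)) (j : Fin n),
      w (Sum.inl (j, 0)) + w (Sum.inr (Sum.inr (j, l))) ≤ w (Sum.inr (Sum.inl l)) + c)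
    {N : ℕ} {G : MvPolynomial (Vr n) ℂ} (hG : Wd w N G) (a : ℕ) :
    Wd w (N + a * c) ((⇑(dd n))^[a] G) := by
  induction a with
  | zero =>
    rw [zero_mul, add_zero]
    exact hG
  | succ a ih =>
    rw [Function.iterate_succ_apply', Nat.succ_mul, ← add_assoc]
    exact wd_dd w c h1 h2 ih

/-- the specialisation of the jets does not raise the weight -/
private theorem wd_spec {n : ℕ} (w : XG n → ℕ) (y : YV n → ℂ) {N : ℕ} {G : MvPolynomial (Vr n) ℂ}
    (hG : Wd (Sum.elim (fun _ => 0) w) N G) : Wd w N (spec y G) := by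
  classical
  set f : Vr n → MvPolynomial (XG n) ℂ := Sum.elim (fun v => C (y v)) X with hf
  have hvar : ∀ v, Wd w ((Sum.elim (fun _ => 0) w : Vr n → ℕ) v) (f v) := by
    intro v
    rcases v with v | q
    · exact wd_const w (y v)
    · exact wd_var w q
  have h1 : spec y G = ∑ d ∈ G.support, algebraMap ℂ (MvPolynomial (XG n) ℂ) (G.coeff d) *
      ∏ i ∈ d.support, f i ^ d i := by
    unfold spec
    rw [aeval_def, eval₂_eq]
  rw [h1]
  refine wd_sum _ _ fun d hd => ?_
  have h2 := wd_mul (wd_const w (G.coeff d))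
    (wd_prod d.support (fun i => d i * (Sum.elim (fun _ => 0) w : Vr n → ℕ) i)
      (fun i => f i ^ d i) fun i _ => wd_pow (hvar i) (d i))
  refine wd_mono h2 ?_
  rw [zero_add]
  refine le_trans (le_of_eq ?_) (hG d hd)
  rw [Finsupp.weight_apply, Finsupp.sum]
  rfl

private theorem wx_vr {n : ℕ} (m : Vr n →₀ ℕ) :
    Finsupp.weight (Sum.elim (fun _ : YV n => 0) (Sum.elim (fun _ => 1) (fun _ => 0))) m =
      ∑ l, m (Sum.inr (Sum.inl l)) := by
  classical
  induction m using Finsupp.induction_linear with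
  | zero => simp
  | add a b ha hb =>
    rw [map_add, ha, hb, ← Finset.sum_add_distrib]
    rfl
  | single i c =>
    rw [Finsupp.weight_single]
    rcases i with v | l | p
    · simp
    · simp only [Finsupp.single_apply, Sum.inr.injEq, Sum.inl.injEq, Sum.elim_inr, Sum.elim_inl]
      rw [Finset.sum_ite_eq]
      simp
    · simp

private theorem wg_vr {n : ℕ} (m : Vr n →₀ ℕ) :
    Finsupp.weight (Sum.elim (fun _ : YV n => 0) (Sum.elim (fun _ => 0) (fun _ => 1))) m =
      ∑ p, m (Sum.inr (Sum.inr p)) := by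
  classical
  induction m using Finsupp.induction_linear with
  | zero => simp
  | add a b ha hb =>
    rw [map_add, ha, hb, ← Finset.sum_add_distrib]
    rfl
  | single i c =>
    rw [Finsupp.weight_single]
    rcases i with v | l | p
    · simp
    · simp
    · simp only [Finsupp.single_apply, Sum.inr.injEq, Sum.elim_inr]
      rw [Finset.sum_ite_eq]
      simp

private theorem wx_xg {n : ℕ} (κ : XG n →₀ ℕ) :
    Finsupp.weight (Sum.elim (fun _ => 1) (fun _ => 0) : XG n → ℕ) κ = ∑ l, κ (Sum.inl l) := by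
  rw [Finsupp.weight_apply, Finsupp.sum_fintype, Fintype.sum_sum_type]
  · simp
  · intro i
    exact zero_smul ℕ _

private theorem wg_xg {n : ℕ} (κ : XG n →₀ ℕ) :
    Finsupp.weight (Sum.elim (fun _ => 0) (fun _ => 1) : XG n → ℕ) κ = ∑ p, κ (Sum.inr p) := by
  rw [Finsupp.weight_apply, Finsupp.sum_fintype, Fintype.sum_sum_type]
  · simp
  · intro i
    exact zero_smul ℕ _

/-- [TD-8c] the degrees of the derivatives -/
theorem spec_support {n ω A B : ℕ} {G : MvPolynomial (Vr n) ℂ} (hG : Bd3 ω A B G) (a : ℕ)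
    (y : YV n → ℂ) : ∀ κ ∈ (spec y ((⇑(dd n))^[a] G)).support,
      ∑ l, κ (Sum.inl l) ≤ A ∧ ∑ p, κ (Sum.inr p) ≤ B + a := by
  intro κ hκ
  constructor
  · have h1 : Wd (Sum.elim (fun _ : YV n => 0) (Sum.elim (fun _ => 1) (fun _ => 0))) A G := by
      intro m hm
      rw [wx_vr]
      exact (hG m hm).2.1
    have h2 := wd_dd_iter _ 0 (fun v => le_rfl) (fun l j => by simp) h1 a
    have h3 := wd_spec _ y h2 κ hκ
    rw [wx_xg, mul_zero, add_zero] at h3
    exact h3
  · have h1 : Wd (Sum.elim (fun _ : YV n => 0) (Sum.elim (fun _ => 0) (fun _ => 1))) B G := by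
      intro m hm
      rw [wg_vr]
      exact (hG m hm).2.2
    have h2 := wd_dd_iter _ 1 (fun v => Nat.zero_le _) (fun l j => by simp) h1 a
    have h3 := wd_spec _ y h2 κ hκ
    rw [wg_xg, mul_one] at h3
    exact h3

end Pool.Agent.TD
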