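import Pool.Agent.Lib_MP_b9fedf_td.AlgCore4
import Pool.Agent.Lib_MP_b9fedf_td.Exist4
import Pool.Agent.Lib_MP_b9fedf_td.Nrm
import Pool.Agent.Lib_MP_b9fedf_td.PolyF
import Pool.Agent.Lib_MP_b9fedf_td.Dual4
import Pool.Agent.Lib_MP_b9fedf_tt.AlgOpen

/-! The algebraic part for general families of forms. -/

set_option autoImplicit false

namespace Pool.Agent.TD
open MvPolynomial Module Pool.Agent.TT Pool.Agent.GGL Pool.Agent.GH

/-- monomials in `x`, `g` of bounded degrees -/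
def KX (n A B : ℕ) : Set (XG n →₀ ℕ) := {κ | ∑ l, κ (Sum.inl l) ≤ A ∧ ∑ p, κ (Sum.inr p) ≤ B}

/-- the multipliers -/
def MU (n d A B : ℕ) : Set (XG n →₀ ℕ) :=
  {κ | ∑ l, κ (Sum.inl l) + d ≤ A ∧ ∑ p, κ (Sum.inr p) ≤ B}

theorem kx_finite (n A B : ℕ) : (KX n A B).Finite := by
  classical
  refine Set.Finite.subset (Set.Finite.preimage
    (DFunLike.coe_injective (F := XG n →₀ ℕ)).injOn
    (Set.finite_Icc (0 : XG n → ℕ) (Sum.elim (fun _ => A) (fun _ => B)))) ?_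
  rintro κ ⟨h1, h2⟩
  refine ⟨fun _ => Nat.zero_le _, ?_⟩
  rintro (l | p)
  · exact (Finset.single_le_sum (f := fun l => κ (Sum.inl l)) (fun _ _ => Nat.zero_le _)
      (Finset.mem_univ l)).trans h1
  · exact (Finset.single_le_sum (f := fun p => κ (Sum.inr p)) (fun _ _ => Nat.zero_le _)
      (Finset.mem_univ p)).trans h2

theorem mu_finite (n d A B : ℕ) : (MU n d A B).Finite :=
  (kx_finite n A B).subset fun _ h => ⟨(Nat.le_add_right _ _).trans h.1, h.2⟩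

/-- elements of `Lsp` are combinations of the generators -/
theorem lsp_repr {n d A B : ℕ} [Fintype (MU n d A B)] {b b' : MvPolynomial (Fin (n + 1)) ℂ}
    {F : MvPolynomial (XG n) ℂ} (hF : F ∈ Lsp d A B b b') : ∃ c c' : MU n d A B → ℂ,
      F = ∑ μ, (c μ • (rename Sum.inl b * monomial μ.1 1) +
        c' μ • (rename Sum.inl b' * monomial μ.1 1)) := by
  classical
  have h1 : Lsp d A B b b' ≤ Submodule.span ℂ (Set.range (Sum.elim
      (fun μ : MU n d A B => (rename Sum.inl b * monomial μ.1 1 : MvPolynomial (XG n) ℂ))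
      (fun μ : MU n d A B => rename Sum.inl b' * monomial μ.1 1))) := by
    refine Submodule.span_mono ?_
    rintro F ⟨m, hm1, hm2, rfl | rfl⟩
    · exact ⟨Sum.inl ⟨m, hm1, hm2⟩, rfl⟩
    · exact ⟨Sum.inr ⟨m, hm1, hm2⟩, rfl⟩
  obtain ⟨c, hc⟩ := (Submodule.mem_span_range_iff_exists_fun ℂ).1 (h1 hF)
  refine ⟨fun μ => c (Sum.inl μ), fun μ => c (Sum.inr μ), ?_⟩
  rw [← hc, Fintype.sum_sum_type, Finset.sum_add_distrib]
  rfl

/-- combinations of the generators are in `Lsp` -/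
theorem lsp_of_repr {n d A B : ℕ} [Fintype (MU n d A B)] {b b' : MvPolynomial (Fin (n + 1)) ℂ}
    (c c' : MU n d A B → ℂ) : ∑ μ, (c μ • (rename Sum.inl b * monomial μ.1 1) +
        c' μ • (rename Sum.inl b' * monomial μ.1 1)) ∈ Lsp d A B b b' := by
  refine Submodule.sum_mem _ fun μ _ => Submodule.add_mem _ (Submodule.smul_mem _ _ ?_)
    (Submodule.smul_mem _ _ ?_)
  · exact Submodule.subset_span ⟨μ.1, μ.2.1, μ.2.2, Or.inl rfl⟩
  · exact Submodule.subset_span ⟨μ.1, μ.2.1, μ.2.2, Or.inr rfl⟩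

/-- the support of a generator -/
theorem gen_support {n d A B : ℕ} {b : MvPolynomial (Fin (n + 1)) ℂ} (hb : b.IsHomogeneous d)
    {μ : XG n →₀ ℕ} (hμ : μ ∈ MU n d A B) :
    ∀ κ ∈ (rename Sum.inl b * monomial μ 1 : MvPolynomial (XG n) ℂ).support, κ ∈ KX n A B := by
  classical
  intro κ hκ
  rw [MvPolynomial.mem_support_iff, coeff_mul_monomial', mul_one] at hκ
  have hle : μ ≤ κ := by
    by_contra h
    rw [if_neg h] at hκ
    exact hκ rfl
  rw [if_pos hle] at hκ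
  obtain ⟨ν, hν, hν0⟩ := coeff_rename_ne_zero _ _ _ hκ
  have hκ' : κ = Finsupp.mapDomain Sum.inl ν + μ := by
    rw [hν, tsub_add_cancel_of_le hle]
  have hdeg : ∑ l, ν l = d := by
    have h1 := hb hν0
    rw [Finsupp.weight_apply, Finsupp.sum_fintype _ _ (by simp)] at h1
    simpa using h1
  have h1 : ∀ l, κ (Sum.inl l) = ν l + μ (Sum.inl l) := by
    intro l
    rw [hκ', Finsupp.add_apply, Finsupp.mapDomain_apply Sum.inl_injective]
  have h2 : ∀ p, κ (Sum.inr p) = μ (Sum.inr p) := by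
    intro p
    rw [hκ', Finsupp.add_apply, Finsupp.mapDomain_of_notMem_range _ _ (by simp), zero_add]
  refine ⟨?_, ?_⟩
  · simp only [h1]
    rw [Finset.sum_add_distrib, hdeg, add_comm]
    exact hμ.1
  · simp only [h2]
    exact hμ.2

/-- a functional on polynomials with bounded degrees -/
theorem fun_eq {n A B : ℕ} [Fintype (KX n A B)] (ξ : MvPolynomial (XG n) ℂ →ₗ[ℂ] ℂ)
    (F : MvPolynomial (XG n) ℂ) (hF : ∀ κ ∈ F.support, κ ∈ KX n A B) :
    ξ F = ∑ κ : KX n A B, ξ (monomial κ.1 1) * coeff κ.1 F := by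
  classical
  have h1 : F = ∑ κ : KX n A B, coeff κ.1 F • monomial κ.1 1 := by
    ext d
    rw [coeff_sum]
    by_cases hd : d ∈ KX n A B
    · rw [Finset.sum_eq_single (⟨d, hd⟩ : KX n A B)]
      · simp
      · intro m _ hm
        rw [coeff_smul, coeff_monomial, if_neg, smul_zero]
        intro h
        exact hm (Subtype.ext h)
      · intro h
        exact absurd (Finset.mem_univ _) h
    · rw [Finset.sum_eq_zero]
      · by_contra h
        exact hd (hF d (MvPolynomial.mem_support_iff.2 h))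
      · intro m _
        rw [coeff_smul, coeff_monomial, if_neg, smul_zero]
        intro h
        exact hd (h ▸ m.2)
  conv_lhs => rw [h1]
  rw [map_sum]
  refine Finset.sum_congr rfl fun κ _ => ?_
  rw [map_smul, smul_eq_mul, mul_comm]

/-- indices of the unknowns -/
inductive Un4 (n Q N W c : ℕ) (M U V : Type) : Type
  | yp (t : Fin N) (j : Fin n) (i : Fin W)
  | yz (j : Fin n) (i : Fin W)
  | fz (l : Fin (n + 1))
  | co (R : Finset (Fin Q)) (m : M)
  | xr (R : Finset (Fin Q)) (l : Fin (n + 1))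
  | gr (R : Finset (Fin Q)) (p : GV n)
  | ca (R : Finset (Fin Q)) (δ : Fin c × Fin Q × Fin Q × Fin N) (μ : U)
  | cb (R : Finset (Fin Q)) (δ : Fin c × Fin Q × Fin Q × Fin N) (μ : U)
  | xi (R : Finset (Fin Q)) (δ : Fin c × Fin Q × Fin Q × Fin N) (κ : V)

/-- indices of the equations -/
inductive Eqn4 (n Q N c : ℕ) (M U : Type) : Type
  | one : Eqn4 n Q N c M U
  | van (R : Finset (Fin Q)) (δ : Fin c × Fin Q × Fin Q × Fin N) (κ : XG n →₀ ℕ) : Eqn4 n Q N c M U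
  | nv (R : Finset (Fin Q)) : Eqn4 n Q N c M U
  | cmb (R : Finset (Fin Q)) (m : M) : Eqn4 n Q N c M U
  | ka (R : Finset (Fin Q)) (δ : Fin c × Fin Q × Fin Q × Fin N) (μ : U) : Eqn4 n Q N c M U
  | kb (R : Finset (Fin Q)) (δ : Fin c × Fin Q × Fin Q × Fin N) (μ : U) : Eqn4 n Q N c M U

section
variable {n d Q N W c : ℕ} {M U V : Type}

instance [Finite M] [Finite U] [Finite V] : Finite (Un4 n Q N W c M U V) := by
  classical
  let F : Un4 n Q N W c M U V → (((Fin N × Fin n × Fin W) ⊕ (Fin n × Fin W)) ⊕ (Fin (n + 1) ⊕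
      ((Finset (Fin Q) × M) ⊕ (Finset (Fin Q) × Fin (n + 1))))) ⊕ ((Finset (Fin Q) × GV n) ⊕
      ((Finset (Fin Q) × (Fin c × Fin Q × Fin Q × Fin N) × U) ⊕
      ((Finset (Fin Q) × (Fin c × Fin Q × Fin Q × Fin N) × U) ⊕
        (Finset (Fin Q) × (Fin c × Fin Q × Fin Q × Fin N) × V)))) := fun u => match u with
    | .yp t j i => Sum.inl (Sum.inl (Sum.inl (t, j, i)))
    | .yz j i => Sum.inl (Sum.inl (Sum.inr (j, i)))
    | .fz l => Sum.inl (Sum.inr (Sum.inl l))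
    | .co R m => Sum.inl (Sum.inr (Sum.inr (Sum.inl (R, m))))
    | .xr R l => Sum.inl (Sum.inr (Sum.inr (Sum.inr (R, l))))
    | .gr R p => Sum.inr (Sum.inl (R, p))
    | .ca R δ μ => Sum.inr (Sum.inr (Sum.inl (R, δ, μ)))
    | .cb R δ μ => Sum.inr (Sum.inr (Sum.inr (Sum.inl (R, δ, μ))))
    | .xi R δ κ => Sum.inr (Sum.inr (Sum.inr (Sum.inr (R, δ, κ))))
  refine Finite.of_injective F ?_
  intro u v huv
  cases u <;> cases v <;> simp_all [F]

/-- the jets of order less than `W` at the points -/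
def ypt4 (w : Un4 n Q N W c M U V → ℂ) (t : Fin N) : YV n → ℂ := fun v =>
  if h : v.2 < W then w (.yp t v.1 ⟨v.2, h⟩) else 0

/-- the jets of order less than `W` at the base point -/
def yzt4 (w : Un4 n Q N W c M U V → ℂ) : YV n → ℂ := fun v =>
  if h : v.2 < W then w (.yz v.1 ⟨v.2, h⟩) else 0

/-- the coefficients of the derivatives of a monomial -/
noncomputable def cf (y : Fin N → YV n → ℂ) (δ : Fin c × Fin Q × Fin Q × Fin N)
    (m : Vr n →₀ ℕ) (κ : XG n →₀ ℕ) : ℂ :=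
  coeff κ (spec (y δ.2.2.2) ((⇑(dd n))^[δ.1] (monomial m 1)))

/-- the coefficients of the generators -/
noncomputable def cg (a : Fin Q × Mon n d → ℂ) (i : Fin Q) (μ κ : XG n →₀ ℕ) : ℂ :=
  coeff κ (rename Sum.inl (frm fun m => a (i, m)) * monomial μ (1 : ℂ) : MvPolynomial (XG n) ℂ)

open scoped Classical in
/-- the functions of the equations -/
noncomputable def fn4 [Fintype M] [Fintype U] [Fintype V] (N1 : ℕ) (em : M → (Vr n →₀ ℕ))
    (eu : U → (XG n →₀ ℕ)) (ev' : V → (XG n →₀ ℕ)) : Eqn4 n Q N c M U →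
    (Fin Q × Mon n d → ℂ) → (Un4 n Q N W c M U V → ℂ) → ℂ
  | .one => fun _ w => w (.fz 0) - 1
  | .van R δ κ => fun a w => if Vd R δ then ∑ m, w (.co R m) * cf (ypt4 w) δ (em m) κ -
      ∑ μ, (w (.ca R δ μ) * cg a δ.2.1 (eu μ) κ + w (.cb R δ μ) * cg a δ.2.2.1 (eu μ) κ) else 0
  | .nv R => fun _ w => ∑ m, w (.co R m) * eval (ev (yzt4 w) (fun l => w (.xr R l))
      (fun p => w (.gr R p))) (monomial (em m) 1) - 1
  | .cmb R m => fun _ w => if R.card ≤ N1 then eval (ev (yzt4 w) (fun l => w (.fz l)) (one n))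
      (monomial (em m) 1) - ∑ δ, (if Vd R δ then ∑ κ, w (.xi R δ κ) *
        cf (ypt4 w) δ (em m) (ev' κ) else 0) else 0
  | .ka R δ μ => fun a w => if Vd R δ then ∑ κ, w (.xi R δ κ) * cg a δ.2.1 (eu μ) (ev' κ) else 0
  | .kb R δ μ => fun a w => if Vd R δ then ∑ κ, w (.xi R δ κ) * cg a δ.2.2.1 (eu μ) (ev' κ) else 0

/-! The functions are polynomial. -/

theorem pf_zero {E Y : Type} : PF (fun (_ : E → ℂ) (_ : Y → ℂ) => (0 : ℂ)) := by
  have h1 := PF.const (E := E) (W := Y) 0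
  simpa using h1

theorem pf_one4 {E Y : Type} : PF (fun (_ : E → ℂ) (_ : Y → ℂ) => (1 : ℂ)) := by
  have h1 := PF.const (E := E) (W := Y) 1
  simpa using h1

theorem pf_ypt4 {E : Type} (t : Fin N) (v : YV n) :
    PF (fun (_ : E → ℂ) (w : Un4 n Q N W c M U V → ℂ) => ypt4 w t v) := by
  by_cases h : v.2 < W
  · simp only [ypt4, h, dif_pos]
    exact PF.ofW _
  · simp only [ypt4, h, dif_neg, not_false_eq_true]
    exact pf_zero

theorem pf_yzt4 {E : Type} (v : YV n) :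
    PF (fun (_ : E → ℂ) (w : Un4 n Q N W c M U V → ℂ) => yzt4 w v) := by
  by_cases h : v.2 < W
  · simp only [yzt4, h, dif_pos]
    exact PF.ofW _
  · simp only [yzt4, h, dif_neg, not_false_eq_true]
    exact pf_zero

theorem pf_cf {E : Type} (δ : Fin c × Fin Q × Fin Q × Fin N) (m : Vr n →₀ ℕ) (κ : XG n →₀ ℕ) :
    PF (fun (_ : E → ℂ) (w : Un4 n Q N W c M U V → ℂ) => cf (ypt4 w) δ m κ) := by
  obtain ⟨P, hP⟩ := exists_rat_spec m δ.1 κ
  simp only [cf, ← hP]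
  exact PF.aeval P fun v => pf_ypt4 _ v

theorem pf_cg {Y : Type} (i : Fin Q) (μ κ : XG n →₀ ℕ) :
    PF (fun (a : Fin Q × Mon n d → ℂ) (_ : Y → ℂ) => cg a i μ κ) := by
  rcases coeff_frm_mul (n := n) (d := d) μ κ with ⟨m, hm⟩ | h
  · simp only [cg, hm]
    exact PF.ofE _
  · simp only [cg, h]
    exact pf_zero

theorem pf_fn4 [Fintype M] [Fintype U] [Fintype V] (N1 : ℕ) (em : M → (Vr n →₀ ℕ))
    (eu : U → (XG n →₀ ℕ)) (ev' : V → (XG n →₀ ℕ)) (e : Eqn4 n Q N c M U) :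
    PF (fn4 (d := d) (W := W) (V := V) N1 em eu ev' e) := by
  classical
  cases e with
  | one => exact PF.sub (PF.ofW _) pf_one4
  | van R δ κ =>
    by_cases h : Vd R δ
    · simp only [fn4, h, if_pos]
      exact PF.sub (PF.sum _ fun m _ => PF.mul (PF.ofW _) (pf_cf _ _ _))
        (PF.sum _ fun μ _ => PF.add (PF.mul (PF.ofW _) (pf_cg _ _ _))
          (PF.mul (PF.ofW _) (pf_cg _ _ _)))
    · simp only [fn4, h, if_neg, not_false_eq_true]
      exact pf_zero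
  | nv R =>
    exact PF.sub (PF.sum _ fun m _ => PF.mul (PF.ofW _) (pf_row (b := 0) (fun v => pf_yzt4 v)
      (fun l => PF.ofW _) (fun p => PF.ofW _) _)) pf_one4
  | cmb R m =>
    by_cases h : R.card ≤ N1
    · simp only [fn4, h, if_pos]
      refine PF.sub (pf_row (b := 0) (fun v => pf_yzt4 v) (fun l => PF.ofW _) (fun p => ?_) _)
        (PF.sum _ fun δ _ => ?_)
      · by_cases hp : p.2 = p.1.succ
        · simp only [TT.one, hp, if_pos]
          exact pf_one4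
        · simp only [TT.one, hp, if_neg, not_false_eq_true]
          exact pf_zero
      · by_cases hδ : Vd R δ
        · simp only [hδ, if_pos]
          exact PF.sum _ fun κ _ => PF.mul (PF.ofW _) (pf_cf _ _ _)
        · simp only [hδ, if_neg, not_false_eq_true]
          exact pf_zero
    · simp only [fn4, h, if_neg, not_false_eq_true]
      exact pf_zero
  | ka R δ μ =>
    by_cases hδ : Vd R δ
    · simp only [fn4, hδ, if_pos]
      exact PF.sum _ fun κ _ => PF.mul (PF.ofW _) (pf_cg _ _ _)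
    · simp only [fn4, hδ, if_neg, not_false_eq_true]
      exact pf_zero
  | kb R δ μ =>
    by_cases hδ : Vd R δ
    · simp only [fn4, hδ, if_pos]
      exact PF.sum _ fun κ _ => PF.mul (PF.ofW _) (pf_cg _ _ _)
    · simp only [fn4, hδ, if_neg, not_false_eq_true]
      exact pf_zero

end

/-- the derivatives are linear -/
theorem spec_sum {n ω A B : ℕ} [Fintype (MB n ω A B)] (G : MvPolynomial (Vr n) ℂ)
    (hG : Bd3 ω A B G) (b : ℕ) (y : YV n → ℂ) : spec y ((⇑(dd n))^[b] G) =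
      ∑ m : MB n ω A B, coeff m.1 G • spec y ((⇑(dd n))^[b] (monomial m.1 1)) := by
  have h1 : ∀ P, (⇑(dd n))^[b] P = (((dd n : Derivation ℂ _ _) :
      MvPolynomial (Vr n) ℂ →ₗ[ℂ] MvPolynomial (Vr n) ℂ) ^ b) P := by
    intro P
    rw [Module.End.pow_apply]
    rfl
  conv_lhs => rw [poly_sum G hG]
  rw [h1, map_sum, map_sum]
  refine Finset.sum_congr rfl fun m _ => ?_
  rw [map_smul, map_smul, h1]

/-- for algebraically independent coefficients the equations have no solution -/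
theorem no_sol4 (n K ω0 : ℕ) : ∃ N1 : ℕ, ∀ (d Q : ℕ), ∀ ω ≤ ω0, ∀ (A B B' N W : ℕ)
    [Fintype (MB n ω A B)] [Fintype (MU n d A B')] [Fintype (KX n A B')]
    (a : Fin Q × Mon n d → ℂ), AlgebraicIndependent ℚ a →
    ∀ w : Un4 n Q N W (K ^ 2) (MB n ω A B) (MU n d A B') (KX n A B') → ℂ,
      ∃ e, fn4 N1 (fun m : MB n ω A B => m.1) (fun μ : MU n d A B' => μ.1)
        (fun κ : KX n A B' => κ.1) e a w ≠ 0 := by
  classical
  obtain ⟨N1, hN1⟩ := alg_core4 n K ω0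
  refine ⟨N1, fun d Q ω hω A B B' N W _ _ _ a ha w => ?_⟩
  by_contra hcon
  push Not at hcon
  have hone := hcon .one
  have hvan := fun R δ κ => hcon (.van R δ κ)
  have hnv := fun R => hcon (.nv R)
  have hcmb := fun R m => hcon (.cmb R m)
  have hka := fun R δ μ => hcon (.ka R δ μ)
  have hkb := fun R δ μ => hcon (.kb R δ μ)
  simp only [fn4] at hone hvan hnv hcmb hka hkb
  -- the polynomials
  choose G hGB hGc using fun R : Finset (Fin Q) => exists_poly (n := n) (ω := ω) (A := A)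
    (B := B) (fun m => w (.co R m))
  have hVn : ∀ R : Finset (Fin Q), Vn d A B' (K ^ 2) (ypt4 w)
      (fun i : {i // i ∉ R} => frm (fun m => a (i, m))) (G R) := by
    intro R b hb i j hij t
    have hV : Vd R ((⟨b, hb⟩, (i : Fin Q), (j : Fin Q), t) :
        Fin (K ^ 2) × Fin Q × Fin Q × Fin N) := ⟨fun h => hij (Subtype.ext h), i.2, j.2⟩
    have h1 : spec (ypt4 w t) ((⇑(dd n))^[b] (G R)) = ∑ μ : MU n d A B',
        (w (.ca R (⟨b, hb⟩, (i : Fin Q), (j : Fin Q), t) μ) •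
            (rename Sum.inl (frm fun m => a (i, m)) * monomial μ.1 1) +
          w (.cb R (⟨b, hb⟩, (i : Fin Q), (j : Fin Q), t) μ) •
            (rename Sum.inl (frm fun m => a (j, m)) * monomial μ.1 1)) := by
      ext κ
      have h2 := hvan R (⟨b, hb⟩, i, j, t) κ
      rw [if_pos hV, sub_eq_zero] at h2
      rw [spec_sum (G R) (hGB R), coeff_sum, coeff_sum]
      simp only [coeff_smul, coeff_add, smul_eq_mul, hGc R]
      exact h2
    rw [h1]
    exact lsp_of_repr _ _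
  obtain ⟨R, hR, G', h1, h2, h3⟩ := hN1 d Q (fun i m => a (i, m)) ha (ypt4 w) (yzt4 w)
    (fun l => w (.fz l)) (sub_eq_zero.1 hone) ω hω A B B' (fun R => ⟨G R, hGB R, hVn R,
      fun l => w (.xr R l), fun p => w (.gr R p), by
      have h4 := sub_eq_zero.1 (hnv R)
      have h5 := eval_sum3 (G R) (hGB R) 0 (ev (yzt4 w) (fun l => w (.xr R l))
        (fun p => w (.gr R p)))
      simp only [Function.iterate_zero, id_eq] at h5
      rw [h5]
      simp only [hGc]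
      rw [h4]
      exact one_ne_zero⟩)
  apply h3
  have h5 := eval_sum3 G' h1 0 (ev (yzt4 w) (fun l => w (.fz l)) (TT.one n))
  simp only [Function.iterate_zero, id_eq] at h5
  rw [h5]
  have h6 : ∀ m : MB n ω A B, coeff m.1 G' * eval (ev (yzt4 w) (fun l => w (.fz l))
      (TT.one n)) (monomial m.1 1) = ∑ δ, if Vd R δ then ∑ κ, w (.xi R δ κ) * (coeff m.1 G' *
        cf (ypt4 w) δ m.1 κ.1) else 0 := by
    intro m
    have h7 := hcmb R m
    rw [if_pos hR] at h7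
    rw [sub_eq_zero.1 h7, Finset.mul_sum]
    refine Finset.sum_congr rfl fun δ _ => ?_
    by_cases hδ : Vd R δ
    · rw [if_pos hδ, if_pos hδ, Finset.mul_sum]
      refine Finset.sum_congr rfl fun κ _ => ?_
      ring
    · rw [if_neg hδ, if_neg hδ, mul_zero]
  simp only [h6]
  rw [Finset.sum_comm]
  refine Finset.sum_eq_zero fun δ _ => ?_
  by_cases hδ : Vd R δ
  swap
  · simp only [if_neg hδ, Finset.sum_const_zero]
  simp only [if_pos hδ]
  rw [Finset.sum_comm]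
  -- the functional
  let ξ : MvPolynomial (XG n) ℂ →ₗ[ℂ] ℂ :=
    ∑ κ : KX n A B', w (.xi R δ κ) • MvPolynomial.lcoeff ℂ κ.1
  have hξ : ∀ F, ξ F = ∑ κ : KX n A B', w (.xi R δ κ) * coeff κ.1 F := by
    intro F
    simp only [ξ, LinearMap.sum_apply, LinearMap.smul_apply, smul_eq_mul]
    rfl
  have h8 : ∀ F ∈ Lsp d A B' (frm fun m => a (δ.2.1, m)) (frm fun m => a (δ.2.2.1, m)),
      ξ F = 0 := by
    intro F hF
    obtain ⟨c, c', rfl⟩ := lsp_repr hF
    rw [map_sum]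
    refine Finset.sum_eq_zero fun μ _ => ?_
    rw [map_add, map_smul, map_smul]
    have e1 := hka R δ μ
    have e2 := hkb R δ μ
    rw [if_pos hδ] at e1 e2
    have e3 : ξ (rename Sum.inl (frm fun m => a (δ.2.1, m)) * monomial μ.1 1) = 0 := by
      rw [hξ]
      exact e1
    have e4 : ξ (rename Sum.inl (frm fun m => a (δ.2.2.1, m)) * monomial μ.1 1) = 0 := by
      rw [hξ]
      exact e2
    rw [e3, e4, smul_zero, smul_zero, add_zero]
  have h9 := h8 _ (h2 δ.1 δ.1.2 ⟨δ.2.1, hδ.2.1⟩ ⟨δ.2.2.1, hδ.2.2⟩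
    (fun h => hδ.1 (congrArg Subtype.val h)) δ.2.2.2)
  rw [hξ, spec_sum G' h1] at h9
  rw [← h9]
  refine Finset.sum_congr rfl fun κ _ => ?_
  rw [coeff_sum, Finset.mul_sum]
  refine Finset.sum_congr rfl fun m _ => ?_
  rw [coeff_smul, smul_eq_mul]
  rfl

/-- finitely many polynomials in the jets have a common point where they do not vanish -/
private theorem irr_fin {n : ℕ} {Ω I : Type} [Nonempty Ω] {y : Ω → YV n → ℂ} (hy : Irr y)
    (P : I → MvPolynomial (YV n) ℂ) (hP : ∀ i, ∃ z, eval (y z) (P i) ≠ 0) (s : Finset I) :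
    ∃ z, ∀ i ∈ s, eval (y z) (P i) ≠ 0 := by
  classical
  have h1 : ∃ z, eval (y z) (∏ i ∈ s, P i) ≠ 0 := by
    induction s using Finset.induction_on with
    | empty =>
      obtain ⟨z⟩ := ‹Nonempty Ω›
      exact ⟨z, by simp⟩
    | insert i s hi ih =>
      obtain ⟨z, h2, h3⟩ := hy (P i) (∏ i ∈ s, P i) (hP i) ih
      refine ⟨z, ?_⟩
      rw [Finset.prod_insert hi, map_mul]
      exact mul_ne_zero h2 h3
  obtain ⟨z, hz⟩ := h1
  refine ⟨z, ?_⟩
  rw [map_prod, Finset.prod_ne_zero_iff] at hz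
  exact hz

/-- evaluation of `x` and `g` -/
private theorem eval_part {n : ℕ} (G : MvPolynomial (Vr n) ℂ) (y : YV n → ℂ)
    (x : Fin (n + 1) → ℂ) (g : GV n → ℂ) :
    eval y (aeval (Sum.elim X (Sum.elim (fun l => C (x l)) (fun p => C (g p)))) G) =
      eval (ev y x g) G := by
  have h1 : (eval y).comp
      ((aeval (Sum.elim X (Sum.elim (fun l => C (x l)) (fun p => C (g p)))) :
        MvPolynomial (Vr n) ℂ →ₐ[ℂ] MvPolynomial (YV n) ℂ) : MvPolynomial (Vr n) ℂ →+*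
          MvPolynomial (YV n) ℂ) = eval (ev y x g) := by
    apply MvPolynomial.ringHom_ext
    · intro r
      simp
    · rintro (v | l | p) <;> simp [ev]
  exact RingHom.congr_fun h1 G

open scoped Classical in
/-- the functionals of the equations -/
private theorem comb4 {n d Q N c A B B' ω : ℕ} [Fintype (MB n ω A B)]
    [Fintype (MU n d A B')] [Fintype (KX n A B')] (hBB : B + c ≤ B')
    (a : Fin Q → Mon n d → ℂ) (Y : Fin N → YV n → ℂ) (v0 : Vr n → ℂ) (R : Finset (Fin Q))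
    (hfail : ∀ G : MvPolynomial (Vr n) ℂ, Bd3 ω A B G →
      Vn d A B' c Y (fun i : {i // i ∉ R} => frm (a i)) G → eval v0 G = 0) :
    ∃ xi : (Fin c × Fin Q × Fin Q × Fin N) → KX n A B' → ℂ,
      (∀ m : MB n ω A B, eval v0 (monomial m.1 1) =
        ∑ δ, (if Vd R δ then ∑ κ, xi δ κ * cf Y δ m.1 κ.1 else 0)) ∧
      ∀ δ : Fin c × Fin Q × Fin Q × Fin N, ∀ μ : MU n d A B',
        ∑ κ, xi δ κ * cg (fun p => a p.1 p.2) δ.2.1 μ.1 κ.1 = 0 ∧
        ∑ κ, xi δ κ * cg (fun p => a p.1 p.2) δ.2.2.1 μ.1 κ.1 = 0 := by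
  -- the polynomial with given coefficients
  obtain ⟨Φ, hΦ⟩ : ∃ Φ : (MB n ω A B → ℂ) →ₗ[ℂ] MvPolynomial (Vr n) ℂ,
      ∀ v, Φ v = ∑ m : MB n ω A B, v m • monomial m.1 1 :=
    ⟨Fintype.linearCombination ℂ (fun m : MB n ω A B => (monomial m.1 1 : MvPolynomial (Vr n) ℂ)),
      fun v => Fintype.linearCombination_apply ℂ _ v⟩
  have hΦB : ∀ v, Bd3 ω A B (Φ v) := by
    intro v s hs
    rw [hΦ] at hs
    have h1 := support_sum hs
    rw [Finset.mem_biUnion] at h1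
    obtain ⟨m, _, hm⟩ := h1
    rw [MvPolynomial.mem_support_iff, coeff_smul, coeff_monomial] at hm
    have h2 : m.1 = s := by
      by_contra h
      rw [if_neg h, smul_zero] at hm
      exact hm rfl
    rw [← h2]
    exact m.2
  obtain ⟨D, hD⟩ : ∃ D : (Fin c × Fin Q × Fin Q × Fin N) →
      (MvPolynomial (Vr n) ℂ →ₗ[ℂ] MvPolynomial (XG n) ℂ),
      ∀ δ G, D δ G = spec (Y δ.2.2.2) ((⇑(dd n))^[δ.1] G) := by
    refine ⟨fun δ => (spec (Y δ.2.2.2)).toLinearMap ∘ₗ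
      ((dd n : MvPolynomial (Vr n) ℂ →ₗ[ℂ] MvPolynomial (Vr n) ℂ) ^ (δ.1 : ℕ)), fun δ G => ?_⟩
    rw [LinearMap.comp_apply, Module.End.pow_apply]
    rfl
  obtain ⟨ℓ, hℓ⟩ : ∃ ℓ : MvPolynomial (Vr n) ℂ →ₗ[ℂ] ℂ, ∀ G, ℓ G = eval v0 G :=
    ⟨(aeval (R := ℂ) v0).toLinearMap, fun G => RingHom.congr_fun (MvPolynomial.coe_aeval_eq_eval v0) _⟩
  obtain ⟨φ, hφ1, hφ2⟩ : ∃ φ : (Fin c × Fin Q × Fin Q × Fin N) →
      ((MB n ω A B → ℂ) →ₗ[ℂ] MvPolynomial (XG n) ℂ),
      (∀ δ, Vd R δ → ∀ v, φ δ v = spec (Y δ.2.2.2) ((⇑(dd n))^[δ.1] (Φ v))) ∧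
      ∀ δ, ¬ Vd R δ → ∀ v, φ δ v = 0 := by
    refine ⟨fun δ => if Vd R δ then D δ ∘ₗ Φ else 0, fun δ hδ v => ?_, fun δ hδ v => ?_⟩
    · simp only [if_pos hδ, LinearMap.comp_apply, hD]
    · simp only [if_neg hδ, LinearMap.zero_apply]
  obtain ⟨ξ, hξ1, hξ2⟩ := exists_dual4 φ
    (fun δ => Lsp d A B' (frm (a δ.2.1)) (frm (a δ.2.2.1))) (ℓ ∘ₗ Φ) (by
      intro v hv
      rw [LinearMap.comp_apply, hℓ]
      refine hfail (Φ v) (hΦB v) ?_
      intro b hb i j hij t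
      have hV : Vd R ((⟨b, hb⟩, (i : Fin Q), (j : Fin Q), t) :
          Fin c × Fin Q × Fin Q × Fin N) := ⟨fun h => hij (Subtype.ext h), i.2, j.2⟩
      have h2 := hv (⟨b, hb⟩, i, j, t)
      rw [hφ1 _ hV] at h2
      exact h2)
  refine ⟨fun δ κ => ξ δ (monomial κ.1 1), ?_, ?_⟩
  · intro m
    have h1 := hξ2 (Pi.single m 1)
    have h2 : Φ (Pi.single m 1) = monomial m.1 1 := by
      rw [hΦ, Finset.sum_eq_single m]
      · rw [Pi.single_eq_same, one_smul]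
      · intro m' _ hm'
        rw [Pi.single_eq_of_ne hm', zero_smul]
      · intro h
        exact absurd (Finset.mem_univ _) h
    have h5 : Bd3 ω A B (monomial m.1 (1 : ℂ)) := by
      rw [← h2]
      exact hΦB _
    rw [LinearMap.comp_apply, hℓ, h2] at h1
    rw [h1]
    refine Finset.sum_congr rfl fun δ _ => ?_
    by_cases hδ : Vd R δ
    · rw [if_pos hδ, hφ1 δ hδ, h2]
      rw [fun_eq (A := A) (B := B') (ξ δ) _ (fun κ hκ => by
        obtain ⟨e1, e2⟩ := spec_support h5 δ.1 (Y δ.2.2.2) κ hκ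
        exact ⟨e1, e2.trans ((Nat.add_le_add_left δ.1.2.le B).trans hBB)⟩)]
      rfl
    · rw [if_neg hδ, hφ2 δ hδ, map_zero]
  · intro δ μ
    constructor
    · have h1 := hξ1 δ (rename Sum.inl (frm (a δ.2.1)) * monomial μ.1 1)
        (Submodule.subset_span ⟨μ.1, μ.2.1, μ.2.2, Or.inl rfl⟩)
      rw [fun_eq (A := A) (B := B') (ξ δ) _ (gen_support (frm_hom (a δ.2.1)) μ.2)] at h1
      exact h1
    · have h1 := hξ1 δ (rename Sum.inl (frm (a δ.2.2.1)) * monomial μ.1 1)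
        (Submodule.subset_span ⟨μ.1, μ.2.1, μ.2.2, Or.inr rfl⟩)
      rw [fun_eq (A := A) (B := B') (ξ δ) _ (gen_support (frm_hom (a δ.2.2.1)) μ.2)] at h1
      exact h1

/-- if the algebraic condition fails then the equations have a solution -/
theorem sol_of_fail4 {k d K : ℕ} (hd : 1 ≤ d) (hK : 1 ≤ K) (N1 : ℕ) {Q : ℕ}
    (a : Fin Q → Mon (k + 1) d → ℂ)
    (hp : ∀ i j, i ≠ j → Nrm d (dF (k + 1) d K Q) (frm (a i)) (frm (a j))) {ω B : ℕ}
    (hB : B = (k + 1) * (k + 1 + 1) * K ^ 2)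
    [Fintype (MB (k + 1) ω (dF (k + 1) d K Q) B)]
    [Fintype (MU (k + 1) d (dF (k + 1) d K Q) (gF (k + 1) K))]
    [Fintype (KX (k + 1) (dF (k + 1) d K Q) (gF (k + 1) K))]
    {Ω : Type} [Nonempty Ω] (y : Ω → YV (k + 1) → ℂ) (f : Ω → Fin (k + 2) → ℂ)
    (hf : ∀ z, f z 0 = 1) (hy : Irr y)
    (hω : finrank ℂ (U y (ω + K ^ 2)) ≤ 2 * finrank ℂ (U y ω))
    (hfail : ∀ (R : Finset (Fin Q)) (z0 : Ω) (G : MvPolynomial (Vr (k + 1)) ℂ), R.card ≤ N1 →
      Bd ω (dF (k + 1) d K Q) G →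
      Vn d (dF (k + 1) d K Q) (gF (k + 1) K) (K ^ 2) y (fun i : {i // i ∉ R} => frm (a i)) G →
      eval (ev (y z0) (f z0) (TT.one (k + 1))) G = 0) :
    ∃ w : Un4 (k + 1) Q (YM (k + 1) (ω + K ^ 2)).ncard (ω + K ^ 2) (K ^ 2)
      (MB (k + 1) ω (dF (k + 1) d K Q) B) (MU (k + 1) d (dF (k + 1) d K Q) (gF (k + 1) K))
      (KX (k + 1) (dF (k + 1) d K Q) (gF (k + 1) K)) → ℂ,
      ∀ e, fn4 N1 (fun m : MB (k + 1) ω (dF (k + 1) d K Q) B => m.1)
        (fun μ : MU (k + 1) d (dF (k + 1) d K Q) (gF (k + 1) K) => μ.1)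
        (fun κ : KX (k + 1) (dF (k + 1) d K Q) (gF (k + 1) K) => κ.1) e
        (fun p => a p.1 p.2) w = 0 := by
  classical
  have hBB : B + K ^ 2 ≤ gF (k + 1) K := by
    have h1 : K ^ 2 ≤ (k + 1) * (k + 1 + 1) * K ^ 2 := Nat.le_mul_of_pos_left _ (by positivity)
    have h2 : gF (k + 1) K = (k + 1) * (k + 1 + 1) * K ^ 2 + (k + 1) * (k + 1 + 1) * K ^ 2 := by
      unfold gF
      ring
    omega
  have hex : ∀ R : Finset (Fin Q), ∃ G : MvPolynomial (Vr (k + 1)) ℂ,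
      Bd3 ω (dF (k + 1) d K Q) B G ∧
      Vn d (dF (k + 1) d K Q) (gF (k + 1) K) (K ^ 2) y (fun i : {i // i ∉ R} => frm (a i)) G ∧
      ∃ (x : Fin (k + 2) → ℂ) (g : GV (k + 1) → ℂ) (z : Ω), eval (ev (y z) x g) G ≠ 0 := by
    intro R
    obtain ⟨G, h1, h2, z, x, g, h3⟩ := exists_formF hd hK (Q := Q) (ι := {i // i ∉ R}) (by
      refine (Fintype.card_subtype_le _).trans ?_
      rw [Fintype.card_fin]) y hω (fun i => frm (a i)) (fun i j hij =>
        hp i j (fun h => hij (Subtype.ext h)))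
    refine ⟨G, ?_, h2, x, g, z, h3⟩
    rw [hB]
    exact bx_bd3 h1
  choose G hGB hGV x g hG using hex
  obtain ⟨z0, hz0⟩ := irr_fin hy (fun R => aeval (Sum.elim X (Sum.elim (fun l => C (x R l))
    (fun p => C (g R p)))) (G R)) (fun R => by
      obtain ⟨z, hz⟩ := hG R
      exact ⟨z, by rw [eval_part]; exact hz⟩) Finset.univ
  have hz1 : ∀ R, eval (ev (y z0) (x R) (g R)) (G R) ≠ 0 := by
    intro R
    have h1 := hz0 R (Finset.mem_univ R)
    rwa [eval_part] at h1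
  obtain ⟨p, hpt⟩ := exists_points y (ω + K ^ 2)
  -- the certificates
  have hcert : ∀ (R : Finset (Fin Q)) (δ : Fin (K ^ 2) × Fin Q × Fin Q ×
      Fin (YM (k + 1) (ω + K ^ 2)).ncard),
      ∃ ca cb : MU (k + 1) d (dF (k + 1) d K Q) (gF (k + 1) K) → ℂ, Vd R δ →
        spec (trunc (ω + K ^ 2) (y (p δ.2.2.2))) ((⇑(dd (k + 1)))^[δ.1] (G R)) =
          ∑ μ, (ca μ • (rename Sum.inl (frm (a δ.2.1)) * monomial μ.1 1) +
            cb μ • (rename Sum.inl (frm (a δ.2.2.1)) * monomial μ.1 1)) := by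
    intro R δ
    by_cases hδ : Vd R δ
    · have h1 : Vn d (dF (k + 1) d K Q) (gF (k + 1) K) (K ^ 2) (fun t => y (p t))
          (fun i : {i // i ∉ R} => frm (a i)) (G R) :=
        fun b hb i j hij t => hGV R b hb i j hij (p t)
      have h2 := (vn_trunc (W := ω + K ^ 2) le_rfl (fun t => y (p t)) _ (G R)
        (bd3_bd (hGB R))).2 h1
      obtain ⟨ca, cb, h3⟩ := lsp_repr (h2 δ.1 δ.1.2 ⟨δ.2.1, hδ.2.1⟩ ⟨δ.2.2.1, hδ.2.2⟩
        (fun h => hδ.1 (congrArg Subtype.val h)) δ.2.2.2)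
      exact ⟨ca, cb, fun _ => h3⟩
    · exact ⟨fun _ => 0, fun _ => 0, fun h => absurd h hδ⟩
  choose ca cb hcert using hcert
  -- the combinations
  have hc : ∀ R : Finset (Fin Q), ∃ xi : (Fin (K ^ 2) × Fin Q × Fin Q ×
      Fin (YM (k + 1) (ω + K ^ 2)).ncard) → KX (k + 1) (dF (k + 1) d K Q) (gF (k + 1) K) → ℂ,
      (R.card ≤ N1 → ∀ m : MB (k + 1) ω (dF (k + 1) d K Q) B,
        eval (ev (trunc (ω + K ^ 2) (y z0)) (f z0) (TT.one (k + 1))) (monomial m.1 1) =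
        ∑ δ, (if Vd R δ then ∑ κ, xi δ κ *
          cf (fun t => trunc (ω + K ^ 2) (y (p t))) δ m.1 κ.1 else 0)) ∧
      ∀ δ, ∀ μ : MU (k + 1) d (dF (k + 1) d K Q) (gF (k + 1) K),
        ∑ κ, xi δ κ * cg (fun p => a p.1 p.2) δ.2.1 μ.1 κ.1 = 0 ∧
        ∑ κ, xi δ κ * cg (fun p => a p.1 p.2) δ.2.2.1 μ.1 κ.1 = 0 := by
    intro R
    by_cases hR : R.card ≤ N1
    · obtain ⟨xi, h1, h2⟩ := comb4 hBB a (fun t => trunc (ω + K ^ 2) (y (p t)))
        (ev (trunc (ω + K ^ 2) (y z0)) (f z0) (TT.one (k + 1))) R (by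
          intro F hF hV
          have h3 := (vn_trunc (W := ω + K ^ 2) le_rfl (fun t => y (p t)) _ F
            (bd3_bd hF)).1 hV
          have h4 := vn_points y p hpt (fun i : {i // i ∉ R} => frm (a i)) F (bd3_bd hF) h3
          have h5 := hfail R z0 F hR (bd3_bd hF) h4
          rw [← eval_trunc (W := ω + K ^ 2) (Nat.le_add_right _ _) F (bd3_bd hF)] at h5
          exact h5)
      exact ⟨xi, fun _ => h1, h2⟩
    · exact ⟨fun _ _ => 0, fun h => absurd h hR, fun δ μ => by simp⟩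
  choose xi hxi1 hxi2 using hc
  refine ⟨fun u => match u with
    | .yp t j i => y (p t) (j, i)
    | .yz j i => y z0 (j, i)
    | .fz l => f z0 l
    | .co R m => (eval (ev (y z0) (x R) (g R)) (G R))⁻¹ * coeff m.1 (G R)
    | .xr R l => x R l
    | .gr R q => g R q
    | .ca R δ μ => (eval (ev (y z0) (x R) (g R)) (G R))⁻¹ * ca R δ μ
    | .cb R δ μ => (eval (ev (y z0) (x R) (g R)) (G R))⁻¹ * cb R δ μ
    | .xi R δ κ => xi R δ κ, ?_⟩
  have hyp : ∀ {M U V : Type} (w : Un4 (k + 1) Q (YM (k + 1) (ω + K ^ 2)).ncard (ω + K ^ 2)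
      (K ^ 2) M U V → ℂ), (∀ t j i, w (.yp t j i) = y (p t) (j, i)) →
      ypt4 w = fun t => trunc (ω + K ^ 2) (y (p t)) := by
    intro M U V w hw
    funext t v
    simp only [ypt4, trunc]
    by_cases h : v.2 < ω + K ^ 2
    · rw [dif_pos h, if_pos h, hw]
    · rw [dif_neg h, if_neg h]
  have hyz : ∀ {M U V : Type} (w : Un4 (k + 1) Q (YM (k + 1) (ω + K ^ 2)).ncard (ω + K ^ 2)
      (K ^ 2) M U V → ℂ), (∀ j i, w (.yz j i) = y z0 (j, i)) →
      yzt4 w = trunc (ω + K ^ 2) (y z0) := by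
    intro M U V w hw
    funext v
    simp only [yzt4, trunc]
    by_cases h : v.2 < ω + K ^ 2
    · rw [dif_pos h, if_pos h, hw]
    · rw [dif_neg h, if_neg h]
  intro e
  cases e with
  | one =>
    simp only [fn4]
    rw [hf z0, sub_self]
  | van R δ κ =>
    simp only [fn4]
    rw [hyp _ (fun _ _ _ => rfl)]
    by_cases hδ : Vd R δ
    · rw [if_pos hδ, sub_eq_zero]
      simp only [mul_assoc]
      simp only [← mul_add]
      rw [← Finset.mul_sum, ← Finset.mul_sum]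
      congr 1
      have h1 := congrArg (coeff κ) (hcert R δ hδ)
      rw [spec_sum (G R) (hGB R), coeff_sum, coeff_sum] at h1
      simp only [coeff_smul, coeff_add, smul_eq_mul] at h1
      exact h1
    · rw [if_neg hδ]
  | nv R =>
    simp only [fn4]
    rw [hyz _ (fun _ _ => rfl)]
    simp only [mul_assoc]
    rw [← Finset.mul_sum]
    have h1 := eval_sum3 (G R) (hGB R) 0 (ev (trunc (ω + K ^ 2) (y z0)) (x R) (g R))
    simp only [Function.iterate_zero, id_eq] at h1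
    rw [← h1, eval_trunc (W := ω + K ^ 2) (Nat.le_add_right _ _) (G R) (bd3_bd (hGB R)),
      inv_mul_cancel₀ (hz1 R), sub_self]
  | cmb R m =>
    simp only [fn4]
    by_cases hR : R.card ≤ N1
    · rw [if_pos hR, hyz _ (fun _ _ => rfl), hyp _ (fun _ _ _ => rfl), sub_eq_zero]
      refine (hxi1 R hR m).trans (Finset.sum_congr rfl fun δ _ => ?_)
      by_cases hδ : Vd R δ
      · simp only [if_pos hδ]
      · simp only [if_neg hδ]
    · rw [if_neg hR]
  | ka R δ μ =>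
    simp only [fn4]
    by_cases hδ : Vd R δ
    · rw [if_pos hδ]
      exact (hxi2 R δ μ).1
    · rw [if_neg hδ]
  | kb R δ μ =>
    simp only [fn4]
    by_cases hδ : Vd R δ
    · rw [if_pos hδ]
      exact (hxi2 R δ μ).2
    · rw [if_neg hδ]

/-- a polynomial for the normal forms of all pairs -/
private theorem nrm_pairs (k d A Q : ℕ) (hd : 1 ≤ d) : ∃ S : MvPolynomial (Fin Q × Mon (k + 1) d) ℚ,
    S ≠ 0 ∧ ∀ a : Fin Q → Mon (k + 1) d → ℂ,
      aeval (fun p : Fin Q × Mon (k + 1) d => a p.1 p.2) S ≠ 0 →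
      ∀ i j, i ≠ j → Nrm d A (frm (a i)) (frm (a j)) := by
  classical
  obtain ⟨S0, hS0, hS0p⟩ := nrm_open k d A hd
  have h1 : ∀ q : Fin Q × Fin Q, ∃ S : MvPolynomial (Fin Q × Mon (k + 1) d) ℚ, S ≠ 0 ∧
      ∀ a : Fin Q → Mon (k + 1) d → ℂ, aeval (fun p : Fin Q × Mon (k + 1) d => a p.1 p.2) S ≠ 0 →
        q.1 ≠ q.2 → Nrm d A (frm (a q.1)) (frm (a q.2)) := by
    rintro ⟨i, j⟩
    by_cases hij : i = j
    · exact ⟨1, one_ne_zero, fun a _ h => absurd hij h⟩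
    let e : Fin 2 × Mon (k + 1) d → Fin Q × Mon (k + 1) d := fun p => (![i, j] p.1, p.2)
    have he : Function.Injective e := by
      rintro ⟨s, m⟩ ⟨t, m'⟩ hst
      simp only [e, Prod.mk.injEq] at hst
      refine Prod.ext ?_ hst.2
      have h2 := hst.1
      fin_cases s <;> fin_cases t
      · rfl
      · exact absurd h2 hij
      · exact absurd h2.symm hij
      · rfl
    refine ⟨rename e S0, fun h => hS0 (rename_injective _ he (h.trans (map_zero _).symm)), ?_⟩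
    intro a ha _
    rw [aeval_rename] at ha
    exact hS0p (fun s => a (![i, j] s)) ha
  choose S hS hSp using h1
  refine ⟨∏ q, S q, Finset.prod_ne_zero_iff.2 fun q _ => hS q, fun a ha i j hij => ?_⟩
  rw [map_prod, Finset.prod_ne_zero_iff] at ha
  exact hSp (i, j) a (ha (i, j) (Finset.mem_univ _)) hij

/-- the algebraic part for general families -/
theorem alg_open4 (k : ℕ) {K : ℕ} (hK : 1 ≤ K) : ∃ ω0 N1 : ℕ, ∀ d : ℕ, 1 ≤ d → ∀ Q : ℕ,
    ∃ S : MvPolynomial (Fin Q × Mon (k + 1) d) ℚ, S ≠ 0 ∧ ∀ a : Fin Q → Mon (k + 1) d → ℂ,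
      aeval (fun p : Fin Q × Mon (k + 1) d => a p.1 p.2) S ≠ 0 →
        AlgF (k + 1) d K ω0 N1 (fun i => frm (a i)) := by
  classical
  obtain ⟨ω0, hω0⟩ := exists_weight (k + 1) (K ^ 2) (Nat.one_le_pow _ _ hK)
  obtain ⟨N1, hN1⟩ := no_sol4 (k + 1) K ω0
  refine ⟨ω0, N1, fun d hd Q => ?_⟩
  obtain ⟨S0, hS0, hS0p⟩ := nrm_pairs k d (dF (k + 1) d K Q) Q hd
  obtain ⟨B, hB⟩ : ∃ B, B = (k + 1) * (k + 1 + 1) * K ^ 2 := ⟨_, rfl⟩
  let insU : Fintype (MU (k + 1) d (dF (k + 1) d K Q) (gF (k + 1) K)) := (mu_finite _ _ _ _).fintype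
  let insX : Fintype (KX (k + 1) (dF (k + 1) d K Q) (gF (k + 1) K)) := (kx_finite _ _ _).fintype
  let insM : ∀ ω : ℕ, Fintype (MB (k + 1) ω (dF (k + 1) d K Q) B) :=
    fun ω => (mb_finite _ _ _ _).fintype
  have h1 : ∀ ω : Fin (ω0 + 1), ∃ S : MvPolynomial (Fin Q × Mon (k + 1) d) ℚ, S ≠ 0 ∧
      ∀ a : Fin Q × Mon (k + 1) d → ℂ, aeval a S ≠ 0 →
      ∀ w : Un4 (k + 1) Q (YM (k + 1) (ω + K ^ 2)).ncard (ω + K ^ 2) (K ^ 2)
          (MB (k + 1) ω (dF (k + 1) d K Q) B) (MU (k + 1) d (dF (k + 1) d K Q) (gF (k + 1) K))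
          (KX (k + 1) (dF (k + 1) d K Q) (gF (k + 1) K)) → ℂ,
        ∃ e, fn4 N1 (fun m : MB (k + 1) ω (dF (k + 1) d K Q) B => m.1)
          (fun μ : MU (k + 1) d (dF (k + 1) d K Q) (gF (k + 1) K) => μ.1)
          (fun κ : KX (k + 1) (dF (k + 1) d K Q) (gF (k + 1) K) => κ.1) e a w ≠ 0 := by
    intro ω
    have insW := Fintype.ofFinite (Un4 (k + 1) Q (YM (k + 1) (ω + K ^ 2)).ncard (ω + K ^ 2) (K ^ 2)
          (MB (k + 1) ω (dF (k + 1) d K Q) B) (MU (k + 1) d (dF (k + 1) d K Q) (gF (k + 1) K))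
          (KX (k + 1) (dF (k + 1) d K Q) (gF (k + 1) K)))
    exact elim_none _ (fun e => pf_fn4 N1 _ _ _ e)
      (fun a ha w => hN1 d Q ω (Nat.lt_succ_iff.1 ω.2) _ _ _ _ _ a ha w)
  choose S hS hSp using h1
  refine ⟨S0 * ∏ ω, S ω, mul_ne_zero hS0 (Finset.prod_ne_zero_iff.2 fun q _ => hS q),
    fun a ha => ?_⟩
  rw [map_mul, map_prod] at ha
  have ha0 := left_ne_zero_of_mul ha
  have ha1 := Finset.prod_ne_zero_iff.1 (right_ne_zero_of_mul ha)
  intro Ω _ y f hf hy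
  obtain ⟨ω, hω, hU⟩ := hω0 y
  refine ⟨ω, hω, ?_⟩
  by_contra hcon
  push Not at hcon
  obtain ⟨w, hw⟩ := sol_of_fail4 hd hK N1 a (hS0p a ha0) (ω := ω) hB y f hf hy hU
    (fun R z0 G hR hG hV => hcon R z0 G hR hG (fun b hb i j hi hj hij z x g hbi hbj =>
      vn_point hV hb (i := ⟨i, hi⟩) (j := ⟨j, hj⟩) (fun h => hij (congrArg Subtype.val h)) z x g
        hbi hbj))
  obtain ⟨e, he⟩ := hSp ⟨ω, Nat.lt_succ_of_le hω⟩ _ (ha1 _ (Finset.mem_univ _)) w
  exact he (hw e)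

end Pool.Agent.TD
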