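import Pool.Agent.Lib_MP_b9fedf_td.TotG4
import Pool.Agent.Lib_MP_b9fedf_tt.LevelG
import Pool.Agent.Lib_MP_b9fedf_gh.Apps
import Pool.Agent.Lib_MP_b9fedf_gh.CurveA

/-! Total truncation for all subfamilies; varieties over `ℙⁿ` on which `n` disjoint subfamilies are
multiple. -/

set_option autoImplicit false

namespace Pool.Agent.TD
open MvPolynomial Pool.Agent.TT Pool.Agent.GGL Pool.Agent.GH Pool.Agent.LO Pool.Agent.Stat
open Pool.Agent.SQ

/-- the second main theorem with total truncation for all subfamilies of general families -/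
theorem tot_open_sub {n : ℕ} (hn : 1 ≤ n) {ε : ℝ} (hε : 0 < ε) : ∃ C : ℝ, 0 ≤ C ∧ ∀ d : ℕ, 1 ≤ d →
    ∀ Q : ℕ, ∃ S : MvPolynomial (Fin Q × Mon n d) ℚ, S ≠ 0 ∧ ∀ a : Fin Q → Mon n d → ℂ,
      aeval (fun p : Fin Q × Mon n d => a p.1 p.2) S ≠ 0 →
        Snc (fun i => frm (a i)) ∧
        ∀ (q : ℕ) (e : Fin q ↪ Fin Q), Tot d ε C (fun i => frm (a (e i))) := by
  classical
  obtain ⟨C, hC, hop⟩ := tot_open4 hn hε
  refine ⟨C, hC, fun d hd Q => ?_⟩
  choose S hS hSp using hop d hd
  let mE : ∀ q : ℕ, (Fin q ↪ Fin Q) → Fin q × Mon n d → Fin Q × Mon n d := fun q e p => (e p.1, p.2)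
  have hmE : ∀ q e, Function.Injective (mE q e) := by
    intro q e p p' hpq
    simp only [mE, Prod.mk.injEq] at hpq
    exact Prod.ext (e.injective hpq.1) hpq.2
  refine ⟨S Q * ∏ q : Fin (Q + 1), ∏ e : Fin (q : ℕ) ↪ Fin Q, rename (mE q e) (S q),
    mul_ne_zero (hS Q) (Finset.prod_ne_zero_iff.2 fun q _ => Finset.prod_ne_zero_iff.2 fun e _ h =>
      hS q (rename_injective _ (hmE q e) (h.trans (map_zero _).symm))), fun a ha => ?_⟩
  rw [map_mul, map_prod] at ha
  refine ⟨(hSp Q a (left_ne_zero_of_mul ha)).2, fun q e => ?_⟩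
  have hq : q ≤ Q := by
    have h1 := Fintype.card_le_of_embedding e
    rwa [Fintype.card_fin, Fintype.card_fin] at h1
  have h2 := Finset.prod_ne_zero_iff.1 (right_ne_zero_of_mul ha) ⟨q, Nat.lt_succ_of_le hq⟩
    (Finset.mem_univ _)
  rw [map_prod] at h2
  have h3 := Finset.prod_ne_zero_iff.1 h2 e (Finset.mem_univ _)
  rw [aeval_rename] at h3
  exact (hSp q (fun i => a (e i)) h3).1

/-- the embedding with image `B` -/
noncomputable def embB {Q : ℕ} (B : Finset (Fin Q)) : Fin B.card ↪ Fin Q :=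
  (B.orderEmbOfFin rfl).toEmbedding

theorem prod_embB {Q : ℕ} {M : Type} [CommMonoid M] (B : Finset (Fin Q)) (g : Fin Q → M) :
    ∏ i, g (embB B i) = ∏ i ∈ B, g i := by
  have h1 : Finset.univ.map (embB B) = B := Finset.map_orderEmbOfFin_univ B rfl
  conv_rhs => rw [← h1]
  rw [Finset.prod_map]

/-- Where `n` members with normal crossings vanish on a curve `F`, the vectors `F`, `F'` are
dependent. -/
theorem dep_of_members {n d : ℕ} {ι : Type} {b : ι → MvPolynomial (Fin (n + 1)) ℂ}
    (hb : ∀ i, (b i).IsHomogeneous d) (hs : Snc b) (T : Finset ι) (hT : T.card = n)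
    (F : ℂ → Fin (n + 1) → ℂ) (hF : Differentiable ℂ F) (hF0 : ∀ i ∈ T, ∀ z, eval (F z) (b i) = 0)
    (z : ℂ) (i j : Fin (n + 1)) :
    F z i * deriv (fun w => F w j) z = F z j * deriv (fun w => F w i) z := by
  classical
  by_cases hz : F z = 0
  · rw [hz]
    simp
  obtain ⟨k, hk⟩ : ∃ k, F z k ≠ 0 := by
    by_contra h
    push Not at h
    exact hz (funext h)
  have hli := hs (F z) hz T (fun i hi => hF0 i hi z)
  obtain ⟨A, hA⟩ : ∃ A : Matrix T (Fin (n + 1)) ℂ,
      A = fun (i : T) j => eval (F z) (pderiv j (b i)) := ⟨_, rfl⟩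
  obtain ⟨B, hB⟩ : ∃ B : Matrix (Fin 2) (Fin (n + 1)) ℂ,
      B = ![F z, tng F k z] := ⟨_, rfl⟩
  have hAr : A.rank = n := by
    have h1 : LinearIndependent ℂ A.row := by
      rw [hA]
      exact hli
    rw [h1.rank_matrix, Fintype.card_coe, hT]
  have hAB : A * B.transpose = 0 := by
    ext t s
    rw [Matrix.mul_apply, Matrix.zero_apply, hA, hB]
    fin_cases s
    · have h3 := congrArg (eval (F z)) (hb t).sum_X_mul_pderiv
      rw [map_sum, map_nsmul, nsmul_eq_mul, hF0 t t.2 z, mul_zero] at h3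
      rw [← h3]
      refine Finset.sum_congr rfl fun j _ => ?_
      rw [map_mul, eval_X, mul_comm]
      rfl
    · have h3 := dv_tng (b t) (hb t) F hF k z
      have h4 : (fun w => eval (F w) (b t)) = fun _ => (0 : ℂ) := by
        funext w
        exact hF0 t t.2 w
      rw [h4, deriv_const, hF0 t t.2 z, mul_zero, mul_zero, sub_zero] at h3
      rw [← h3, dv]
      refine Finset.sum_congr rfl fun j _ => ?_
      show eval (F z) (pderiv j (b t)) * tng F k z j = _
      rw [mul_comm]
  have h1 := Matrix.rank_add_rank_le_card_of_mul_eq_zero hAB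
  rw [hAr, Fintype.card_fin, Matrix.rank_transpose] at h1
  by_contra hne
  have h2 : LinearIndependent ℂ B.row := by
    rw [hB]
    show LinearIndependent ℂ ![F z, tng F k z]
    rw [LinearIndependent.pair_iff]
    intro s t hst
    have e1 := congrFun hst i
    have e2 := congrFun hst j
    simp only [Pi.add_apply, Pi.smul_apply, smul_eq_mul, Pi.zero_apply, tng] at e1 e2
    have hD : F z k * (F z i * deriv (fun w => F w j) z - F z j * deriv (fun w => F w i) z) ≠ 0 :=
      mul_ne_zero hk (sub_ne_zero.2 hne)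
    have et : t * (F z k * (F z i * deriv (fun w => F w j) z -
        F z j * deriv (fun w => F w i) z)) = 0 := by
      linear_combination F z i * e2 - F z j * e1
    have ht : t = 0 := (mul_eq_zero.1 et).resolve_right hD
    refine ⟨?_, ht⟩
    by_contra hs0
    rw [ht, zero_mul, add_zero] at e1 e2
    have f1 := (mul_eq_zero.1 e1).resolve_left hs0
    have f2 := (mul_eq_zero.1 e2).resolve_left hs0
    apply hne
    rw [f1, f2, zero_mul, zero_mul]
  have h3 := h2.rank_matrix
  rw [Fintype.card_fin] at h3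
  omega

/-- a curve which is proportional to its derivative has a constant direction -/
theorem dir_const {n : ℕ} (F : ℂ → Fin (n + 1) → ℂ) (hF : Differentiable ℂ F)
    (h : ∀ z i j, F z i * deriv (fun w => F w j) z = F z j * deriv (fun w => F w i) z) :
    ∃ t : Fin (n + 1) → ℂ, t ≠ 0 ∧ ∀ z i j, t i * F z j = t j * F z i := by
  by_cases hall : ∀ z, F z = 0
  · refine ⟨fun _ => 1, fun h => one_ne_zero (congrFun h 0), fun z i j => ?_⟩
    rw [hall z]
    simp
  push Not at hall
  obtain ⟨z0, hz0⟩ := hall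
  obtain ⟨l, hl⟩ : ∃ l, F z0 l ≠ 0 := by
    by_contra h
    push Not at h
    exact hz0 (funext h)
  have hFc : ∀ j, Differentiable ℂ (fun z => F z j) := fun j => differentiable_pi.1 hF j
  have key : ∀ j z, F z0 l * F z j - F z0 j * F z l = 0 := by
    intro j
    obtain ⟨r, hr, hball⟩ := Metric.eventually_nhds_iff_ball.1
      (((hFc l).continuous.continuousAt (x := z0)).eventually_ne hl)
    have hq : DifferentiableOn ℂ (fun z => F z j / F z l) (Metric.ball z0 r) := by
      intro z hz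
      exact ((hFc j z).div (hFc l z) (hball z hz)).differentiableWithinAt
    have hq' : (Metric.ball z0 r).EqOn (deriv fun z => F z j / F z l) 0 := by
      intro z hz
      have h1 := ((hFc j z).hasDerivAt.fun_div (hFc l z).hasDerivAt (hball z hz)).deriv
      rw [h1, Pi.zero_apply]
      rw [div_eq_zero_iff]
      left
      have h2 := h z l j
      linear_combination h2
    have h3 : AnalyticOnNhd ℂ (fun z => F z0 l * F z j - F z0 j * F z l) Set.univ := fun z _ =>
      (((hFc j).const_mul _).sub ((hFc l).const_mul _)).analyticAt z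
    have h4 : AnalyticOnNhd ℂ (fun _ : ℂ => (0 : ℂ)) Set.univ := fun z _ => analyticAt_const
    have h5 : (fun z => F z0 l * F z j - F z0 j * F z l) =ᶠ[nhds z0] fun _ => 0 := by
      filter_upwards [Metric.ball_mem_nhds z0 hr] with z hz
      have h6 := Metric.isOpen_ball.is_const_of_deriv_eq_zero
        (convex_ball z0 r).isPreconnected hq hq' hz (Metric.mem_ball_self hr)
      rw [div_eq_div_iff (hball z hz) hl] at h6
      linear_combination h6
    exact fun z => congrFun (h3.eq_of_eventuallyEq h4 h5) z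
  refine ⟨F z0, hz0, fun z i j => ?_⟩
  have h1 := key i z
  have h2 := key j z
  have h3 : F z0 l * (F z0 i * F z j - F z0 j * F z i) = 0 := by
    linear_combination F z0 i * h2 - F z0 j * h1
  exact sub_eq_zero.1 ((mul_eq_zero.1 h3).resolve_left hl)

/-- if a product of entire functions is zero, one of them is zero -/
theorem zero_of_prod {ι : Type} [DecidableEq ι] (T : Finset ι) (g : ι → ℂ → ℂ)
    (hg : ∀ i, Differentiable ℂ (g i)) (h : ∀ z, ∏ i ∈ T, g i z = 0) :
    ∃ i ∈ T, ∀ z, g i z = 0 := by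
  by_contra hcon
  push Not at hcon
  have h3 : ∀ T' ⊆ T, ∃ z, ∏ i ∈ T', g i z ≠ 0 := by
    intro T'
    induction T' using Finset.induction_on with
    | empty => intro _; exact ⟨0, by simp⟩
    | insert i T' hi ih =>
      intro hsub
      obtain ⟨z₁, hz₁⟩ := hcon i (hsub (Finset.mem_insert_self i T'))
      obtain ⟨z₂, hz₂⟩ := ih ((Finset.subset_insert i T').trans hsub)
      obtain ⟨z, hz, hz'⟩ := exists_ne_mul (hg i)
        (Differentiable.fun_finsetProd fun i _ => hg i) ⟨z₁, hz₁⟩ ⟨z₂, hz₂⟩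
      exact ⟨z, by rw [Finset.prod_insert hi]; exact mul_ne_zero hz hz'⟩
  obtain ⟨z, hz⟩ := h3 T (Finset.Subset.refl T)
  exact hz (h z)

section
variable {n d Q : ℕ} (hd : 1 ≤ d) (b : Fin Q → MvPolynomial (Fin (n + 1)) ℂ)
  (hb : ∀ i, (b i).IsHomogeneous d) (hs : Snc b) {C : ℝ} (hC : 0 ≤ C)
  (hT : ∀ (q : ℕ) (e : Fin q ↪ Fin Q), Tot d (1 / 4) C (fun i => b (e i)))

include hd hb hs hC hT in
/-- curves of varieties on which a subfamily is multiple -/
theorem curves_of_block (B : Finset (Fin Q)) (hB : 4 * C < B.card) {m : ℕ}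
    (S : Set (MvPolynomial (Fin (m + 1)) ℂ)) (φ : Fin (n + 1) → MvPolynomial (Fin (m + 1)) ℂ)
    (hM : MultipleForm S φ (∏ i ∈ B, b i)) : CurvesIn S (aeval φ (∏ i ∈ B, b i)) φ := by
  have h1 := curves_of_tot hd (fun i => b (embB B i)) (fun i => hb _)
    (fun i => hs.ne_zero _) hC hB (hT _ (embB B)) S φ
  rw [prod_embB B b] at h1
  exact h1 hM

include hd hb hs hC hT in
/-- curves of cyclic covers -/
theorem cyclic_of_block (B : Finset (Fin Q)) (hB : 4 * C < B.card) {e : ℕ} (he : 2 ≤ e)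
    (heQ : e ∣ B.card * d) (f : ℂ → Fin (n + 2) → ℂ) (hf : Differentiable ℂ f)
    (hf0 : ∀ z, f z ≠ 0)
    (heq : ∀ z, f z (Fin.last (n + 1)) ^ e * f z 0 ^ (B.card * d - e) =
      ∏ i ∈ B, eval (fun l : Fin (n + 1) => f z l.castSucc) (b i))
    (hnc : ¬ ∀ z w, ∃ c : ℂ, f w = c • f z) :
    ∀ z, ∏ i ∈ B, eval (fun l : Fin (n + 1) => f z l.castSucc) (b i) = 0 := by
  have h1 : ∀ z, ∏ i, eval (fun l : Fin (n + 1) => f z l.castSucc) (b (embB B i)) =
      ∏ i ∈ B, eval (fun l : Fin (n + 1) => f z l.castSucc) (b i) := fun z =>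
    prod_embB B fun i => eval (fun l : Fin (n + 1) => f z l.castSucc) (b i)
  intro z
  rw [← h1]
  exact cyclic_of_tot hd (fun i => b (embB B i)) (fun i => hb _) (fun i => hs.ne_zero _) hC hB
    (hT _ (embB B)) he heQ f hf hf0 (fun z => (heq z).trans (h1 z).symm) hnc z

include hd hb hs hC hT in
/-- curves of varieties on which `n` disjoint subfamilies are multiple -/
theorem curves_of_blocks (B : Fin n → Finset (Fin Q)) (hBd : ∀ k l, k ≠ l → Disjoint (B k) (B l))
    (hB : ∀ k, 4 * C < (B k).card) {m : ℕ}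
    (S : Set (MvPolynomial (Fin (m + 1)) ℂ)) (φ : Fin (n + 1) → MvPolynomial (Fin (m + 1)) ℂ)
    (hM : ∀ k, MultipleForm S φ (∏ i ∈ B k, b i)) :
    ∀ f : ℂ → (Fin (m + 1) → ℂ), Differentiable ℂ f → (∀ z, f z ≠ 0) →
      (∀ z, ∀ p ∈ S, eval (f z) p = 0) →
      ∃ t : Fin (n + 1) → ℂ, t ≠ 0 ∧ ∀ z, ∀ p ∈ Fibre S φ t, eval (f z) p = 0 := by
  classical
  intro f hf hf0 hfS
  by_contra hcon
  obtain ⟨F, hFdef⟩ : ∃ F : ℂ → Fin (n + 1) → ℂ, F = fun z j => eval (f z) (φ j) := ⟨_, rfl⟩
  have hFd : Differentiable ℂ F := by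
    rw [hFdef]
    exact differentiable_pi.2 fun j => diff_eval hf _
  have hFb : ∀ P : MvPolynomial (Fin (n + 1)) ℂ, Differentiable ℂ fun z => eval (F z) P := by
    intro P
    exact diff_eval hFd P
  have hex : ∀ k, ∃ i ∈ B k, ∀ z, eval (F z) (b i) = 0 := by
    intro k
    rcases curves_of_block hd b hb hs hC hT (B k) (hB k) S φ (hM k) f hf hf0 hfS with h | h
    · refine zero_of_prod (B k) (fun i z => eval (F z) (b i)) (fun i => hFb _) fun z => ?_
      have h1 := h z
      rw [eval_aeval_phi, map_prod] at h1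
      rw [hFdef]
      exact h1
    · exact absurd h hcon
  choose ι hι hι0 using hex
  have hinj : Function.Injective ι := by
    intro k l hkl
    by_contra hne
    exact Finset.disjoint_left.1 (hBd k l hne) (hι k) (hkl ▸ hι l)
  have hcard : (Finset.univ.image ι).card = n := by
    rw [Finset.card_image_of_injective _ hinj, Finset.card_univ, Fintype.card_fin]
  obtain ⟨t, ht0, ht⟩ := dir_const F hFd fun z i j =>
    dep_of_members hb hs (Finset.univ.image ι) hcard F hFd (by
      intro i hi z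
      obtain ⟨k, -, rfl⟩ := Finset.mem_image.1 hi
      exact hι0 k z) z i j
  apply hcon
  refine ⟨t, ht0, ?_⟩
  rintro z p (hp | ⟨i, j, rfl⟩)
  · exact hfS z p hp
  · rw [map_sub, map_mul, map_mul, eval_C, eval_C, sub_eq_zero]
    have h1 := ht z i j
    rw [hFdef] at h1
    exact h1

end

section
variable {n d Q : ℕ} (hd : 1 ≤ d) (b : Fin Q → MvPolynomial (Fin (n + 1)) ℂ)
  (hb : ∀ i, (b i).IsHomogeneous d) (hs : Snc b) {C : ℝ} (hC : 0 ≤ C)
  (hT : ∀ (q : ℕ) (e : Fin q ↪ Fin Q), Tot d (1 / 4) C (fun i => b (e i)))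

include hd hb hs hC hT in
/-- a curve of `ℙⁿ` on which a subfamily has no simple zeros is constant or in a member -/
theorem const_of_block (B : Finset (Fin Q)) (hB : 4 * C < B.card)
    (f : ℂ → Fin (n + 1) → ℂ) (hf : Differentiable ℂ f) (hf0 : ∀ z, f z ≠ 0)
    (h : ∀ z, analyticOrderAt (fun z => ∏ i ∈ B, eval (f z) (b i)) z ≠ 1)
    (hne : ∃ z, ∏ i ∈ B, eval (f z) (b i) ≠ 0) : ∀ z w, ∃ c : ℂ, f w = c • f z := by
  classical
  have hb0 : ∀ i, b (embB B i) ≠ 0 := fun i => hs.ne_zero _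
  obtain ⟨η, hη, hL⟩ := param_of_tot (fun i => b (embB B i)) (fun i => hb _) hb0 hC hB
    (hT _ (embB B))
  obtain ⟨hQ1, hN⟩ := hη
  obtain ⟨hdeg, hhom, -⟩ := prod_degree_forms (fun i => b (embB B i)) (fun i => hb _) hb0
  have heq : ∀ z, eval (f z) (∏ i, b (embB B i)) = ∏ i ∈ B, eval (f z) (b i) := by
    intro z
    rw [prod_embB B b, map_prod]
  refine avg_const hN (by norm_num) ⊥ {∏ i, b (embB B i)} (Finset.singleton_nonempty _)
    (∏ i, b (embB B i)) ?_ ?_ hL f hf hf0 ?_ ?_ ?_
  · intro P hP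
    rw [Finset.mem_singleton] at hP
    rw [hP, hdeg]
    exact ⟨Nat.mul_pos hQ1 hd, hhom⟩
  · intro P hP
    rw [Finset.mem_singleton] at hP
    rw [hP]
  · intro g hg z
    rw [Ideal.mem_bot] at hg
    rw [hg, map_zero]
  · obtain ⟨z, hz⟩ := hne
    exact ⟨z, by rw [heq]; exact hz⟩
  · intro z o ho
    obtain ⟨P, hP⟩ : ∃ P, P = ∏ i, b (embB B i) := ⟨_, rfl⟩
    rw [← hP] at ho ⊢
    have h1 : o P ≠ 1 := by
      intro h1
      have h2 := ho P (Finset.mem_singleton_self P)
      rw [h1] at h2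
      apply h z
      rw [← h2.trans Nat.cast_one]
      congr 1
      funext w
      rw [hP]
      exact (heq w).symm
    rw [Finset.sum_singleton]
    by_cases h0 : o P = 0
    · rw [Finset.filter_singleton, if_neg (fun h => h h0), h0]
      simp
    · rw [Finset.filter_singleton, if_pos h0, Finset.card_singleton]
      have h3 : (2 : ℝ) ≤ o P := by exact_mod_cast (by omega : 2 ≤ o P)
      push_cast
      linarith

include hd hb hs hC hT in
/-- a curve of `ℙⁿ` on which `n` disjoint subfamilies have no simple zeros is constant -/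
theorem const_of_blocks (B : Fin n → Finset (Fin Q)) (hBd : ∀ k l, k ≠ l → Disjoint (B k) (B l))
    (hB : ∀ k, 4 * C < (B k).card)
    (f : ℂ → Fin (n + 1) → ℂ) (hf : Differentiable ℂ f) (hf0 : ∀ z, f z ≠ 0)
    (h : ∀ k z, analyticOrderAt (fun z => ∏ i ∈ B k, eval (f z) (b i)) z ≠ 1) :
    ∀ z w, ∃ c : ℂ, f w = c • f z := by
  classical
  by_contra hnc
  have hex : ∀ k, ∃ i ∈ B k, ∀ z, eval (f z) (b i) = 0 := by
    intro k
    refine zero_of_prod (B k) (fun i z => eval (f z) (b i)) (fun i => diff_eval hf _) fun z => ?_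
    by_contra hz
    exact hnc (const_of_block hd b hb hs hC hT (B k) (hB k) f hf hf0 (h k) ⟨z, hz⟩)
  choose ι hι hι0 using hex
  have hinj : Function.Injective ι := by
    intro k l hkl
    by_contra hne
    exact Finset.disjoint_left.1 (hBd k l hne) (hι k) (hkl ▸ hι l)
  have hcard : (Finset.univ.image ι).card = n := by
    rw [Finset.card_image_of_injective _ hinj, Finset.card_univ, Fintype.card_fin]
  obtain ⟨t, ht0, ht⟩ := dir_const f hf fun z i j =>
    dep_of_members hb hs (Finset.univ.image ι) hcard f hf (by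
      intro i hi z
      obtain ⟨k, -, rfl⟩ := Finset.mem_image.1 hi
      exact hι0 k z) z i j
  obtain ⟨l, hl⟩ : ∃ l, t l ≠ 0 := by
    by_contra h
    push Not at h
    exact ht0 (funext h)
  apply hnc
  intro z w
  have hfl : f z l ≠ 0 := by
    intro h0
    apply hf0 z
    funext j
    have h1 := ht z l j
    rw [h0, mul_zero] at h1
    exact (mul_eq_zero.1 h1).resolve_left hl
  refine ⟨f w l / f z l, ?_⟩
  funext j
  rw [Pi.smul_apply, smul_eq_mul]
  have h1 := ht z l j
  have h2 := ht w l j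
  have h3 : t l * (f z l * f w j - f w l * f z j) = 0 := by
    linear_combination f z l * h2 - f w l * h1
  have h4 := (mul_eq_zero.1 h3).resolve_left hl
  field_simp
  linear_combination h4

end

end Pool.Agent.TD
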