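import Pool.Agent.Lib_MP_b9fedf_td.Defs
import Pool.Agent.Lib_MP_b9fedf_tt.Points
import Pool.Agent.Lib_MP_b9fedf_tt.Sigma

/-! [TD-4]: contraction with functionals; points, truncation and automorphisms. -/

set_option autoImplicit false

namespace Pool.Agent.TD
open MvPolynomial Pool.Agent.TT Pool.Agent.GGL Pool.Agent.GH

/-- [TD-4a] membership in a subspace is detected by the functionals which vanish on it -/
theorem mem_of_dual {V : Type} [AddCommGroup V] [Module ℂ V] (L : Submodule ℂ V) (F : V)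
    (h : ∀ ξ : V →ₗ[ℂ] ℂ, (∀ u ∈ L, ξ u = 0) → ξ F = 0) : F ∈ L := by
  by_contra hF
  obtain ⟨ξ, h1, h2⟩ := Submodule.exists_dual_map_eq_bot_of_notMem hF inferInstance
  refine h1 (h ξ fun u hu => ?_)
  have h3 : ξ u ∈ L.map ξ := Submodule.mem_map_of_mem hu
  rw [h2] at h3
  exact (Submodule.mem_bot ℂ).1 h3

/-- the part in the jets of a monomial -/
private noncomputable def pL {n : ℕ} (m : Vr n →₀ ℕ) : YV n →₀ ℕ :=
  m.comapDomain Sum.inl Sum.inl_injective.injOn

/-- the part in `x` and the `g_j` of a monomial -/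
private noncomputable def pR {n : ℕ} (m : Vr n →₀ ℕ) : XG n →₀ ℕ :=
  m.comapDomain Sum.inr Sum.inr_injective.injOn

private theorem pLR {n : ℕ} (m : Vr n →₀ ℕ) : (pL m).sumElim (pR m) = m :=
  Finsupp.comapDomain_sumElim_comapDomain ..

private theorem wt_eq {n : ℕ} (m : Vr n →₀ ℕ) : wt m = wY (pL m) := by
  conv_lhs => rw [← pLR m]
  show Finsupp.weight _ _ = Finsupp.weight _ _
  rw [Finsupp.weight_apply, Finsupp.weight_apply, Finsupp.sum_sumElim]
  have h2 : (pR m).sum ((fun i c => c • (Sum.elim (fun v : YV n => v.2 + 1) (fun _ => 0) i : ℕ)) ∘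
      Sum.inr) = 0 := by
    refine Finset.sum_eq_zero fun i _ => ?_
    show (pR m) i • (0 : ℕ) = 0
    rw [smul_zero]
  rw [h2, add_zero]
  rfl

private theorem spec_monomial {n : ℕ} (y : YV n → ℂ) (m : Vr n →₀ ℕ) (c : ℂ) :
    spec y (monomial m c) = monomial (pR m) (c * (pL m).prod fun v e => y v ^ e) := by
  unfold spec
  rw [aeval_monomial]
  conv_lhs => rw [← pLR m]
  rw [Finsupp.prod_sumElim]
  have h1 : (pL m).prod ((fun i k => (Sum.elim (fun v => C (y v)) X :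
      Vr n → MvPolynomial (XG n) ℂ) i ^ k) ∘ Sum.inl) = C ((pL m).prod fun v e => y v ^ e) := by
    rw [Finsupp.prod, Finsupp.prod, map_prod]
    refine Finset.prod_congr rfl fun v _ => ?_
    rw [map_pow]
    rfl
  have h2 : (pR m).prod ((fun i k => (Sum.elim (fun v => C (y v)) X :
      Vr n → MvPolynomial (XG n) ℂ) i ^ k) ∘ Sum.inr) = (pR m).prod fun v e => X v ^ e := rfl
  rw [h1, h2, monomial_eq, algebraMap_eq, ← mul_assoc, ← map_mul]

/-- contraction with a functional -/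
private noncomputable def ctr {n : ℕ} (ξ : MvPolynomial (XG n) ℂ →ₗ[ℂ] ℂ)
    (G : MvPolynomial (Vr n) ℂ) : MvPolynomial (YV n) ℂ :=
  ∑ m ∈ G.support, monomial (pL m) (G.coeff m * ξ (monomial (pR m) 1))

private theorem ξ_monomial {n : ℕ} (ξ : MvPolynomial (XG n) ℂ →ₗ[ℂ] ℂ) (m : XG n →₀ ℕ) (c : ℂ) :
    ξ (monomial m c) = c * ξ (monomial m 1) := by
  rw [← smul_eq_mul, ← map_smul, smul_monomial, smul_eq_mul, mul_one]

/-- [TD-4b] Proof.  `ξ P = σ⁻¹ (ξ' (map σ P))`, and `κ G = ∑_m coeff m G * ξ (monomial (m on x, g) 1) * (monomial (m on the jets) 1)`. -/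
theorem exists_ctr {n : ℕ} (σ : ℂ ≃+* ℂ) (ξ' : MvPolynomial (XG n) ℂ →ₗ[ℂ] ℂ) :
    ∃ (ξ : MvPolynomial (XG n) ℂ →ₗ[ℂ] ℂ) (κ : MvPolynomial (Vr n) ℂ → MvPolynomial (YV n) ℂ),
      (∀ P, σ (ξ P) = ξ' (map (σ : ℂ →+* ℂ) P)) ∧
      (∀ (y : YV n → ℂ) (G : MvPolynomial (Vr n) ℂ), eval y (κ G) = ξ (spec y G)) ∧
      (∀ (ω : ℕ) (G : MvPolynomial (Vr n) ℂ), (∀ m ∈ G.support, wt m ≤ ω) →
        ∀ m ∈ (κ G).support, wY m ≤ ω) ∧
      ∀ (y : YV n → ℂ) (G : MvPolynomial (Vr n) ℂ), eval y (map (σ : ℂ →+* ℂ) (κ G)) =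
        ξ' (spec y (map (σ : ℂ →+* ℂ) G)) := by
  classical
  let ξ : MvPolynomial (XG n) ℂ →ₗ[ℂ] ℂ :=
    { toFun := fun P => σ.symm (ξ' (map (σ : ℂ →+* ℂ) P))
      map_add' := fun P Q => by rw [map_add, map_add, map_add]
      map_smul' := fun c P => by
        have h1 : map (σ : ℂ →+* ℂ) (c • P) = σ c • map (σ : ℂ →+* ℂ) P := by
          rw [smul_eq_C_mul, smul_eq_C_mul, map_mul, map_C]
          rfl
        rw [h1, map_smul, smul_eq_mul, map_mul, RingEquiv.symm_apply_apply]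
        rfl }
  have hξ : ∀ P, σ (ξ P) = ξ' (map (σ : ℂ →+* ℂ) P) := fun P => σ.apply_symm_apply _
  have hev : ∀ (y : YV n → ℂ) (m : YV n →₀ ℕ) (c : ℂ),
      eval y (monomial m c) = c * m.prod fun v e => y v ^ e := fun y m c => eval_monomial
  refine ⟨ξ, ctr ξ, hξ, fun y G => ?_, fun ω G hG m hm => ?_, fun y G => ?_⟩
  · have h1 : spec y G = ∑ m ∈ G.support, spec y (monomial m (G.coeff m)) := by
      rw [← map_sum, ← G.as_sum]
    rw [ctr, h1, map_sum, map_sum]
    refine Finset.sum_congr rfl fun m _ => ?_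
    rw [hev, spec_monomial, ξ_monomial ξ (pR m) (G.coeff m * _)]
    ring
  · rw [ctr] at hm
    obtain ⟨m', hm', hm2⟩ := Finset.mem_biUnion.1 (support_sum hm)
    have h3 := support_monomial_subset hm2
    rw [Finset.mem_singleton] at h3
    rw [h3, ← wt_eq]
    exact hG m' hm'
  · have h1 : spec y (map (σ : ℂ →+* ℂ) G) =
        ∑ m ∈ G.support, spec y (monomial m (σ (G.coeff m))) := by
      conv_lhs => rw [G.as_sum, map_sum, map_sum]
      refine Finset.sum_congr rfl fun m _ => ?_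
      rw [map_monomial]
      rfl
    rw [ctr, h1, map_sum, map_sum, map_sum]
    refine Finset.sum_congr rfl fun m _ => ?_
    rw [map_monomial, hev, spec_monomial, ξ_monomial ξ' (pR m) (σ (G.coeff m) * _)]
    have h2 : (σ : ℂ →+* ℂ) (G.coeff m * ξ (monomial (pR m) 1)) =
        σ (G.coeff m) * ξ' (monomial (pR m) 1) := by
      show σ (G.coeff m * ξ (monomial (pR m) 1)) = _
      rw [map_mul, hξ, map_monomial, map_one]
    rw [h2]
    ring

/-- [TD-4c] Proof.  For a functional `ξ'` which vanishes on `Lsp (σ b_i) (σ b_j)` take `ξ`, `κ` of `exists_ctr`: `ξ` vanishes on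
`Lsp b_i b_j`, so `κ (dd^[a] G)` vanishes at all `y z`; its weights are at most `ω + c` (`bd_iter`), apply `hst`; `dd` commutes with `map σ`
(see Sigma.lean), and use `mem_of_dual`. -/
theorem vn_sigma {n d A B c ω A' : ℕ} {Ω ι : Type} (y : Ω → YV n → ℂ) (σ : ℂ ≃+* ℂ)
    (hst : Stab y (ω + c) σ) (b : ι → MvPolynomial (Fin (n + 1)) ℂ) (G : MvPolynomial (Vr n) ℂ)
    (hG : Bd ω A' G) (hV : Vn d A B c y b G) :
    Vn d A B c y (fun i => map (σ : ℂ →+* ℂ) (b i)) (map (σ : ℂ →+* ℂ) G) := by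
  intro a ha i j hij z
  refine mem_of_dual _ _ fun ξ' hξ' => ?_
  obtain ⟨ξ, κ, h1, h2, h3, h4⟩ := exists_ctr σ ξ'
  have h5 : ∀ F ∈ Lsp d A B (b i) (b j), ξ F = 0 := by
    intro F hF
    unfold Lsp at hF
    induction hF using Submodule.span_induction with
    | mem F hF =>
      obtain ⟨m, hm1, hm2, hF⟩ := hF
      have h6 : σ (ξ F) = 0 := by
        rw [h1]
        refine hξ' _ (Submodule.subset_span ⟨m, hm1, hm2, ?_⟩)
        rcases hF with rfl | rfl
        · left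
          rw [map_mul, map_rename, map_monomial, map_one]
        · right
          rw [map_mul, map_rename, map_monomial, map_one]
      exact (map_eq_zero_iff σ σ.injective).1 h6
    | zero => exact map_zero ξ
    | add u v _ _ hu hv => rw [map_add, hu, hv, add_zero]
    | smul c u _ hu => rw [map_smul, hu, smul_zero]
  rw [dd_iter_map, ← h4]
  refine hst _ (h3 _ _ fun m hm => ((bd_iter hG a) m hm).1.trans (by omega)) (fun z' => ?_) z
  rw [h2]
  exact h5 _ (hV a ha i j hij z')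

/-- [TD-4d] `exists_ctr` with `σ = 1` (see `van_points`, Points.lean) -/
theorem vn_points {n d A B c ω A' : ℕ} {Ω ι : Type} (y : Ω → YV n → ℂ) {N : ℕ} (p : Fin N → Ω)
    (hp : ∀ P : MvPolynomial (YV n) ℂ, (∀ m ∈ P.support, wY m ≤ ω + c) →
      (∀ t, eval (y (p t)) P = 0) → ∀ z, eval (y z) P = 0)
    (b : ι → MvPolynomial (Fin (n + 1)) ℂ) (G : MvPolynomial (Vr n) ℂ) (hG : Bd ω A' G)
    (hV : Vn d A B c (fun t => y (p t)) b G) : Vn d A B c y b G := by
  intro a ha i j hij z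
  refine mem_of_dual _ _ fun ξ' hξ' => ?_
  obtain ⟨ξ, κ, h1, h2, h3, h4⟩ := exists_ctr (RingEquiv.refl ℂ) ξ'
  have h5 : ∀ P, ξ P = ξ' P := by
    intro P
    have h6 := h1 P
    have h7 : map ((RingEquiv.refl ℂ : ℂ ≃+* ℂ) : ℂ →+* ℂ) P = P := map_id P
    rw [h7] at h6
    exact h6
  have h8 := hp (κ ((⇑(dd n))^[a] G)) (h3 _ _ fun m hm =>
    ((bd_iter hG a) m hm).1.trans (by omega)) (fun t => by
      rw [h2, h5]
      exact hξ' _ (hV a ha i j hij t)) z
  rw [h2, h5] at h8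
  exact h8

/-- [TD-4e] -/
theorem spec_trunc {n ω A W : ℕ} (hW : ω ≤ W) (G : MvPolynomial (Vr n) ℂ) (hG : Bd ω A G)
    (y : YV n → ℂ) : spec (trunc W y) G = spec y G := by
  have h1 : ∀ y : YV n → ℂ, spec y G = ∑ m ∈ G.support, spec y (monomial m (G.coeff m)) := by
    intro y
    rw [← map_sum, ← G.as_sum]
  rw [h1, h1]
  refine Finset.sum_congr rfl fun m hm => ?_
  rw [spec_monomial, spec_monomial]
  congr 2
  refine Finset.prod_congr rfl fun v hv => ?_
  have h2 : v.2 + 1 ≤ ω := by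
    refine le_trans ?_ (hG m hm).1
    rw [wt_eq]
    show v.2 + 1 ≤ Finsupp.weight _ (pL m)
    rw [Finsupp.weight_apply, Finsupp.sum]
    have h3 : 1 ≤ (pL m) v := Nat.one_le_iff_ne_zero.2 (Finsupp.mem_support_iff.1 hv)
    have h4 : (pL m) v • (v.2 + 1) ≤ ∑ a ∈ (pL m).support, (pL m) a • (a.2 + 1) :=
      Finset.single_le_sum (f := fun a : YV n => (pL m) a • (a.2 + 1))
        (fun _ _ => Nat.zero_le _) hv
    refine le_trans ?_ h4
    rw [smul_eq_mul]
    nlinarith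
  show trunc W y v ^ _ = y v ^ _
  unfold trunc
  rw [if_pos (by omega)]

theorem vn_trunc {n d A B c ω A' W : ℕ} (hW : ω + c ≤ W) {Ω ι : Type} (y : Ω → YV n → ℂ)
    (b : ι → MvPolynomial (Fin (n + 1)) ℂ) (G : MvPolynomial (Vr n) ℂ) (hG : Bd ω A' G) :
    Vn d A B c (fun t => trunc W (y t)) b G ↔ Vn d A B c y b G := by
  have key : ∀ a < c, ∀ z : Ω, spec (trunc W (y z)) ((⇑(dd n))^[a] G) =
      spec (y z) ((⇑(dd n))^[a] G) :=
    fun a ha z => spec_trunc (by omega) _ (bd_iter hG a) _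
  constructor
  · intro h a ha i j hij z
    rw [← key a ha]
    exact h a ha i j hij z
  · intro h a ha i j hij z
    show spec (trunc W (y z)) ((⇑(dd n))^[a] G) ∈ Lsp d A B (b i) (b j)
    rw [key a ha]
    exact h a ha i j hij z

end Pool.Agent.TD
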