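import Pool.Agent.Lib_MP_b9fedf_tt.DefsT
import Pool.Agent.Lib_MP_b9fedf_gh.Defs

/-! Definitions for the second main theorem with total truncation for general hypersurfaces of any
degree, with constants which do not depend on the degree. -/

set_option autoImplicit false

namespace Pool.Agent.TD
open MvPolynomial Pool.Agent.TT Pool.Agent.GGL Pool.Agent.GH

/-- indices of the coordinates of `x` and of the vectors `g_j` -/
abbrev XG (n : ℕ) : Type := Fin (n + 1) ⊕ GV n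

/-- the polynomial in `x` and the `g_j` for given values of the jets -/
noncomputable def spec {n : ℕ} (y : YV n → ℂ) :
    MvPolynomial (Vr n) ℂ →ₐ[ℂ] MvPolynomial (XG n) ℂ :=
  aeval (Sum.elim (fun v => C (y v)) X)

/-- the span of the products of the forms `b`, `b'` of degree `d` with monomials; degree at most `A`
in `x`, degree at most `B` in the `g_j` -/
noncomputable def Lsp {n : ℕ} (d A B : ℕ) (b b' : MvPolynomial (Fin (n + 1)) ℂ) :
    Submodule ℂ (MvPolynomial (XG n) ℂ) :=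
  Submodule.span ℂ {F | ∃ m : XG n →₀ ℕ, ∑ l, m (Sum.inl l) + d ≤ A ∧ ∑ p, m (Sum.inr p) ≤ B ∧
    (F = rename Sum.inl b * monomial m 1 ∨ F = rename Sum.inl b' * monomial m 1)}

/-- the first `c` derivatives of `G`, for the jets `y z`, are in the spans `Lsp` of all pairs -/
def Vn {n : ℕ} (d A B c : ℕ) {Ω ι : Type} (y : Ω → YV n → ℂ)
    (b : ι → MvPolynomial (Fin (n + 1)) ℂ) (G : MvPolynomial (Vr n) ℂ) : Prop :=
  ∀ a < c, ∀ i j : ι, i ≠ j → ∀ z : Ω, spec (y z) ((⇑(dd n))^[a] G) ∈ Lsp d A B (b i) (b j)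

/-- a constant -/
def kapF (n : ℕ) : ℕ := 2 ^ (n * (n + 1) + 1) * (n + 1) ^ n

/-- the bound of the exponents of `x`, for `Q` forms of degree `d` and order `K ^ 2` -/
def bF (n d K Q : ℕ) : ℕ := kapF n * K * d * (Q + 1)

/-- the bound of the degree in `x` -/
def dF (n d K Q : ℕ) : ℕ := (n + 1) * bF n d K Q

/-- the bound of the degree in the `g_j`, derivatives included -/
def gF (n K : ℕ) : ℕ := n * (n + 1) * (2 * K ^ 2)

/-- Modulo `b` and `b'` all monomials of degree at most `A` are combinations of those with exponents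
less than `d` at `x_0` and `x_1`. -/
def Nrm {k : ℕ} (d A : ℕ) (b b' : MvPolynomial (Fin (k + 2)) ℂ) : Prop :=
  ∀ μ : Fin (k + 2) →₀ ℕ, ∑ l, μ l ≤ A → monomial μ (1 : ℂ) ∈
    Submodule.span ℂ {F : MvPolynomial (Fin (k + 2)) ℂ | ∃ ν : Fin (k + 2) →₀ ℕ,
      ∑ l, ν l ≤ ∑ l, μ l ∧ ν 0 < d ∧ ν 1 < d ∧ F = monomial ν 1} ⊔
    Submodule.span ℂ {F : MvPolynomial (Fin (k + 2)) ℂ | ∃ κ : Fin (k + 2) →₀ ℕ,
      ∑ l, κ l + d ≤ A ∧ (F = b * monomial κ 1 ∨ F = b' * monomial κ 1)}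

/-- the algebraic condition on the family `b` of forms which is used in the second main theorem -/
def AlgF (n d K ω0 N1 : ℕ) {Q : ℕ} (b : Fin Q → MvPolynomial (Fin (n + 1)) ℂ) : Prop :=
  ∀ {Ω : Type} [Nonempty Ω] (y : Ω → YV n → ℂ) (f : Ω → Fin (n + 1) → ℂ),
    (∀ z, f z 0 = 1) → Irr y →
    ∃ ω ≤ ω0, ∃ (R : Finset (Fin Q)) (z0 : Ω) (G : MvPolynomial (Vr n) ℂ),
      R.card ≤ N1 ∧ Bd ω (dF n d K Q) G ∧
      (∀ a < K ^ 2, ∀ i j, i ∉ R → j ∉ R → i ≠ j →
        ∀ (z : Ω) (x : Fin (n + 1) → ℂ) (g : GV n → ℂ), eval x (b i) = 0 → eval x (b j) = 0 →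
          eval (ev (y z) x g) ((⇑(dd n))^[a] G) = 0) ∧
      eval (ev (y z0) (f z0) (one n)) G ≠ 0

open scoped Classical in
/-- zero exactly at the points where two members of `T` meet the curve -/
noncomputable def crsF {n Q : ℕ} (T : Finset (Fin Q)) (b : Fin Q → MvPolynomial (Fin (n + 1)) ℂ)
    (f : ℂ → Fin (n + 1) → ℂ) (z : ℂ) : ℂ :=
  if ∃ i ∈ T, ∃ j ∈ T, i ≠ j ∧ eval (f z) (b i) = 0 ∧ eval (f z) (b j) = 0 then 0 else 1

end Pool.Agent.TD
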