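import Pool.Agent.Lib_MP_b9fedf_td.Defs
import Pool.Agent.Lib_MP_b9fedf_tt.NdG
import Pool.Agent.Lib_MP_b9fedf_ag.Hyper

/-! [TD-10]: the points of a curve on two members, hypersurfaces. -/

set_option autoImplicit false

namespace Pool.Agent.TD
open MvPolynomial Filter Metric Real Set Function MeromorphicOn ValueDistribution
open Pool.Agent.GGL Pool.Agent.Stat Pool.Agent.TT Pool.Agent.GH

private theorem ndf_hom {σ : Type} [Fintype σ] {d : ℕ} {P : MvPolynomial σ ℂ}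
    (hP : P.IsHomogeneous d) (s : ℂ) (x : σ → ℂ) :
    eval (fun l => s * x l) P = s ^ d * eval x P := by
  rw [eval_eq', eval_eq', Finset.mul_sum]
  refine Finset.sum_congr rfl fun e he => ?_
  have h1 : ∑ i, e i = d := by
    have h2 := hP (mem_support_iff.1 he)
    rw [Finsupp.weight_apply, Finsupp.sum_fintype _ _ (fun i => by rw [zero_smul])] at h2
    simpa using h2
  simp only [mul_pow, Finset.prod_mul_distrib]
  rw [Finset.prod_pow_eq_pow_sum, h1]
  ring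

private theorem ndf_diff {σ : Type} [Fintype σ] (P : MvPolynomial σ ℂ) {F : ℂ → σ → ℂ}
    (hF : ∀ l, Differentiable ℂ (fun z => F z l)) : Differentiable ℂ (fun z => eval (F z) P) := by
  have h1 : (fun z => eval (F z) P) =
      fun z => ∑ e ∈ P.support, coeff e P * ∏ l, (F z l) ^ (e l) := by
    funext z
    rw [eval_eq']
  rw [h1]
  exact Differentiable.fun_sum fun e _ =>
    (Differentiable.fun_finset_prod fun l _ => (hF l).pow _).const_mul _

private theorem ndf_norm_perm {n : ℕ} (s : Equiv.Perm (Fin (n + 1))) (v : Fin (n + 1) → ℂ) :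
    ‖fun l => v (s l)‖ = ‖v‖ := by
  apply le_antisymm
  · rw [pi_norm_le_iff_of_nonneg (norm_nonneg _)]
    exact fun l => norm_le_pi_norm v (s l)
  · rw [pi_norm_le_iff_of_nonneg (norm_nonneg _)]
    intro l
    have h := norm_le_pi_norm (fun l => v (s l)) (s.symm l)
    simp only [Equiv.apply_symm_apply] at h
    exact h

/-- [TD-10a] Proof.  As `nd_zero_c` in Lib_MP_b9fedf_tt/Nd.lean (a member of `R` costs `d * T`: `N_le_TF` with the degree `d`). -/
theorem nd_zeroF {n d K ω0 N1 : ℕ} (hK : 1 ≤ K) {Q : ℕ} (b : Fin Q → MvPolynomial (Fin (n + 1)) ℂ)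
    (hb : ∀ i, (b i).IsHomogeneous d) (h : AlgF n d K ω0 N1 b) (T : Finset (Fin Q))
    (F : ℂ → Fin (n + 1) → ℂ) (hF : Differentiable ℂ F) (hF0 : ∀ z, F z ≠ 0)
    (h0 : ∃ z, F z 0 ≠ 0) (hne : ∀ i ∈ T, ∃ z, eval (F z) (b i) ≠ 0) :
    ∃ (C : ℝ) (E : Set ℝ), MeasureTheory.volume E < ⊤ ∧ ∀ r, 1 ≤ r → r ∉ E →
      Nbar (crsF T b F) r ≤
        (((dF n d K Q + 2 * ω0 : ℕ) : ℝ) / (K : ℝ) ^ 2 + 1 + N1 * d) * charT F r +
          C * (Real.posLog (charT F r) + Real.log r + 1) := by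
  classical
  have hFd : ∀ l, Differentiable ℂ (fun z => F z l) := fun l => differentiable_pi.1 hF l
  have hFz : ∀ z, ∃ l, F z l ≠ 0 := by
    intro z
    by_contra hcon
    push Not at hcon
    exact hF0 z (funext hcon)
  haveI : Nonempty {z : ℂ // F z 0 ≠ 0} := ⟨⟨h0.choose, h0.choose_spec⟩⟩
  obtain ⟨ω, hω, R0, z0, G, hR0, hBd, hVan, hG⟩ := h (Ω := {z : ℂ // F z 0 ≠ 0})
    (fun z => jet F z) (fun z => pnt F z) (fun z => div_self z.2) (irr_jet F hF)
  have hK2 : 1 ≤ K ^ 2 := Nat.one_le_pow _ _ hK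
  obtain ⟨K1, E, hE, hcr⟩ := cross_all hK2 G hBd F hF hF0 ⟨z0, z0.2, hG⟩
  -- the members
  set g : Fin Q → ℂ → ℂ := fun i z => eval (F z) (b i) with hg
  have hgd : ∀ i, Differentiable ℂ (g i) := fun i => ndf_diff (b i) hFd
  set R : Finset (Fin Q) := R0 ∩ T with hRdef
  have hR : R.card ≤ N1 := (Finset.card_le_card Finset.inter_subset_left).trans hR0
  have hDv1 : ∀ {u : ℂ → ℂ}, Differentiable ℂ u → (∃ z, u z ≠ 0) → ∀ z, u z = 0 → 1 ≤ Dv u z := by
    intro u hu hu0 z hz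
    rw [Dv_apply hu]
    have h6 : analyticOrderAt u z ≠ 0 := (hu.analyticAt z).analyticOrderAt_ne_zero.2 hz
    have h7 := order_ne_top hu hu0 z
    have h8 : (analyticOrderAt u z).toNat ≠ 0 := by
      rw [Ne, ENat.toNat_eq_zero]
      push Not
      exact ⟨h6, h7⟩
    exact Int.ofNat_le.2 (Nat.one_le_iff_ne_zero.2 h8)
  have hDv0 : ∀ {u : ℂ → ℂ}, Differentiable ℂ u → ∀ z, 0 ≤ Dv u z := by
    intro u hu z
    rw [Dv_apply hu]
    exact Int.natCast_nonneg _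
  have hpnt : ∀ i z, F z 0 ≠ 0 → eval (pnt F z) (b i) = ((F z 0)⁻¹) ^ d * g i z := by
    intro i z _
    rw [hg, ← ndf_hom (hb i)]
    congr 1
    congr 1
    funext l
    show F z l / F z 0 = (F z 0)⁻¹ * F z l
    rw [div_eq_mul_inv, mul_comm]
  -- the divisor of the points of kind (i)
  set p : ℂ → Prop := fun z => F z 0 ≠ 0 ∧ ∃ i ∈ T, ∃ j ∈ T, i ∉ R0 ∧ j ∉ R0 ∧ i ≠ j ∧
    g i z = 0 ∧ g j z = 0 with hp
  obtain ⟨Z, hZ0, hZ1, hZp, hZn⟩ := exists_ind (∑ i ∈ T, Dv (g i)) p (by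
    rintro z ⟨-, i, hiT, j, -, -, -, -, hi, -⟩
    rw [locallyFinsuppWithin.coe_sum, Finset.sum_apply]
    have h1 := hDv1 (hgd i) (hne i hiT) z hi
    have h2 : Dv (g i) z ≤ ∑ i ∈ T, Dv (g i) z :=
      Finset.single_le_sum (f := fun i => Dv (g i) z) (fun i _ => hDv0 (hgd i) z) hiT
    omega)
  have hkind : ∀ z, 0 < Z z → F z 0 ≠ 0 ∧ ∀ c < K ^ 2, phi ((⇑(dd n))^[c] G) F z = 0 := by
    intro z hz
    by_cases hpz : p z
    · obtain ⟨hz0, i, -, j, -, hi, hj, hij, hgi, hgj⟩ := hpz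
      refine ⟨hz0, fun c hc => ?_⟩
      refine hVan c hc i j hi hj hij ⟨z, hz0⟩ (pnt F z) (one n) ?_ ?_
      · rw [hpnt i z hz0, hgi, mul_zero]
      · rw [hpnt j z hz0, hgj, mul_zero]
    · rw [hZn z hpz] at hz
      exact absurd hz (lt_irrefl _)
  have hcr' := hcr Z hZ0 hZ1 hkind
  -- the divisor of all points
  set D : locallyFinsupp ℂ ℤ := Z + (Dv (fun z => F z 0) + ∑ i ∈ R, Dv (g i)) with hD
  have hDapp : ∀ z, D z = Z z + (Dv (fun z => F z 0) z + ∑ i ∈ R, Dv (g i) z) := by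
    intro z
    rw [hD, locallyFinsuppWithin.coe_add, Pi.add_apply, locallyFinsuppWithin.coe_add, Pi.add_apply,
      locallyFinsuppWithin.coe_sum, Finset.sum_apply]
  have hsum0 : ∀ z, 0 ≤ ∑ i ∈ R, Dv (g i) z := fun z =>
    Finset.sum_nonneg fun i _ => hDv0 (hgd i) z
  have hD0 : 0 ≤ D := by
    intro z
    show (0 : ℤ) ≤ D z
    rw [hDapp]
    have h1 : 0 ≤ Z z := hZ0 z
    have h2 := hDv0 (hFd 0) z
    have h3 := hsum0 z
    omega
  have hDW : ∀ z, crsF T b F z = 0 → 1 ≤ D z := by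
    intro z hz
    rw [hDapp]
    have h1 : 0 ≤ Z z := hZ0 z
    have h2 := hDv0 (hFd 0) z
    have h3 := hsum0 z
    have hz' : ∃ i ∈ T, ∃ j ∈ T, i ≠ j ∧ g i z = 0 ∧ g j z = 0 := by
      by_contra hcon
      have : crsF T b F z = 1 := by
        unfold crsF
        exact if_neg hcon
      rw [this] at hz
      exact one_ne_zero hz
    obtain ⟨i, hiT, j, hjT, hij, hi, hj⟩ := hz'
    by_cases hz0 : F z 0 = 0
    · have := hDv1 (hFd 0) h0 z hz0
      omega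
    by_cases hiR : i ∈ R0
    · have h4 := hDv1 (hgd i) (hne i hiT) z hi
      have h5 : Dv (g i) z ≤ ∑ i ∈ R, Dv (g i) z :=
        Finset.single_le_sum (f := fun i => Dv (g i) z) (fun i _ => hDv0 (hgd i) z)
          (Finset.mem_inter.2 ⟨hiR, hiT⟩)
      omega
    by_cases hjR : j ∈ R0
    · have h4 := hDv1 (hgd j) (hne j hjT) z hj
      have h5 : Dv (g j) z ≤ ∑ i ∈ R, Dv (g i) z :=
        Finset.single_le_sum (f := fun i => Dv (g i) z) (fun i _ => hDv0 (hgd i) z)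
          (Finset.mem_inter.2 ⟨hjR, hjT⟩)
      omega
    have h4 := hZp z ⟨hz0, i, hiT, j, hjT, hiR, hjR, hij, hi, hj⟩
    omega
  -- the counting functions of the zeros of `F_0` and of the members in `R`
  obtain ⟨C0, hC0⟩ := N_le_TF (σ := Fin (n + 1)) (f := fun l z => F z l) hFd hFz (hFd 0) h0 1 1
    (fun z => by
      rw [pow_one, one_mul]
      exact norm_le_pi_norm (F z) 0)
  have hCi : ∀ i : Fin Q, ∃ C : ℝ, i ∈ T → ∀ r, 1 ≤ r →
      Function.locallyFinsuppWithin.logCounting (Dv (g i)) r ≤ d * charT F r + C := by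
    intro i
    by_cases hiT : i ∈ T
    · obtain ⟨C, hC⟩ := N_le_TF (σ := Fin (n + 1)) (f := fun l z => F z l) hFd hFz (hgd i)
        (hne i hiT) d (∑ e ∈ (b i).support, ‖coeff e (b i)‖) (fun z => norm_eval_le (hb i) (F z))
      exact ⟨C, fun _ r hr => hC r hr⟩
    · exact ⟨0, fun h => absurd h hiT⟩
  choose Ci hCi using hCi
  set c0 : ℝ := |C0| + ∑ i ∈ R, |Ci i| with hc0
  have hc00 : 0 ≤ c0 := by positivity
  set t1 : ℝ := |charT F 1| with ht1
  have ht10 : 0 ≤ t1 := abs_nonneg _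
  have hKr : (1 : ℝ) ≤ (K : ℝ) ^ 2 := by exact_mod_cast hK2
  have hKpos : (0 : ℝ) < (K : ℝ) ^ 2 := by linarith
  set M : ℝ := ((dF n d K Q + 2 * ω0 : ℕ) : ℝ) / (K : ℝ) ^ 2 + 1 + N1 * d with hM
  have hM0 : 0 ≤ M := by positivity
  refine ⟨|K1| + c0 + M * t1, E, hE, fun r hr hrE => ?_⟩
  set T' := charT F r with hT
  set S := Real.posLog T' + Real.log r + 1 with hS
  have hS1 : 1 ≤ S := by
    have h3 : 0 ≤ Real.posLog T' := Real.posLog_nonneg
    have h4 : 0 ≤ Real.log r := Real.log_nonneg hr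
    rw [hS]; linarith
  have hTt : -t1 ≤ T' := by
    have h5 := Pool.Agent.LO.charT_mono hF hF0 one_pos hr
    have h6 := neg_abs_le (charT F 1)
    linarith
  have e1 := nbar_le_count (crsF T b F) D hD0 hDW hr
  have e2 : Function.locallyFinsuppWithin.logCounting D r =
      Function.locallyFinsuppWithin.logCounting Z r +
        (Function.locallyFinsuppWithin.logCounting (Dv (fun z => F z 0)) r +
          ∑ i ∈ R, Function.locallyFinsuppWithin.logCounting (Dv (g i)) r) := by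
    rw [hD, map_add, map_add, map_sum, Pi.add_apply, Pi.add_apply, Finset.sum_apply]
  have e3 := hcr' r hr hrE
  have e4 := hC0 r hr
  rw [Nat.cast_one, one_mul] at e4
  have e4' : Function.locallyFinsuppWithin.logCounting (Dv (fun z => F z 0)) r ≤ T' + |C0| :=
    e4.trans (add_le_add le_rfl (le_abs_self _))
  have e5 : ∑ i ∈ R, Function.locallyFinsuppWithin.logCounting (Dv (g i)) r ≤
      (R.card : ℝ) * (d * T') + ∑ i ∈ R, |Ci i| := by
    rw [← nsmul_eq_mul, ← Finset.sum_const, ← Finset.sum_add_distrib]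
    refine Finset.sum_le_sum fun i hi => (hCi i (Finset.mem_inter.1 hi).2 r hr).trans ?_
    exact add_le_add le_rfl (le_abs_self _)
  -- the first term
  have e6 : Function.locallyFinsuppWithin.logCounting Z r ≤
      ((dF n d K Q + 2 * ω : ℕ) : ℝ) / (K : ℝ) ^ 2 * T' + |K1| * S := by
    have e7 : (K : ℝ) ^ 2 * Function.locallyFinsuppWithin.logCounting Z r ≤
        ((dF n d K Q + 2 * ω : ℕ) : ℝ) * T' + K1 * S := by
      have := e3
      push_cast at this ⊢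
      exact this
    have e8 : K1 * S ≤ |K1| * S * (K : ℝ) ^ 2 := by
      have h1 : K1 * S ≤ |K1| * S := mul_le_mul_of_nonneg_right (le_abs_self _) (by linarith)
      have h2 : 0 ≤ |K1| * S := by positivity
      exact h1.trans (le_mul_of_one_le_right h2 hKr)
    rw [div_mul_eq_mul_div, ← sub_le_iff_le_add, le_div_iff₀ hKpos]
    linarith
  -- the coefficients
  set A1 : ℝ := ((dF n d K Q + 2 * ω : ℕ) : ℝ) / (K : ℝ) ^ 2 + 1 + R.card * d with hA1
  have hA1M : A1 ≤ M := by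
    have h1 : ((dF n d K Q + 2 * ω : ℕ) : ℝ) / (K : ℝ) ^ 2 ≤
        ((dF n d K Q + 2 * ω0 : ℕ) : ℝ) / (K : ℝ) ^ 2 := by
      apply div_le_div_of_nonneg_right _ hKpos.le
      exact_mod_cast (show dF n d K Q + 2 * ω ≤ dF n d K Q + 2 * ω0 by omega)
    have h2 : (R.card : ℝ) ≤ N1 := by exact_mod_cast hR
    have h3 : (R.card : ℝ) * d ≤ N1 * d := mul_le_mul_of_nonneg_right h2 (Nat.cast_nonneg d)
    rw [hA1, hM]
    linarith
  have hA10 : 0 ≤ A1 := by positivity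
  have e9 : A1 * T' ≤ M * T' + M * t1 := by
    have h1 : 0 ≤ (M - A1) * (T' + t1) := mul_nonneg (by linarith) (by linarith)
    have h2 : 0 ≤ A1 * t1 := mul_nonneg hA10 ht10
    nlinarith
  have e10 : c0 ≤ c0 * S := le_mul_of_one_le_right hc00 hS1
  have e11 : M * t1 ≤ M * t1 * S := le_mul_of_one_le_right (mul_nonneg hM0 ht10) hS1
  have e12 : ((dF n d K Q + 2 * ω : ℕ) : ℝ) / (K : ℝ) ^ 2 * T' + T' + R.card * (d * T') =
      A1 * T' := by
    rw [hA1]; ring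
  have e13 : (|K1| + c0 + M * t1) * S = |K1| * S + c0 * S + M * t1 * S := by ring
  rw [e13]
  have e14 : |C0| + ∑ i ∈ R, |Ci i| = c0 := hc0.symm
  linarith

/-- [TD-10b] Proof.  As `nd_bound_c` in Lib_MP_b9fedf_tt/NdG.lean: `dF n d K Q / K ^ 2 = (n + 1) * kapF n * d * (Q + 1) / K ≤ ε * d * (Q + 1)`;
`2 * ω0 / K ^ 2 + 1 ≤ (2 * ω0 / K ^ 2 + 1) * d`; the values of `rename τ (b i)` at `x` are those of `b i` at `x ∘ τ`. -/
theorem nd_boundF (n : ℕ) {ε : ℝ} (hε : 0 < ε) : ∃ K0 : ℕ, 1 ≤ K0 ∧ ∀ ω0 N1 : ℕ,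
    ∃ C : ℝ, 0 ≤ C ∧ ∀ d : ℕ, 1 ≤ d → ∀ (Q : ℕ) (b : Fin Q → MvPolynomial (Fin (n + 1)) ℂ),
    (∀ i, (b i).IsHomogeneous d) →
    (∀ τ : Equiv.Perm (Fin (n + 1)), AlgF n d K0 ω0 N1 (fun i => rename τ (b i))) →
    ∀ f : ℂ → Fin (n + 1) → ℂ, Differentiable ℂ f → (∀ z, f z ≠ 0) →
    ∀ T : Finset (Fin Q), (∀ i ∈ T, ∃ z, eval (f z) (b i) ≠ 0) →
    ∃ (K : ℝ) (E : Set ℝ), MeasureTheory.volume E < ⊤ ∧ ∀ r, 1 ≤ r → r ∉ E →
      Nbar (crsF T b f) r ≤ (ε * Q + C) * (d * charT f r) +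
        K * (Real.posLog (charT f r) + Real.log r + 1) := by
  set M : ℝ := (n + 1) * kapF n with hM
  have hM0 : 0 ≤ M := by positivity
  set K0 : ℕ := ⌈M / ε⌉₊ + 1 with hK0
  have hK : 1 ≤ K0 := by omega
  have hKM : M ≤ ε * K0 := by
    have h1 : M / ε ≤ (⌈M / ε⌉₊ : ℝ) := Nat.le_ceil _
    have h2 : M / ε ≤ (K0 : ℝ) := by
      rw [hK0]
      push_cast
      linarith
    rw [div_le_iff₀ hε] at h2
    linarith
  have hKpos : (0 : ℝ) < K0 := by exact_mod_cast hK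
  refine ⟨K0, hK, fun ω0 N1 => ?_⟩
  refine ⟨ε + 2 * ω0 / (K0 : ℝ) ^ 2 + 1 + N1, by positivity,
    fun d hd Q b hb ha f hf hf0 T hne => ?_⟩
  obtain ⟨l0, hl0⟩ : ∃ l0, f 0 l0 ≠ 0 := by
    by_contra hcon
    push Not at hcon
    exact hf0 0 (funext hcon)
  set s : Equiv.Perm (Fin (n + 1)) := Equiv.swap 0 l0 with hs
  have hss : ∀ l, s (s l) = l := fun l => Equiv.swap_apply_self 0 l0 l
  have hev : ∀ i z, eval (fun l => f z (s l)) (rename s (b i)) = eval (f z) (b i) := by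
    intro i z
    rw [eval_rename]
    congr 1
    congr 1
    funext l
    show f z (s (s l)) = f z l
    rw [hss]
  have hcrs : crsF T (fun i => rename s (b i)) (fun z l => f z (s l)) = crsF T b f := by
    funext z
    unfold crsF
    have hiff : (∃ i ∈ T, ∃ j ∈ T, i ≠ j ∧ eval (fun l => f z (s l)) (rename s (b i)) = 0 ∧
          eval (fun l => f z (s l)) (rename s (b j)) = 0) ↔
        (∃ i ∈ T, ∃ j ∈ T, i ≠ j ∧ eval (f z) (b i) = 0 ∧ eval (f z) (b j) = 0) := by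
      simp only [hev]
    by_cases h : ∃ i ∈ T, ∃ j ∈ T, i ≠ j ∧ eval (f z) (b i) = 0 ∧ eval (f z) (b j) = 0
    · exact (if_pos (hiff.2 h)).trans (if_pos h).symm
    · exact (if_neg (fun h' => h (hiff.1 h'))).trans (if_neg h).symm
  have hch : ∀ r, charT (fun z l => f z (s l)) r = charT f r := by
    intro r
    unfold charT
    simp only [ndf_norm_perm]
  have hF : Differentiable ℂ (fun z l => f z (s l)) :=
    differentiable_pi.2 fun l => differentiable_pi.1 hf (s l)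
  have hF0 : ∀ z, (fun l => f z (s l)) ≠ 0 := by
    intro z h
    apply hf0 z
    funext l
    have h1 := congrFun h (s.symm l)
    simp only [Equiv.apply_symm_apply] at h1
    exact h1
  obtain ⟨C1, E, hE, hbd⟩ := nd_zeroF hK (fun i => rename s (b i))
    (fun i => (hb i).rename_isHomogeneous) (ha s) T (fun z l => f z (s l)) hF hF0
    ⟨0, by
      show f 0 (s 0) ≠ 0
      rw [hs, Equiv.swap_apply_left]
      exact hl0⟩ (fun i hi => by
      obtain ⟨z, hz⟩ := hne i hi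
      exact ⟨z, by rw [hev]; exact hz⟩)
  have hdr : (1 : ℝ) ≤ d := by exact_mod_cast hd
  set c1 : ℝ := ((dF n d K0 Q + 2 * ω0 : ℕ) : ℝ) / (K0 : ℝ) ^ 2 + 1 + N1 * d with hc1
  set c2 : ℝ := (ε * Q + (ε + 2 * ω0 / (K0 : ℝ) ^ 2 + 1 + N1)) * d with hc2
  have hc : c1 ≤ c2 := by
    have h1 : ((dF n d K0 Q + 2 * ω0 : ℕ) : ℝ) / (K0 : ℝ) ^ 2 =
        M * (Q + 1) / K0 * d + 2 * ω0 / (K0 : ℝ) ^ 2 := by
      unfold dF bF
      rw [hM]
      push_cast
      field_simp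
    have h2 : M * (Q + 1) / K0 ≤ ε * (Q + 1) := by
      rw [div_le_iff₀ hKpos]
      have hQ : (0 : ℝ) ≤ (Q : ℝ) + 1 := by positivity
      nlinarith
    have h3 : M * (Q + 1) / K0 * d ≤ ε * (Q + 1) * d :=
      mul_le_mul_of_nonneg_right h2 (by linarith)
    have h4 : 2 * (ω0 : ℝ) / (K0 : ℝ) ^ 2 + 1 ≤ (2 * (ω0 : ℝ) / (K0 : ℝ) ^ 2 + 1) * d :=
      le_mul_of_one_le_right (by positivity) hdr
    have h5 : c2 = ε * (Q + 1) * d + (2 * (ω0 : ℝ) / (K0 : ℝ) ^ 2 + 1) * d + N1 * d := by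
      rw [hc2]; ring
    rw [hc1, h1, h5]
    linarith
  have hd' : 0 ≤ c2 - c1 := by linarith
  refine ⟨C1 + (c2 - c1) * |charT f 1|, E, hE, fun r hr hrE => ?_⟩
  have h3 := hbd r hr hrE
  rw [hcrs, hch] at h3
  have h4 : -|charT f 1| ≤ charT f r :=
    (neg_abs_le _).trans (Pool.Agent.LO.charT_mono hf hf0 one_pos hr)
  have hpl : 0 ≤ Real.posLog (charT f r) := Real.posLog_nonneg
  have hlr : 0 ≤ Real.log r := Real.log_nonneg hr
  have h5 : 0 ≤ (c2 - c1) * |charT f 1| * (Real.posLog (charT f r) + Real.log r) := by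
    have : 0 ≤ |charT f 1| := abs_nonneg _
    positivity
  have h6 : 0 ≤ (c2 - c1) * (charT f r + |charT f 1|) := mul_nonneg hd' (by linarith)
  have h7 : (ε * Q + (ε + 2 * ω0 / (K0 : ℝ) ^ 2 + 1 + N1)) * (d * charT f r) = c2 * charT f r := by
    rw [hc2]; ring
  rw [h7]
  nlinarith

end Pool.Agent.TD
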