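import Pool.Agent.Lib_MP_b9fedf_td.Defs
import Pool.Agent.Lib_MP_b9fedf_gh.BasicA

/-! [TD-9]: permutations of the coordinates. -/

set_option autoImplicit false

namespace Pool.Agent.TD
open MvPolynomial Pool.Agent.GGL Pool.Agent.GH

private theorem pm_mem {n d : ℕ} (τ : Equiv.Perm (Fin (n + 1))) (m : Mon n d) :
    Finsupp.mapDomain τ m.1 ∈ Finset.finsuppAntidiag (Finset.univ : Finset (Fin (n + 1))) d := by
  have h1 := (Finset.mem_finsuppAntidiag.1 m.2).1
  rw [Finset.mem_finsuppAntidiag]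
  refine ⟨?_, Finset.subset_univ _⟩
  have h2 : ∀ i, (Finsupp.mapDomain τ m.1) i = m.1 (τ.symm i) := fun i =>
    Finsupp.mapDomain_equiv_apply (f := τ) m.1 i
  rw [Finset.sum_congr rfl fun i _ => h2 i, Equiv.sum_comp τ.symm (fun i => m.1 i)]
  exact h1

private noncomputable def pmE {n d : ℕ} (τ : Equiv.Perm (Fin (n + 1))) : Mon n d ≃ Mon n d where
  toFun m := ⟨Finsupp.mapDomain τ.symm m.1, pm_mem τ.symm m⟩
  invFun m := ⟨Finsupp.mapDomain τ m.1, pm_mem τ m⟩
  left_inv m := by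
    apply Subtype.ext
    show Finsupp.mapDomain τ (Finsupp.mapDomain τ.symm m.1) = m.1
    rw [← Finsupp.mapDomain_comp]
    have h1 : (⇑τ ∘ ⇑τ.symm) = id := by
      funext i
      exact τ.apply_symm_apply i
    rw [h1, Finsupp.mapDomain_id]
  right_inv m := by
    apply Subtype.ext
    show Finsupp.mapDomain τ.symm (Finsupp.mapDomain τ m.1) = m.1
    rw [← Finsupp.mapDomain_comp]
    have h1 : (⇑τ.symm ∘ ⇑τ) = id := by
      funext i
      exact τ.symm_apply_apply i
    rw [h1, Finsupp.mapDomain_id]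

/-- [TD-9] -/
theorem frm_rename {n d : ℕ} (τ : Equiv.Perm (Fin (n + 1))) : ∃ e : Mon n d ≃ Mon n d,
    ∀ c : Mon n d → ℂ, rename τ (frm c) = frm (fun m => c (e m)) := by
  refine ⟨pmE τ, fun c => ?_⟩
  unfold frm
  rw [map_sum, ← Equiv.sum_comp (pmE τ)]
  refine Finset.sum_congr rfl fun m _ => ?_
  rw [rename_monomial]
  have h1 : Finsupp.mapDomain τ ((pmE τ m).1) = m.1 :=
    congrArg Subtype.val ((pmE τ).symm_apply_apply m)
  rw [h1]

end Pool.Agent.TD
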