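import Pool.Agent.Lib_MP_b9fedf_td.Defs
import Pool.Agent.Lib_MP_b9fedf_tt.Restr
import Pool.Agent.Lib_MP_b9fedf_tt.Box

/-! [TD-2]: the polynomials modulo two forms are in a space of small dimension. -/

set_option autoImplicit false

namespace Pool.Agent.TD
open MvPolynomial Module Pool.Agent.TT Pool.Agent.GGL Pool.Agent.GH

private theorem wY_le' {n : ℕ} (m : Vr n →₀ ℕ) :
    wY (m.comapDomain Sum.inl Sum.inl_injective.injOn) ≤ wt m := by
  classical
  unfold wY wt
  rw [Finsupp.weight_apply, Finsupp.weight_apply]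
  have h3 : (m.comapDomain Sum.inl Sum.inl_injective.injOn).support =
      m.support.toLeft := by
    ext v
    rw [Finset.mem_toLeft, Finsupp.mem_support_iff, Finsupp.mem_support_iff,
      Finsupp.comapDomain_apply]
  rw [Finsupp.sum, Finsupp.sum, h3]
  conv_rhs => rw [← Finset.toLeft_disjSum_toRight (u := m.support)]
  rw [Finset.sum_disjSum]
  exact Nat.le_add_right _ _

/-- the value of the part of the jets of a monomial -/
private noncomputable def yp {n : ℕ} (m : Vr n →₀ ℕ) (y : YV n → ℂ) : ℂ :=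
  (m.comapDomain Sum.inl Sum.inl_injective.injOn).prod fun v e => y v ^ e

/-- the part of `x` -/
private noncomputable def xp {n : ℕ} (m : Vr n →₀ ℕ) : Fin (n + 1) →₀ ℕ :=
  Finsupp.equivFunOnFinite.symm fun l => m (Sum.inr (Sum.inl l))

/-- the part of `g` -/
private noncomputable def gp {n : ℕ} (m : Vr n →₀ ℕ) : GV n →₀ ℕ :=
  Finsupp.equivFunOnFinite.symm fun l => m (Sum.inr (Sum.inr l))

private theorem ren_mul {n : ℕ} (μ : Fin (n + 1) →₀ ℕ) (γ : GV n →₀ ℕ) :
    rename (R := ℂ) (Sum.inl : Fin (n + 1) → XG n) (monomial μ 1) *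
      rename (Sum.inr : GV n → XG n) (monomial γ 1) =
      monomial (μ.mapDomain Sum.inl + γ.mapDomain Sum.inr : XG n →₀ ℕ) 1 := by
  rw [rename_monomial, rename_monomial, monomial_mul, one_mul]

private theorem md_inl {n : ℕ} (μ : Fin (n + 1) →₀ ℕ) (γ : GV n →₀ ℕ) (l : Fin (n + 1)) :
    (μ.mapDomain Sum.inl + γ.mapDomain Sum.inr : XG n →₀ ℕ) (Sum.inl l) = μ l := by
  rw [Finsupp.add_apply, Finsupp.mapDomain_apply Sum.inl_injective,
    Finsupp.mapDomain_of_notMem_range _ _ (by simp), add_zero]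

private theorem md_inr {n : ℕ} (μ : Fin (n + 1) →₀ ℕ) (γ : GV n →₀ ℕ) (l : GV n) :
    (μ.mapDomain Sum.inl + γ.mapDomain Sum.inr : XG n →₀ ℕ) (Sum.inr l) = γ l := by
  rw [Finsupp.add_apply, Finsupp.mapDomain_apply Sum.inr_injective,
    Finsupp.mapDomain_of_notMem_range _ _ (by simp), zero_add]

private theorem spec_mon {n : ℕ} (m : Vr n →₀ ℕ) (y : YV n → ℂ) :
    spec y (monomial m 1) = yp m y • (rename (R := ℂ) (Sum.inl : Fin (n + 1) → XG n)
      (monomial (xp m) 1) * rename (Sum.inr : GV n → XG n) (monomial (gp m) 1)) := by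
  classical
  rw [ren_mul]
  unfold spec
  rw [aeval_monomial, map_one, one_mul]
  have hm : m = Finsupp.sumElim (m.comapDomain Sum.inl Sum.inl_injective.injOn)
      (m.comapDomain Sum.inr Sum.inr_injective.injOn) := by
    ext v
    rcases v with v | v <;> rfl
  conv_lhs => rw [hm]
  rw [Finsupp.prod_sumElim]
  have h1 : ((m.comapDomain Sum.inl Sum.inl_injective.injOn).prod
      fun v e => (Sum.elim (fun v => C (y v)) X : Vr n → MvPolynomial (XG n) ℂ) (Sum.inl v) ^ e) =
      C (yp m y) := by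
    unfold yp
    rw [map_finsuppProd]
    refine Finsupp.prod_congr fun v _ => ?_
    rw [map_pow]
    rfl
  have h2 : ((m.comapDomain Sum.inr Sum.inr_injective.injOn).prod
      fun v e => (Sum.elim (fun v => C (y v)) X : Vr n → MvPolynomial (XG n) ℂ) (Sum.inr v) ^ e) =
      monomial ((xp m).mapDomain Sum.inl + (gp m).mapDomain Sum.inr : XG n →₀ ℕ) 1 := by
    have h3 : ((xp m).mapDomain Sum.inl + (gp m).mapDomain Sum.inr : XG n →₀ ℕ) =
        m.comapDomain Sum.inr Sum.inr_injective.injOn := by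
      ext v
      rcases v with v | v
      · rw [md_inl]; rfl
      · rw [md_inr]; rfl
    rw [h3, monomial_eq, C_1, one_mul]
    rfl
  refine Eq.trans (congrArg₂ (· * ·) h1 h2) ?_
  rw [C_mul']

/-- the exponents of the normal monomials -/
private noncomputable def nu {k d D : ℕ} (j : Fin d × Fin d × (Fin k → Fin D)) :
    Fin (k + 2) →₀ ℕ :=
  Finsupp.equivFunOnFinite.symm
    (Fin.cons (j.1 : ℕ) (Fin.cons (j.2.1 : ℕ) fun l => (j.2.2 l : ℕ)) : Fin (k + 2) → ℕ)

private theorem nu_surj {k d D : ℕ} (ν : Fin (k + 2) →₀ ℕ) (h0 : ν 0 < d) (h1 : ν 1 < d)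
    (h2 : ∀ l, ν l < D) : ∃ j : Fin d × Fin d × (Fin k → Fin D), nu j = ν := by
  refine ⟨(⟨ν 0, h0⟩, ⟨ν 1, h1⟩, fun l => ⟨ν l.succ.succ, h2 _⟩), ?_⟩
  ext l
  refine Fin.cases ?_ (fun l => Fin.cases ?_ (fun l => ?_) l) l <;> rfl

/-- the span of the products of `b`, `b'` with monomials -/
private noncomputable def Ls {k : ℕ} (d D : ℕ) (b b' : MvPolynomial (Fin (k + 2)) ℂ) :
    Submodule ℂ (MvPolynomial (Fin (k + 2)) ℂ) :=
  Submodule.span ℂ {F : MvPolynomial (Fin (k + 2)) ℂ | ∃ κ : Fin (k + 2) →₀ ℕ,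
      ∑ l, κ l + d ≤ D ∧ (F = b * monomial κ 1 ∨ F = b' * monomial κ 1)}

private theorem nrm_coef {k d D : ℕ} {b b' : MvPolynomial (Fin (k + 2)) ℂ} (h : Nrm d D b b')
    (μ : Fin (k + 2) →₀ ℕ) (hμ : ∑ l, μ l < D) :
    ∃ c : Fin d × Fin d × (Fin k → Fin D) → ℂ,
      monomial μ (1 : ℂ) - ∑ j, c j • monomial (nu j) (1 : ℂ) ∈ Ls d D b b' := by
  obtain ⟨P, hP, Q, hQ, hPQ⟩ := Submodule.mem_sup.1 (h μ hμ.le)
  have h1 : P ∈ Submodule.span ℂ (Set.range fun j : Fin d × Fin d × (Fin k → Fin D) =>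
      (monomial (nu j) (1 : ℂ) : MvPolynomial (Fin (k + 2)) ℂ)) := by
    refine Submodule.span_mono ?_ hP
    rintro F ⟨ν, hν, h0, h1, rfl⟩
    have h2 : ∀ l, ν l < D := fun l =>
      lt_of_le_of_lt ((Finset.single_le_sum (f := fun l => ν l) (fun i _ => Nat.zero_le _)
        (Finset.mem_univ l)).trans hν) hμ
    obtain ⟨j, hj⟩ := nu_surj ν h0 h1 h2
    exact ⟨j, by rw [← hj]⟩
  obtain ⟨c, hc⟩ := (Submodule.mem_span_range_iff_exists_fun ℂ).1 h1
  refine ⟨c, ?_⟩
  have h2 : monomial μ (1 : ℂ) - ∑ j, c j • monomial (nu j) (1 : ℂ) = Q := by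
    rw [hc, ← hPQ, add_sub_cancel_left]
  rw [h2]
  exact hQ

private theorem ls_mul {k d D E : ℕ} {b b' : MvPolynomial (Fin (k + 2)) ℂ}
    {Q : MvPolynomial (Fin (k + 2)) ℂ} (hQ : Q ∈ Ls d D b b') (γ : GV (k + 1) →₀ ℕ)
    (hγ : ∑ p, γ p ≤ E) :
    rename (R := ℂ) (Sum.inl : Fin (k + 1 + 1) → XG (k + 1)) Q *
      rename (Sum.inr : GV (k + 1) → XG (k + 1)) (monomial γ 1) ∈
      Lsp (n := k + 1) d D E b b' := by
  unfold Ls at hQ
  induction hQ using Submodule.span_induction with
  | mem F hF =>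
    obtain ⟨κ, hκ, hF⟩ := hF
    refine Submodule.subset_span ⟨κ.mapDomain Sum.inl + γ.mapDomain Sum.inr, ?_, ?_, ?_⟩
    · have h1 : ∑ l : Fin (k + 1 + 1), (κ.mapDomain Sum.inl + γ.mapDomain Sum.inr :
          XG (k + 1) →₀ ℕ) (Sum.inl l) = ∑ l, κ l :=
        Finset.sum_congr rfl fun l _ => md_inl (n := k + 1) κ γ l
      rw [h1]
      exact hκ
    · have h1 : ∑ l : GV (k + 1), (κ.mapDomain Sum.inl + γ.mapDomain Sum.inr :
          XG (k + 1) →₀ ℕ) (Sum.inr l) = ∑ l, γ l :=
        Finset.sum_congr rfl fun l _ => md_inr (n := k + 1) κ γ l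
      rw [h1]
      exact hγ
    · rcases hF with rfl | rfl
      · left
        rw [map_mul, mul_assoc, ren_mul (n := k + 1) κ γ]
      · right
        rw [map_mul, mul_assoc, ren_mul (n := k + 1) κ γ]
  | zero => rw [map_zero, zero_mul]; exact Submodule.zero_mem _
  | add F G _ _ hF hG => rw [map_add, add_mul]; exact Submodule.add_mem _ hF hG
  | smul a F _ hF => rw [map_smul, smul_mul_assoc]; exact Submodule.smul_mem _ _ hF

/-- [TD-2] Proof.  `J` = the set of the pairs `(ν, γ)`, `ν : Fin (k + 2) → ℕ` with `ν 0 < d`, `ν 1 < d`, the other `ν l < (k + 2) * A`, and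
`γ : GV → Fin B`; it has at most `d ^ 2 * ((k + 2) * A) ^ k * B ^ ((k + 1) * (k + 2))` elements.  By `h` choose for each `μ` of degree at most
`(k + 2) * A` numbers `c (μ, ν)` with `x ^ μ - ∑ c (μ, ν) x ^ ν ∈ Lsp`; `nf : MvPolynomial (XG (k + 1)) ℂ →ₗ (J → ℂ)` is the linear map with
`nf (x ^ μ g ^ γ) = ∑ ν, c (μ, ν) e_(ν, γ)` (zero for the other monomials), and `Θ G (z, j) = nf (spec (y z) G) j`.  For `Bx ω A B G`, `Θ G` is
a combination of the products of the functions `z ↦ (y z) ^ m`, `wY m ≤ ω` (in `U y ω`), and unit vectors (see `restr_dim`, Restr.lean; the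
splitting of monomials is there in private lemmas, copy them).  If `Θ G = 0` then `spec (y z) G ∈ Lsp` (multiply the relation of `h` by `g ^ γ`; the sum of
the exponents of `γ` is at most `(k + 1) * (k + 2) * B`). -/
theorem restr_dim4 {k : ℕ} {Ω : Type} (y : Ω → YV (k + 1) → ℂ) (ω A B d : ℕ)
    (b b' : MvPolynomial (Fin (k + 2)) ℂ) (h : Nrm d ((k + 2) * A) b b') :
    ∃ (J : Type) (Θ : MvPolynomial (Vr (k + 1)) ℂ →ₗ[ℂ] (Ω × J → ℂ)) (W : Submodule ℂ (Ω × J → ℂ)),
      FiniteDimensional ℂ W ∧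
      finrank ℂ W ≤ finrank ℂ (U y ω) *
        (d ^ 2 * ((k + 2) * A) ^ k * B ^ ((k + 1) * (k + 2))) ∧
      ∀ G : MvPolynomial (Vr (k + 1)) ℂ, Bx ω A B G → Θ G ∈ W ∧
        (Θ G = 0 → ∀ z, spec (y z) G ∈ Lsp d ((k + 2) * A) ((k + 1) * (k + 2) * B) b b') := by
  classical
  set D : ℕ := (k + 2) * A with hD
  choose c hc using fun μ : {μ : Fin (k + 2) →₀ ℕ // ∑ l, μ l < D} => nrm_coef h μ.1 μ.2
  let cc : (Fin (k + 2) →₀ ℕ) → (Fin d × Fin d × (Fin k → Fin D)) → ℂ := fun μ =>
    if hμ : ∑ l, μ l < D then c ⟨μ, hμ⟩ else 0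
  have hcc : ∀ μ : Fin (k + 2) →₀ ℕ, ∑ l, μ l < D →
      monomial μ (1 : ℂ) - ∑ j, cc μ j • monomial (nu j) (1 : ℂ) ∈ Ls d D b b' := by
    intro μ hμ
    have h1 : cc μ = c ⟨μ, hμ⟩ := dif_pos hμ
    rw [h1]
    exact hc ⟨μ, hμ⟩
  let J : Type := (Fin d × Fin d × (Fin k → Fin D)) × (GV (k + 1) → Fin B)
  let val : (Vr (k + 1) →₀ ℕ) → Ω × J → ℂ := fun m p =>
    yp m (y p.1) * (cc (xp m) p.2.1 * if ∀ q, gp m q = (p.2.2 q : ℕ) then 1 else 0)
  let Θ : MvPolynomial (Vr (k + 1)) ℂ →ₗ[ℂ] (Ω × J → ℂ) :=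
    (basisMonomials (Vr (k + 1)) ℂ).constr ℂ val
  have hΘ : ∀ G, Θ G = ∑ m ∈ G.support, coeff m G • val m := by
    intro G
    have h1 := G.as_sum
    conv_lhs => rw [h1]
    rw [map_sum]
    refine Finset.sum_congr rfl fun m _ => ?_
    have h2 : (monomial m (coeff m G) : MvPolynomial (Vr (k + 1)) ℂ) =
        coeff m G • basisMonomials (Vr (k + 1)) ℂ m := by
      rw [coe_basisMonomials, smul_monomial, smul_eq_mul, mul_one]
    rw [h2, map_smul]
    congr 1
    exact (basisMonomials (Vr (k + 1)) ℂ).constr_basis ℂ val m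
  have := u_finite y ω
  set N := finrank ℂ (U y ω) with hN
  let u : Fin N → Ω → ℂ := fun i => (finBasis ℂ (U y ω) i : Ω → ℂ)
  let rv : Fin N × J → Ω × J → ℂ := fun i p => u i.1 p.1 * if p.2 = i.2 then 1 else 0
  have hxA : ∀ G : MvPolynomial (Vr (k + 1)) ℂ, Bx ω A B G → ∀ m ∈ G.support,
      ∑ l, xp m l < D := by
    intro G hG m hm
    obtain ⟨hw, hA, hB⟩ := hG m hm
    have h3 : ∑ l : Fin (k + 2), m (Sum.inr (Sum.inl l)) < ∑ _l : Fin (k + 2), A :=
      Finset.sum_lt_sum_of_nonempty Finset.univ_nonempty fun l _ => hA l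
    rw [Finset.sum_const, Finset.card_univ, Fintype.card_fin, smul_eq_mul] at h3
    exact h3
  refine ⟨J, Θ, Submodule.span ℂ (Set.range rv),
    FiniteDimensional.span_of_finite ℂ (Set.finite_range _), ?_, ?_⟩
  · have h1 := finrank_range_le_card (R := ℂ) rv
    have h2 : Fintype.card (Fin N × J) =
        N * (d ^ 2 * D ^ k * B ^ ((k + 1) * (k + 2))) := by
      rw [Fintype.card_prod, Fintype.card_fin]
      congr 1
      show Fintype.card ((Fin d × Fin d × (Fin k → Fin D)) × (GV (k + 1) → Fin B)) = _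
      rw [Fintype.card_prod, Fintype.card_prod, Fintype.card_prod, Fintype.card_fun,
        Fintype.card_fun, Fintype.card_fin, Fintype.card_fin, Fintype.card_fin, Fintype.card_fin,
        Fintype.card_prod, Fintype.card_fin, Fintype.card_fin]
      ring
    rw [h2] at h1
    exact h1
  · intro G hG
    constructor
    · rw [hΘ]
      refine Submodule.sum_mem _ fun m hm => Submodule.smul_mem _ _ ?_
      obtain ⟨hw, hA, hB⟩ := hG m hm
      have hU : (fun z : Ω => yp m (y z)) ∈ U y ω :=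
        Submodule.subset_span ⟨_, (wY_le' m).trans hw, rfl⟩
      let γ : GV (k + 1) → Fin B := fun q => ⟨m (Sum.inr (Sum.inr q)), hB q⟩
      have heq : val m = ∑ i, ∑ j, ((finBasis ℂ (U y ω)).repr ⟨_, hU⟩ i * cc (xp m) j) •
          rv (i, (j, γ)) := by
        funext p
        rw [Finset.sum_apply]
        have e2 : (∑ i, (finBasis ℂ (U y ω)).repr ⟨_, hU⟩ i * u i p.1) = yp m (y p.1) := by
          have h := (finBasis ℂ (U y ω)).sum_repr ⟨_, hU⟩
          have h' := congrFun (congrArg (fun w : U y ω => (w : Ω → ℂ)) h) p.1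
          simp only [AddSubmonoidClass.coe_finsetSum, Submodule.coe_smul, Finset.sum_apply,
            Pi.smul_apply, smul_eq_mul] at h'
          exact h'
        have e3 : ∀ i, (∑ j, ((finBasis ℂ (U y ω)).repr ⟨_, hU⟩ i * cc (xp m) j) •
            rv (i, (j, γ))) p = ((finBasis ℂ (U y ω)).repr ⟨_, hU⟩ i * u i p.1) *
            (cc (xp m) p.2.1 * if ∀ q, gp m q = (p.2.2 q : ℕ) then 1 else 0) := by
          intro i
          rw [Finset.sum_apply, Finset.sum_eq_single p.2.1]
          · show ((finBasis ℂ (U y ω)).repr ⟨_, hU⟩ i * cc (xp m) p.2.1) *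
              (u i p.1 * if p.2 = (p.2.1, γ) then 1 else 0) = _
            have h1 : (p.2 = (p.2.1, γ)) ↔ (∀ q, gp m q = (p.2.2 q : ℕ)) := by
              constructor
              · intro h q
                rw [h]
                rfl
              · intro h
                refine Prod.ext rfl (funext fun q => Fin.ext ?_)
                exact (h q).symm
            by_cases h2 : (∀ q, gp m q = (p.2.2 q : ℕ))
            · rw [if_pos (h1.2 h2), if_pos h2]
              ring
            · rw [if_neg (fun h => h2 (h1.1 h)), if_neg h2]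
              ring
          · intro j _ hj
            show _ * (u i p.1 * if p.2 = (j, γ) then 1 else 0) = 0
            rw [if_neg (fun h => hj (congrArg Prod.fst h).symm), mul_zero, mul_zero]
          · intro h
            exact absurd (Finset.mem_univ _) h
        rw [Finset.sum_congr rfl fun i _ => e3 i, ← Finset.sum_mul, e2]
      rw [heq]
      refine Submodule.sum_mem _ fun i _ => Submodule.sum_mem _ fun j _ =>
        Submodule.smul_mem _ _ ?_
      exact Submodule.subset_span ⟨_, rfl⟩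
    · intro h0 z
      let R : (J → ℂ) →ₗ[ℂ] MvPolynomial (XG (k + 1)) ℂ :=
        ∑ j : J, (LinearMap.proj (R := ℂ) (φ := fun _ : J => ℂ) j).smulRight
          (rename (R := ℂ) (Sum.inl : Fin (k + 1 + 1) → XG (k + 1)) (monomial (nu j.1) 1) *
            rename (Sum.inr : GV (k + 1) → XG (k + 1))
              (monomial (Finsupp.equivFunOnFinite.symm fun q => (j.2 q : ℕ)) 1))
      have hR : ∀ v, R v = ∑ j : J, v j •
          (rename (R := ℂ) (Sum.inl : Fin (k + 1 + 1) → XG (k + 1)) (monomial (nu j.1) 1) *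
            rename (Sum.inr : GV (k + 1) → XG (k + 1))
              (monomial (Finsupp.equivFunOnFinite.symm fun q => (j.2 q : ℕ)) 1)) := by
        intro v
        rw [LinearMap.sum_apply]
        rfl
      have hmon : ∀ m ∈ G.support, spec (y z) (monomial m 1) - R (fun j => val m (z, j)) ∈
          Lsp (n := k + 1) d D ((k + 1) * (k + 2) * B) b b' := by
        intro m hm
        obtain ⟨hw, hA, hB⟩ := hG m hm
        have hγ : ∑ p, gp m p ≤ (k + 1) * (k + 2) * B := by
          have h1 : ∑ p, gp m p ≤ ∑ _p : GV (k + 1), B :=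
            Finset.sum_le_sum fun p _ => (hB p).le
          rw [Finset.sum_const, Finset.card_univ, Fintype.card_prod, Fintype.card_fin,
            Fintype.card_fin, smul_eq_mul] at h1
          exact h1
        have h1 := Submodule.smul_mem _ (yp m (y z))
          (ls_mul (hcc (xp m) (hxA G hG m hm)) (gp m) hγ)
        let γ : GV (k + 1) → Fin B := fun q => ⟨m (Sum.inr (Sum.inr q)), hB q⟩
        have h2 : R (fun j => val m (z, j)) = yp m (y z) •
            (rename (R := ℂ) (Sum.inl : Fin (k + 1 + 1) → XG (k + 1))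
              (∑ j, cc (xp m) j • monomial (nu j) (1 : ℂ)) *
              rename (Sum.inr : GV (k + 1) → XG (k + 1)) (monomial (gp m) 1)) := by
          rw [hR, map_sum, Finset.sum_mul, Finset.smul_sum]
          show ∑ j : (Fin d × Fin d × (Fin k → Fin D)) × (GV (k + 1) → Fin B), _ = _
          rw [Fintype.sum_prod_type]
          refine Finset.sum_congr rfl fun j _ => ?_
          rw [Finset.sum_eq_single γ]
          · have h3 : val m (z, (j, γ)) = yp m (y z) * cc (xp m) j := by
              show yp m (y z) * (cc (xp m) j * if ∀ q, gp m q = (γ q : ℕ) then 1 else 0) = _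
              have h5 : ∀ q, gp m q = (γ q : ℕ) := fun q => rfl
              rw [if_pos h5, mul_one]
            have h4 : (Finsupp.equivFunOnFinite.symm fun q => (γ q : ℕ)) = gp m := rfl
            rw [map_smul, smul_mul_assoc, smul_smul]
            show val m (z, (j, γ)) • _ = _
            rw [h3, h4]
          · intro γ' _ hγ'
            have h3 : val m (z, (j, γ')) = 0 := by
              show yp m (y z) * (cc (xp m) j * if ∀ q, gp m q = (γ' q : ℕ) then 1 else 0) = _
              have h5 : ¬ ∀ q, gp m q = (γ' q : ℕ) :=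
                fun h => hγ' (funext fun q => Fin.ext (h q).symm)
              rw [if_neg h5, mul_zero, mul_zero]
            show val m (z, (j, γ')) • _ = _
            rw [h3, zero_smul]
          · intro h
            exact absurd (Finset.mem_univ _) h
        rw [h2, spec_mon, ← smul_sub, ← sub_mul, ← map_sub]
        exact h1
      have h1 : spec (y z) G = ∑ m ∈ G.support, coeff m G • spec (y z) (monomial m 1) := by
        conv_lhs => rw [G.as_sum]
        rw [map_sum]
        refine Finset.sum_congr rfl fun m _ => ?_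
        rw [← map_smul, smul_monomial, smul_eq_mul, mul_one]
      have h2 : ∑ m ∈ G.support, coeff m G • R (fun j => val m (z, j)) = 0 := by
        have h3 : ∑ m ∈ G.support, coeff m G • R (fun j => val m (z, j)) =
            R (fun j => Θ G (z, j)) := by
          simp only [← map_smul]
          rw [← map_sum]
          congr 1
          funext j
          rw [hΘ, Finset.sum_apply, Finset.sum_apply]
          rfl
        rw [h3, h0]
        exact map_zero R
      rw [h1, ← sub_zero (∑ m ∈ G.support, _), ← h2, ← Finset.sum_sub_distrib]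
      refine Submodule.sum_mem _ fun m hm => ?_
      rw [← smul_sub]
      exact Submodule.smul_mem _ _ (hmon m hm)

end Pool.Agent.TD
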