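import Pool.Agent.Lib_MP_b9fedf_td.Defs
import Pool.Agent.Lib_MP_b9fedf_tt.PosF
import Pool.Agent.Lib_MP_b9fedf_tt.TotalA

/-! [TD-11]: the sum and the product. -/

set_option autoImplicit false

namespace Pool.Agent.TD
open MvPolynomial Filter Metric Real Set Function MeromorphicOn ValueDistribution
open Pool.Agent.GGL Pool.Agent.Stat Pool.Agent.TT Pool.Agent.GH

/-- the zeros in a disc are finite in number -/
private theorem fin_zerosF {W : ℂ → ℂ} (hW : Differentiable ℂ W) (hW0 : ∃ z, W z ≠ 0) (r : ℝ) :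
    {a : ℂ | ‖a‖ ≤ r ∧ W a = 0}.Finite := by
  obtain ⟨Z, -, h1, -, -⟩ := exists_reduced hW hW0
  refine ((Function.locallyFinsuppWithin.toClosedBall r Z).finiteSupport
    (isCompact_closedBall 0 |r|)).subset ?_
  rintro a ⟨ha, hWa⟩
  rw [Function.mem_support, Function.locallyFinsuppWithin.toClosedBall_eval_within, h1 a hWa]
  · exact one_ne_zero
  · rw [mem_closedBall_zero_iff]
    exact ha.trans (le_abs_self r)

/-- the counting function as a sum over a finite set of points -/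
private theorem nbar_eqF (W : ℂ → ℂ) {r : ℝ} (S : Finset ℂ) (hS1 : ∀ a ∈ S, ‖a‖ ≤ r)
    (hS2 : ∀ a, ‖a‖ ≤ r → W a = 0 → a ∈ S) :
    Nbar W r = ∑ a ∈ S, if W a = 0 then Real.log (r / max 1 ‖a‖) else 0 := by
  classical
  have hfin : {a : ℂ | ‖a‖ ≤ r ∧ W a = 0}.Finite :=
    S.finite_toSet.subset fun a ha => hS2 a ha.1 ha.2
  have h3 : Nbar W r = ∑ a ∈ hfin.toFinset, Real.log (r / max 1 ‖a‖) := by
    unfold Nbar
    exact finsum_mem_eq_finite_toFinset_sum _ hfin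
  have h4 : hfin.toFinset = S.filter fun a => W a = 0 := by
    ext a
    rw [Set.Finite.mem_toFinset, Finset.mem_filter, Set.mem_ofPred_eq]
    exact ⟨fun h => ⟨hS2 a h.1 h.2, h.2⟩, fun h => ⟨hS1 a h.1, h.2⟩⟩
  rw [h3, h4, Finset.sum_filter]

/-- the values of a polynomial along an entire curve form an entire function -/
private theorem diff_evalF {n : ℕ} {f : ℂ → Fin (n + 1) → ℂ} (hf : Differentiable ℂ f)
    (p : MvPolynomial (Fin (n + 1)) ℂ) : Differentiable ℂ (fun z => eval (f z) p) := by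
  simp_rw [MvPolynomial.eval_eq']
  refine Differentiable.fun_sum fun a _ => Differentiable.const_mul ?_ _
  have h1 := differentiable_pi.1 hf
  exact Differentiable.fun_finsetProd fun i _ => (h1 i).pow _

/-- [TD-11] Proof.  As `nbar_sum` in Lib_MP_b9fedf_tt/TotalA.lean: at most `n` members of `T` vanish at `f z` (`card_le_of_snc`). -/
theorem nbar_sumF {n d Q : ℕ} (hd : 1 ≤ d) (b : Fin Q → MvPolynomial (Fin (n + 1)) ℂ)
    (hb : ∀ i, (b i).IsHomogeneous d) (hs : Snc b) (f : ℂ → Fin (n + 1) → ℂ)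
    (hf : Differentiable ℂ f) (hf0 : ∀ z, f z ≠ 0) (T : Finset (Fin Q))
    (hne : ∀ i ∈ T, ∃ z, eval (f z) (b i) ≠ 0) {r : ℝ} (hr : 1 ≤ r) :
    ∑ i ∈ T, Nbar (fun z => eval (f z) (b i)) r ≤
      Nbar (fun z => ∏ i ∈ T, eval (f z) (b i)) r + (n : ℝ) * Nbar (crsF T b f) r := by
  classical
  have hdf : ∀ i, Differentiable ℂ fun z => eval (f z) (b i) := fun i => diff_evalF hf (b i)
  have hp : Differentiable ℂ fun z => ∏ i ∈ T, eval (f z) (b i) :=
    Differentiable.fun_finsetProd fun i _ => hdf i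
  have hp0 : ∃ z, ∏ i ∈ T, eval (f z) (b i) ≠ 0 := by
    have h1 : (⋃ i ∈ T, {z : ℂ | ‖z‖ ≤ 1 ∧ eval (f z) (b i) = 0}).Finite :=
      Set.Finite.biUnion T.finite_toSet fun i hi => fin_zerosF (hdf i) (hne i hi) 1
    have h2 : (closedBall (0 : ℂ) 1).Infinite := by
      refine Set.Infinite.mono Metric.ball_subset_closedBall ?_
      exact infinite_of_mem_nhds (0 : ℂ) (Metric.ball_mem_nhds _ one_pos)
    obtain ⟨z, hz, hz2⟩ := (h2.sdiff h1).nonempty
    refine ⟨z, Finset.prod_ne_zero_iff.2 fun i hi h => hz2 (Set.mem_iUnion₂.2 ⟨i, hi, ?_, h⟩)⟩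
    rwa [mem_closedBall_zero_iff] at hz
  have hfin := fin_zerosF hp hp0 r
  have hS1 : ∀ z ∈ hfin.toFinset, ‖z‖ ≤ r := fun z hz => ((Set.Finite.mem_toFinset hfin).1 hz).1
  have hz0 : ∀ z, ∀ i ∈ T, eval (f z) (b i) = 0 → ∏ i ∈ T, eval (f z) (b i) = 0 :=
    fun z i hi h => Finset.prod_eq_zero hi h
  have hin : ∀ z, ‖z‖ ≤ r → ∏ i ∈ T, eval (f z) (b i) = 0 → z ∈ hfin.toFinset := fun z hz h =>
    (Set.Finite.mem_toFinset hfin).2 ⟨hz, h⟩
  have hcrs : ∀ z, crsF T b f z = 0 ↔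
      ∃ i ∈ T, ∃ j ∈ T, i ≠ j ∧ eval (f z) (b i) = 0 ∧ eval (f z) (b j) = 0 := by
    intro z
    unfold crsF
    split_ifs with h
    · exact ⟨fun _ => h, fun _ => rfl⟩
    · exact ⟨fun h1 => (one_ne_zero h1).elim, fun h1 => (h h1).elim⟩
  have e1 : ∀ i ∈ T, Nbar (fun z => eval (f z) (b i)) r =
      ∑ z ∈ hfin.toFinset, if eval (f z) (b i) = 0 then Real.log (r / max 1 ‖z‖) else 0 :=
    fun i hi => nbar_eqF _ _ hS1 fun z hz h => hin z hz (hz0 z i hi h)
  have e2 : Nbar (fun z => ∏ i ∈ T, eval (f z) (b i)) r =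
      ∑ z ∈ hfin.toFinset, if ∏ i ∈ T, eval (f z) (b i) = 0 then Real.log (r / max 1 ‖z‖) else 0 :=
    nbar_eqF _ _ hS1 fun z hz h => hin z hz h
  have e3 : Nbar (crsF T b f) r =
      ∑ z ∈ hfin.toFinset, if crsF T b f z = 0 then Real.log (r / max 1 ‖z‖) else 0 := by
    refine nbar_eqF _ _ hS1 fun z hz h => ?_
    obtain ⟨i, hi, j, -, -, h1, -⟩ := (hcrs z).1 h
    exact hin z hz (hz0 z i hi h1)
  rw [Finset.sum_congr rfl e1, e2, e3, Finset.sum_comm, Finset.mul_sum,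
    ← Finset.sum_add_distrib]
  refine Finset.sum_le_sum fun z hz => ?_
  have hw : 0 ≤ Real.log (r / max 1 ‖z‖) := by
    refine Real.log_nonneg ?_
    rw [one_le_div (by positivity)]
    exact max_le hr (hS1 z hz)
  set w := Real.log (r / max 1 ‖z‖) with hwd
  set S : Finset (Fin Q) := T.filter fun i => eval (f z) (b i) = 0 with hS
  have hSm : ∀ i, i ∈ S ↔ i ∈ T ∧ eval (f z) (b i) = 0 := fun i => by
    rw [hS, Finset.mem_filter]
  have hSc : S.card ≤ n := card_le_of_snc hd b hb hs (f z) (hf0 z) S fun i hi => ((hSm i).1 hi).2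
  have hL : (∑ i ∈ T, if eval (f z) (b i) = 0 then w else 0) = (S.card : ℝ) * w := by
    rw [← Finset.sum_filter, Finset.sum_const, nsmul_eq_mul]
  rw [hL]
  have hSc' : (S.card : ℝ) ≤ (n : ℝ) := by exact_mod_cast hSc
  rcases Nat.lt_or_ge 1 S.card with h1 | h1
  · obtain ⟨i, hi, j, hj, hij⟩ := Finset.one_lt_card.1 h1
    rw [if_pos (hz0 z i ((hSm i).1 hi).1 ((hSm i).1 hi).2),
      if_pos ((hcrs z).2 ⟨i, ((hSm i).1 hi).1, j, ((hSm j).1 hj).1, hij, ((hSm i).1 hi).2,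
        ((hSm j).1 hj).2⟩)]
    nlinarith
  · have h0 : 0 ≤ (n : ℝ) * (if crsF T b f z = 0 then w else 0) := by
      refine mul_nonneg (Nat.cast_nonneg n) ?_
      split_ifs
      · exact hw
      · exact le_rfl
    rcases S.eq_empty_or_nonempty with h2 | ⟨i, hi⟩
    · rw [h2, Finset.card_empty, Nat.cast_zero, zero_mul]
      refine add_nonneg ?_ h0
      split_ifs
      · exact hw
      · exact le_rfl
    · rw [if_pos (hz0 z i ((hSm i).1 hi).1 ((hSm i).1 hi).2)]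
      have h3 : (S.card : ℝ) ≤ 1 := by exact_mod_cast h1
      nlinarith

end Pool.Agent.TD
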