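import Pool.Agent.Lib_MP_b9fedf_td.NdF
import Pool.Agent.Lib_MP_b9fedf_td.Sum4
import Pool.Agent.Lib_MP_b9fedf_gh.Main
import Pool.Agent.Lib_MP_b9fedf_lo.Mono

/-! [TD-12]: the second main theorem with total truncation for one family. -/

set_option autoImplicit false

namespace Pool.Agent.TD
open MvPolynomial
open Pool.Agent.GGL Pool.Agent.Stat Pool.Agent.TT Pool.Agent.GH Pool.Agent.LO

/-- [TD-12a] `Nbar` of the zero function is zero (a sum over an infinite set) -/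
theorem nbar_zero (r : ℝ) (hr : 1 ≤ r) : Nbar (fun _ => (0 : ℂ)) r = 0 := by
  unfold Nbar
  rcases eq_or_lt_of_le hr with h1 | h1
  · refine (finsum_mem_congr (g := fun _ => (0 : ℝ)) rfl fun a ha => ?_).trans
      (finsum_mem_zero _)
    have h2 : ‖a‖ ≤ 1 := by
      rw [h1]
      exact ha.1
    rw [max_eq_left h2, ← h1, div_one, Real.log_one]
  · apply finsum_mem_eq_zero_of_infinite
    have h0 : ∀ m : ℕ, ‖((1 / ((m : ℝ) + 1) : ℝ) : ℂ)‖ ≤ 1 := by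
      intro m
      have h2 : (0 : ℝ) < (m : ℝ) + 1 := by positivity
      rw [Complex.norm_real, Real.norm_eq_abs, abs_of_pos (by positivity), div_le_one h2]
      linarith [Nat.cast_nonneg (α := ℝ) m]
    refine Set.infinite_of_injective_forall_mem
      (f := fun m : ℕ => ((1 / ((m : ℝ) + 1) : ℝ) : ℂ)) ?_ ?_
    · intro m m' hm
      have h2 : (1 / ((m : ℝ) + 1) : ℝ) = 1 / ((m' : ℝ) + 1) := Complex.ofReal_injective hm
      have h3 : ((m : ℝ) + 1) = (m' : ℝ) + 1 := by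
        have h4 := congrArg (fun x : ℝ => x⁻¹) h2
        simpa using h4
      have h5 : (m : ℝ) = m' := by linarith
      exact_mod_cast h5
    · intro m
      refine ⟨⟨(h0 m).trans hr, rfl⟩, ?_⟩
      show Real.log (r / max 1 ‖((1 / ((m : ℝ) + 1) : ℝ) : ℂ)‖) ≠ 0
      rw [max_eq_left (h0 m), div_one]
      exact (Real.log_pos h1).ne'

/-- [TD-12b] the condition on `t` in `gh_open`, and the error term -/
theorem er_le (n : ℕ) {ε : ℝ} (hε : 0 < ε) : ∃ C : ℝ, 0 ≤ C ∧ ∀ d : ℕ, 1 ≤ d → ∀ Q : ℕ,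
    ∃ t : ℕ, 2 ≤ t ∧ Q * ((d - 1) * t + d * t) < d * t ^ 2 * t ∧ er n d t t ≤ (ε * Q + C) * d := by
  refine ⟨9 * n ^ 2 / (2 * ε) + 8 * n, by positivity, fun d hd Q => ?_⟩
  obtain ⟨s, hs⟩ : ∃ s, s = Nat.sqrt (2 * Q) := ⟨_, rfl⟩
  have h1 : 2 * Q < (s + 1) * (s + 1) := by
    rw [hs]
    exact Nat.lt_succ_sqrt (2 * Q)
  have h2 : (s : ℝ) ^ 2 ≤ 2 * Q := by
    rw [hs]
    exact_mod_cast Nat.sqrt_le' (2 * Q)
  refine ⟨s + 2, by omega, ?_, ?_⟩
  · have h3 : (d - 1) * (s + 2) + d * (s + 2) ≤ 2 * (d * (s + 2)) := by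
      have h4 : (d - 1) * (s + 2) ≤ d * (s + 2) := Nat.mul_le_mul_right _ (Nat.sub_le _ _)
      omega
    have h5 : 0 < d * (s + 2) := by positivity
    have h6 : 2 * Q < (s + 2) ^ 2 := by nlinarith
    calc Q * ((d - 1) * (s + 2) + d * (s + 2)) ≤ Q * (2 * (d * (s + 2))) :=
          Nat.mul_le_mul_left _ h3
      _ = 2 * Q * (d * (s + 2)) := by ring
      _ < (s + 2) ^ 2 * (d * (s + 2)) := Nat.mul_lt_mul_of_pos_right h6 h5
      _ = d * (s + 2) ^ 2 * (s + 2) := by ring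
  · have hd1 : (1 : ℝ) ≤ d := by exact_mod_cast hd
    have hn0 : (0 : ℝ) ≤ n := Nat.cast_nonneg n
    have hs0 : (0 : ℝ) ≤ s := Nat.cast_nonneg s
    have h3 : 3 * n * s ≤ ε * Q + 9 * n ^ 2 / (2 * ε) := by
      have h4 : 0 ≤ (ε * s - 3 * n) ^ 2 / (2 * ε) := by positivity
      have h5 : (ε * s - 3 * n) ^ 2 / (2 * ε) =
          ε / 2 * (s : ℝ) ^ 2 + 9 * n ^ 2 / (2 * ε) - 3 * n * s := by
        field_simp
        ring
      have h6 : ε / 2 * (s : ℝ) ^ 2 ≤ ε / 2 * (2 * Q) :=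
        mul_le_mul_of_nonneg_left h2 (by linarith)
      linarith
    have h4 : er n d (s + 2) (s + 2) ≤ (3 * n * s + 8 * n) * d := by
      unfold er
      push_cast
      have h5 : 0 ≤ (n : ℝ) * s * (d - 1) := mul_nonneg (mul_nonneg hn0 hs0) (by linarith)
      have h6 : 0 ≤ (n : ℝ) * (d - 1) := mul_nonneg hn0 (by linarith)
      nlinarith
    refine h4.trans ?_
    have h7 : (3 * n * s + 8 * n : ℝ) ≤ ε * Q + (9 * n ^ 2 / (2 * ε) + 8 * n) := by linarith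
    exact mul_le_mul_of_nonneg_right h7 (by linarith)

/-- [TD-12c] Proof.  `K0` of `nd_boundF` for `ε / (2 n)`; `smt_er` (all members; those which contain the curve contribute zero, `nbar_zero`);
`nbar_sumF`, `nd_boundF`, `er_le` for `ε / 2`. -/
theorem tot_of_alg (n : ℕ) (hn : 1 ≤ n) {ε : ℝ} (hε : 0 < ε) : ∃ K0 : ℕ, 1 ≤ K0 ∧ ∀ ω0 N1 : ℕ,
    ∃ C : ℝ, 0 ≤ C ∧ ∀ d : ℕ, 1 ≤ d → ∀ Q : ℕ, ∃ t : ℕ, 2 ≤ t ∧
      Q * ((d - 1) * t + d * t) < d * t ^ 2 * t ∧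
      ∀ b : Fin Q → MvPolynomial (Fin (n + 1)) ℂ, (∀ i, (b i).IsHomogeneous d) → Snc b →
        GenF (n * (d * t - 1)) (n * (t - 1)) b →
        (∀ τ : Equiv.Perm (Fin (n + 1)), AlgF n d K0 ω0 N1 (fun i => rename τ (b i))) →
        Tot d ε C b := by
  classical
  have hnR : (1 : ℝ) ≤ n := by exact_mod_cast hn
  obtain ⟨K0, hK0, hnd'⟩ := nd_boundF n (ε := ε / (2 * n)) (by positivity)
  obtain ⟨C1, hC1, her⟩ := er_le n (ε := ε / 2) (by positivity)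
  refine ⟨K0, hK0, fun ω0 N1 => ?_⟩
  obtain ⟨C2, hC2, hnd⟩ := hnd' ω0 N1
  refine ⟨C1 + n * C2, by positivity, fun d hd Q => ?_⟩
  obtain ⟨t, ht, htQ, hter⟩ := her d hd Q
  refine ⟨t, ht, htQ, fun b hb hsnc hgen halg f hf hf0 hnc T hT => ?_⟩
  obtain ⟨K1, E1, hE1, h1⟩ := smt_er hd ht ht b hb hsnc hgen f hf hf0 hnc
  obtain ⟨K2, E2, hE2, h2⟩ := hnd d hd Q b hb halg f hf hf0 T fun i hi => (hT i).1 hi
  obtain ⟨Δ, hΔ⟩ : ∃ Δ : ℝ, Δ = (ε / 2 * Q + C1) * d - er n d t t := ⟨_, rfl⟩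
  have hΔ0 : 0 ≤ Δ := by
    rw [hΔ]
    linarith
  refine ⟨K1 + n * K2 + Δ * |charT f 1|, E1 ∪ E2,
    (MeasureTheory.measure_union_le _ _).trans_lt (ENNReal.add_lt_top.2 ⟨hE1, hE2⟩),
    fun r hr hrE => ?_⟩
  rw [Set.mem_union, not_or] at hrE
  have h3 := h1 r hr hrE.1
  have h4 := h2 r hr hrE.2
  have h5 := nbar_sumF hd b hb hsnc f hf hf0 T (fun i hi => (hT i).1 hi) hr
  have hsum : ∑ i, Nbar (fun z => eval (f z) (b i)) r =
      ∑ i ∈ T, Nbar (fun z => eval (f z) (b i)) r := by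
    symm
    refine Finset.sum_subset (Finset.subset_univ T) fun i _ hi => ?_
    have h6 : (fun z => eval (f z) (b i)) = fun _ => (0 : ℂ) := by
      funext z
      by_contra hz
      exact hi ((hT i).2 ⟨z, hz⟩)
    rw [h6]
    exact nbar_zero r hr
  rw [hsum, Fintype.card_fin] at h3
  have hT1 : charT f 1 ≤ charT f r := charT_mono hf hf0 one_pos hr
  have hL1 : 1 ≤ Real.posLog (charT f r) + Real.log r + 1 := by
    have := Real.posLog_nonneg (x := charT f r)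
    have := Real.log_nonneg hr
    linarith
  obtain ⟨X, hX⟩ : ∃ X : ℝ, X = charT f r := ⟨_, rfl⟩
  obtain ⟨L, hL⟩ : ∃ L : ℝ, L = Real.posLog (charT f r) + Real.log r + 1 := ⟨_, rfl⟩
  rw [← hL] at h3 h4 hL1
  rw [← hL]
  rw [← hX] at h3 h4 hT1
  rw [← hX]
  have h6 : (n : ℝ) * Nbar (crsF T b f) r ≤
      n * ((ε / (2 * n) * Q + C2) * (d * X) + K2 * L) :=
    mul_le_mul_of_nonneg_left h4 (by linarith)
  have h7 : (n : ℝ) * ((ε / (2 * n) * Q + C2) * (d * X) + K2 * L) =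
      (ε / 2 * Q + n * C2) * (d * X) + n * K2 * L := by
    field_simp
  have h8 : 0 ≤ Δ * X + Δ * |charT f 1| * L := by
    have e1 : -|charT f 1| ≤ X := (neg_abs_le _).trans hT1
    have e2 : |charT f 1| ≤ |charT f 1| * L := le_mul_of_one_le_right (abs_nonneg _) hL1
    have e3 : 0 ≤ Δ * (X + |charT f 1| * L) := mul_nonneg hΔ0 (by linarith)
    linarith
  have h9 : ((1 - ε) * Q - (C1 + n * C2)) * (d * X) =
      ((d : ℝ) * Q - er n d t t) * X - (ε / 2 * Q + n * C2) * (d * X) - Δ * X := by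
    rw [hΔ]
    ring
  rw [h9]
  linarith

end Pool.Agent.TD
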