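import Pool.Agent.Lib_MP_b9fedf_td.AlgOpen4
import Pool.Agent.Lib_MP_b9fedf_td.Total4
import Pool.Agent.Lib_MP_b9fedf_td.Perm4
import Pool.Agent.Lib_MP_b9fedf_gh.Main

/-! The second main theorem with total truncation for general hypersurfaces of any degree `d`, with
constants which do not depend on `d`. -/

set_option autoImplicit false

namespace Pool.Agent.TD
open MvPolynomial Pool.Agent.TT Pool.Agent.GGL Pool.Agent.GH

/-- the algebraic part for general families and all permutations of the coordinates -/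
theorem alg_perm4 (k : ℕ) {K : ℕ} (hK : 1 ≤ K) : ∃ ω0 N1 : ℕ, ∀ d : ℕ, 1 ≤ d → ∀ Q : ℕ,
    ∃ S : MvPolynomial (Fin Q × Mon (k + 1) d) ℚ, S ≠ 0 ∧ ∀ a : Fin Q → Mon (k + 1) d → ℂ,
      aeval (fun p : Fin Q × Mon (k + 1) d => a p.1 p.2) S ≠ 0 →
        ∀ τ : Equiv.Perm (Fin (k + 2)), AlgF (k + 1) d K ω0 N1 (fun i => rename τ (frm (a i))) := by
  classical
  obtain ⟨ω0, N1, hop⟩ := alg_open4 k hK
  refine ⟨ω0, N1, fun d hd Q => ?_⟩
  obtain ⟨S0, hS0, hS0p⟩ := hop d hd Q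
  have h1 : ∀ τ : Equiv.Perm (Fin (k + 2)), ∃ S : MvPolynomial (Fin Q × Mon (k + 1) d) ℚ, S ≠ 0 ∧
      ∀ a : Fin Q → Mon (k + 1) d → ℂ, aeval (fun p : Fin Q × Mon (k + 1) d => a p.1 p.2) S ≠ 0 →
        AlgF (k + 1) d K ω0 N1 (fun i => rename τ (frm (a i))) := by
    intro τ
    obtain ⟨e, he⟩ := frm_rename (n := k + 1) (d := d) τ
    let mE : Fin Q × Mon (k + 1) d → Fin Q × Mon (k + 1) d := fun p => (p.1, e p.2)
    have hmE : Function.Injective mE := by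
      intro p q hpq
      simp only [mE, Prod.mk.injEq] at hpq
      exact Prod.ext hpq.1 (e.injective hpq.2)
    refine ⟨rename mE S0, fun h => hS0 (rename_injective _ hmE (h.trans (map_zero _).symm)),
      fun a ha => ?_⟩
    rw [aeval_rename] at ha
    have h3 : (fun i => rename τ (frm (a i))) = fun i => frm (fun m => a i (e m)) := by
      funext i
      exact he (a i)
    rw [h3]
    exact @hS0p (fun i m => a i (e m)) ha
  choose S hS hSp using h1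
  refine ⟨∏ τ, S τ, Finset.prod_ne_zero_iff.2 fun τ _ => hS τ, fun a ha τ => ?_⟩
  rw [map_prod, Finset.prod_ne_zero_iff] at ha
  exact @hSp τ a (ha τ (Finset.mem_univ _))

/-- **The second main theorem with total truncation** for general hypersurfaces of any degree `d`:
the constant `C` depends only on `n` and `ε`. -/
theorem tot_open4 {n : ℕ} (hn : 1 ≤ n) {ε : ℝ} (hε : 0 < ε) : ∃ C : ℝ, 0 ≤ C ∧ ∀ d : ℕ, 1 ≤ d →
    ∀ Q : ℕ, ∃ S : MvPolynomial (Fin Q × Mon n d) ℚ, S ≠ 0 ∧ ∀ a : Fin Q → Mon n d → ℂ,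
      aeval (fun p : Fin Q × Mon n d => a p.1 p.2) S ≠ 0 →
        Tot d ε C (fun i => frm (a i)) ∧ Snc (fun i => frm (a i)) := by
  obtain ⟨K0, hK0, hmain⟩ := tot_of_alg n hn hε
  obtain ⟨k, rfl⟩ : ∃ k, n = k + 1 := ⟨n - 1, by omega⟩
  obtain ⟨ω0, N1, hop⟩ := alg_perm4 k hK0
  obtain ⟨C, hC, hmain'⟩ := hmain ω0 N1
  refine ⟨C, hC, fun d hd Q => ?_⟩
  obtain ⟨t, ht, htQ, h⟩ := hmain' d hd Q
  obtain ⟨S1, hS1, hS1p⟩ := hop d hd Q
  obtain ⟨S2, hS2, hS2p⟩ := gh_open (n := k + 1) (Q := Q) hn hd ht ht htQ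
  refine ⟨S1 * S2, mul_ne_zero hS1 hS2, fun a ha => ?_⟩
  rw [map_mul] at ha
  obtain ⟨h1, h2, -, -⟩ := hS2p a (right_ne_zero_of_mul ha)
  exact ⟨h _ (fun i => frm_hom (a i)) h1 h2 (hS1p a (left_ne_zero_of_mul ha)), h1⟩

end Pool.Agent.TD
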