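import Pool.Agent.Lib_MP_1209e6_yb.YRel

/-! Relations of degree at most a constant times `d` for the forms of degree `d`. -/

set_option autoImplicit false

namespace Pool.Agent.TD
open MvPolynomial Pool.Agent.QY Pool.Agent.YB

/-- Every form of degree `d` satisfies a relation over the `w` of degree at most `c * d`.
Proof.  As `y_rel` (Lib_MP_1209e6_yb/YRel.lean), with the products `w ^ μ * Q ^ i` with `μ_1, …, μ_k ≤ d s`, `i ≤ s` and
`|μ| + d i = m = (k + 1) d s`. -/
theorem y_rel_lin {n k : ℕ} {q : Ideal (MvPolynomial (Fin (n + 1)) ℂ)} (hq : q.IsPrime)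
    (w : Fin (k + 1) → Fin (n + 1))
    (hw : ∀ R : MvPolynomial (Fin (k + 1)) ℂ, rename w R ∈ q → R = 0)
    (hrel : ∀ j, j ∉ Set.range w → ∃ (r g : ℕ) (a : ℕ → MvPolynomial (Fin (k + 1)) ℂ), 1 ≤ r ∧
      r ≤ g ∧ (∀ i ≤ r, (a i).IsHomogeneous (g - i)) ∧ a r ≠ 0 ∧
      ∑ i ∈ Finset.range (r + 1), rename w (a i) * X j ^ i ∈ q) :
    ∃ c : ℕ, 1 ≤ c ∧ ∀ d : ℕ, 1 ≤ d → ∀ Q : MvPolynomial (Fin (n + 1)) ℂ,
      Q.IsHomogeneous d → Q ∉ q →
      ∃ (g : ℕ) (b : ℕ → MvPolynomial (Fin (k + 1)) ℂ), g ≤ c * d ∧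
        (∀ i, d * i ≤ g → (b i).IsHomogeneous (g - d * i)) ∧ b 0 ≠ 0 ∧
        ∑ i ∈ Finset.range (g / d + 1), rename w (b i) * Q ^ i ∈ q := by
  classical
  obtain ⟨B, γ, G, hG, hG0, hspan⟩ := y_span w hrel
  set s : ℕ := (B + 1) ^ (n + 1) * ((k + 1) * (1 + γ) + 1) ^ k with hs
  refine ⟨(k + 1) * s + 1, by omega, fun d hd Q hQ hQq => ?_⟩
  set m : ℕ := (k + 1) * (d * s) with hm
  -- the exponents
  have hsum : ∀ t : Fin k → Fin (d * s + 1), ∑ l, (t l : ℕ) ≤ k * (d * s) := by
    intro t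
    calc ∑ l, (t l : ℕ) ≤ ∑ _l : Fin k, d * s :=
          Finset.sum_le_sum fun l _ => Nat.lt_succ_iff.1 (t l).isLt
      _ = k * (d * s) := by simp
  have hmi : ∀ (t : Fin k → Fin (d * s + 1)) (i : Fin (s + 1)),
      ∑ l, (t l : ℕ) ≤ m - d * i ∧ d * (i : ℕ) ≤ m := by
    intro t i
    have h1 := hsum t
    have h2 : d * (i : ℕ) ≤ d * s := Nat.mul_le_mul_left d (by omega)
    have h3 : m = k * (d * s) + d * s := by rw [hm]; ring
    constructor <;> omega
  have hform : ∀ p : (Fin k → Fin (d * s + 1)) × Fin (s + 1),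
      (rename w (monomial (yrMon (m - d * (p.2 : ℕ)) p.1) (1 : ℂ)) * Q ^ (p.2 : ℕ)).IsHomogeneous
        m := by
    intro p
    obtain ⟨h1, h2⟩ := hmi p.1 p.2
    have h3 : (monomial (yrMon (m - d * (p.2 : ℕ)) p.1) (1 : ℂ)).IsHomogeneous
        (m - d * (p.2 : ℕ)) := isHomogeneous_monomial _ (yrMon_degree _ _ h1)
    have h4 := (h3.rename_isHomogeneous (f := w)).mul (hQ.pow (p.2 : ℕ))
    rwa [Nat.sub_add_cancel h2] at h4
  -- coordinates
  have hcoord : ∀ p : (Fin k → Fin (d * s + 1)) × Fin (s + 1),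
      ∃ u : (Fin (n + 1) → Fin (B + 1)) × (Fin k → Fin (m * (1 + γ) + 1)) → ℂ,
        rename w G ^ m *
          (rename w (monomial (yrMon (m - d * (p.2 : ℕ)) p.1) (1 : ℂ)) * Q ^ (p.2 : ℕ)) -
        ∑ x, C (u x) * (rename w (monomial (yrMon (m * (1 + γ) - ∑ j, (x.1 j : ℕ)) x.2) (1 : ℂ)) *
          ∏ j, X j ^ (x.1 j : ℕ)) ∈ q := by
    intro p
    obtain ⟨c, hc, hcq⟩ := hspan m _ (hform p)
    refine ⟨fun x => coeff (yrMon (m * (1 + γ) - ∑ j, (x.1 j : ℕ)) x.2) (c x.1), ?_⟩
    have key : ∑ x : (Fin (n + 1) → Fin (B + 1)) × (Fin k → Fin (m * (1 + γ) + 1)),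
        C (coeff (yrMon (m * (1 + γ) - ∑ j, (x.1 j : ℕ)) x.2) (c x.1)) *
          (rename w (monomial (yrMon (m * (1 + γ) - ∑ j, (x.1 j : ℕ)) x.2) (1 : ℂ)) *
          ∏ j, X j ^ (x.1 j : ℕ)) =
        ∑ β, rename w (c β) * ∏ j, (X j : MvPolynomial (Fin (n + 1)) ℂ) ^ (β j : ℕ) := by
      rw [Fintype.sum_prod_type]
      refine Finset.sum_congr rfl fun β _ => ?_
      have hexp : c β = ∑ t : Fin k → Fin (m * (1 + γ) + 1),
          monomial (yrMon (m * (1 + γ) - ∑ j, (β j : ℕ)) t)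
            (coeff (yrMon (m * (1 + γ) - ∑ j, (β j : ℕ)) t) (c β)) := by
        rcases hc β with h | h
        · exact yr_expand h.2 (by omega)
        · rw [h]
          simp
      conv_rhs => rw [hexp]
      rw [map_sum, Finset.sum_mul]
      refine Finset.sum_congr rfl fun t _ => ?_
      rw [← mul_assoc]
      congr 1
      rw [rename_monomial, rename_monomial, C_mul_monomial, mul_one]
    rw [key]
    exact hcq
  choose u hu using hcoord
  have hcard : Fintype.card ((Fin (n + 1) → Fin (B + 1)) × (Fin k → Fin (m * (1 + γ) + 1))) <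
      Fintype.card ((Fin k → Fin (d * s + 1)) × Fin (s + 1)) := by
    simp only [Fintype.card_prod, Fintype.card_fun, Fintype.card_fin]
    have h1 : m * (1 + γ) + 1 ≤ ((k + 1) * (1 + γ) + 1) * (d * s + 1) := by
      rw [hm]
      have e1 : (k + 1) * (d * s) * (1 + γ) = (k + 1) * (1 + γ) * (d * s) := by ring
      have e2 : ((k + 1) * (1 + γ) + 1) * (d * s + 1) =
          (k + 1) * (1 + γ) * (d * s) + (k + 1) * (1 + γ) + d * s + 1 := by ring
      rw [e1, e2]
      omega
    calc (B + 1) ^ (n + 1) * (m * (1 + γ) + 1) ^ k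
        ≤ (B + 1) ^ (n + 1) * (((k + 1) * (1 + γ) + 1) * (d * s + 1)) ^ k :=
          Nat.mul_le_mul_left _ (Nat.pow_le_pow_left h1 k)
      _ = s * (d * s + 1) ^ k := by rw [mul_pow, ← mul_assoc]
      _ < (d * s + 1) ^ k * (s + 1) := by
          have : 0 < (d * s + 1) ^ k := by positivity
          nlinarith
  obtain ⟨c, hc0, hc⟩ := yr_kernel hcard u
  -- the relation
  set b' : ℕ → MvPolynomial (Fin (k + 1)) ℂ := fun i =>
    if h : i < s + 1 then ∑ t : Fin k → Fin (d * s + 1),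
      monomial (yrMon (m - d * i) t) (c (t, ⟨i, h⟩)) else 0 with hb'
  have hb'h : ∀ i, (b' i).IsHomogeneous (m - d * i) := by
    intro i
    simp only [hb']
    split_ifs with h
    · refine IsHomogeneous.sum _ _ _ fun t _ => ?_
      exact isHomogeneous_monomial _ (yrMon_degree _ _ (hmi t ⟨i, h⟩).1)
    · exact isHomogeneous_zero _ _ _
  have hrel' : ∑ i ∈ Finset.range (s + 1), rename w (b' i) * Q ^ i ∈ q := by
    have h1 : rename w G ^ m * ∑ i ∈ Finset.range (s + 1), rename w (b' i) * Q ^ i =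
        ∑ p : (Fin k → Fin (d * s + 1)) × Fin (s + 1), C (c p) * (rename w G ^ m *
          (rename w (monomial (yrMon (m - d * (p.2 : ℕ)) p.1) (1 : ℂ)) * Q ^ (p.2 : ℕ)) -
        ∑ x, C (u p x) * (rename w (monomial (yrMon (m * (1 + γ) - ∑ j, (x.1 j : ℕ)) x.2)
          (1 : ℂ)) * ∏ j, X j ^ (x.1 j : ℕ))) := by
      have h2 : ∑ p : (Fin k → Fin (d * s + 1)) × Fin (s + 1), C (c p) *
          ∑ x, C (u p x) * (rename w (monomial (yrMon (m * (1 + γ) - ∑ j, (x.1 j : ℕ)) x.2)
          (1 : ℂ)) * ∏ j, X j ^ (x.1 j : ℕ)) = (0 : MvPolynomial (Fin (n + 1)) ℂ) := by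
        simp only [Finset.mul_sum]
        rw [Finset.sum_comm]
        apply Finset.sum_eq_zero
        intro x _
        have h3 := hc x
        have h4 : ∑ p : (Fin k → Fin (d * s + 1)) × Fin (s + 1), C (c p) *
            (C (u p x) * (rename w (monomial (yrMon (m * (1 + γ) - ∑ j, (x.1 j : ℕ)) x.2)
            (1 : ℂ)) * ∏ j, X j ^ (x.1 j : ℕ))) =
            C (∑ p, c p * u p x) * (rename w (monomial (yrMon (m * (1 + γ) -
              ∑ j, (x.1 j : ℕ)) x.2) (1 : ℂ)) * ∏ j, X j ^ (x.1 j : ℕ)) := by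
          rw [map_sum, Finset.sum_mul]
          refine Finset.sum_congr rfl fun p _ => ?_
          rw [C_mul]
          exact (mul_assoc (C (c p)) (C (u p x)) _).symm
        rw [h4, h3, map_zero, zero_mul]
      simp only [mul_sub, Finset.sum_sub_distrib]
      rw [h2, sub_zero, Fintype.sum_prod_type_right, Finset.mul_sum, Finset.sum_range]
      refine Finset.sum_congr rfl fun i _ => ?_
      have h5 : b' (i : ℕ) = ∑ t : Fin k → Fin (d * s + 1),
          monomial (yrMon (m - d * (i : ℕ)) t) (c (t, i)) := by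
        simp only [hb']
        rw [dif_pos i.isLt]
      rw [h5, map_sum, Finset.sum_mul, Finset.mul_sum]
      refine Finset.sum_congr rfl fun t _ => ?_
      have h6 : rename w (monomial (yrMon (m - d * (i : ℕ)) t) (c (t, i))) =
          C (c (t, i)) * rename w (monomial (yrMon (m - d * (i : ℕ)) t) (1 : ℂ)) := by
        rw [rename_monomial, rename_monomial, C_mul_monomial, mul_one]
      rw [h6]
      ring
    have h7 : rename w G ^ m * ∑ i ∈ Finset.range (s + 1), rename w (b' i) * Q ^ i ∈ q := by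
      rw [h1]
      exact Ideal.sum_mem _ fun p _ => Ideal.mul_mem_left _ _ (hu p)
    rcases hq.mem_or_mem h7 with h8 | h8
    · exact absurd (hw G (hq.mem_of_pow_mem _ h8)) hG0
    · exact h8
  have hne : ∃ i, i < s + 1 ∧ b' i ≠ 0 := by
    by_contra hcon
    push_neg at hcon
    apply hc0
    funext p
    obtain ⟨t, i⟩ := p
    have h1 := hcon i i.isLt
    simp only [hb'] at h1
    rw [dif_pos i.isLt] at h1
    have h2 := congrArg (coeff (yrMon (m - d * (i : ℕ)) t)) h1
    rw [coeff_sum, coeff_zero, Finset.sum_eq_single t] at h2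
    · rw [coeff_monomial, if_pos rfl] at h2
      exact h2
    · intro t' _ hne'
      rw [coeff_monomial, if_neg]
      exact fun h3 => hne' (yrMon_inj _ _ _ h3)
    · intro h3
      exact absurd (Finset.mem_univ t) h3
  -- divide
  obtain ⟨hi1, hi2⟩ := Nat.find_spec hne
  have hmin : ∀ i, i < Nat.find hne → b' i = 0 := by
    intro i hi
    have := Nat.find_min hne hi
    push_neg at this
    exact this (by omega)
  set i₁ := Nat.find hne with hi₁
  have hbig : ∀ i, s + 1 ≤ i → b' i = 0 := by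
    intro i hi
    simp only [hb']
    rw [dif_neg (by omega)]
  have hdi : d * i₁ ≤ m := (hmi (fun _ => 0) ⟨i₁, hi1⟩).2
  refine ⟨m - d * i₁, fun i => b' (i₁ + i), ?_, ?_, hi2, ?_⟩
  · refine (Nat.sub_le _ _).trans ?_
    have e1 : ((k + 1) * s + 1) * d = (k + 1) * (d * s) + d := by ring
    rw [e1]
    omega
  · intro i _
    have h1 := hb'h (i₁ + i)
    have h2 : m - d * (i₁ + i) = m - d * i₁ - d * i := by
      rw [Nat.mul_add]
      omega
    rwa [h2] at h1
  · have h1 : ∑ i ∈ Finset.range (s + 1), rename w (b' i) * Q ^ i =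
        Q ^ i₁ * ∑ i ∈ Finset.range (s + 1 - i₁), rename w (b' (i₁ + i)) * Q ^ i := by
      rw [Finset.mul_sum]
      have h2 : s + 1 = i₁ + (s + 1 - i₁) := by omega
      conv_lhs => rw [h2, Finset.sum_range_add]
      have h3 : ∑ i ∈ Finset.range i₁, rename w (b' i) * Q ^ i = 0 := by
        apply Finset.sum_eq_zero
        intro i hi
        rw [hmin i (Finset.mem_range.1 hi), map_zero, zero_mul]
      rw [h3, zero_add]
      refine Finset.sum_congr rfl fun i _ => ?_
      rw [pow_add]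
      ring
    have h4 : ∑ i ∈ Finset.range ((m - d * i₁) / d + 1), rename w (b' (i₁ + i)) * Q ^ i =
        ∑ i ∈ Finset.range (s + 1 - i₁), rename w (b' (i₁ + i)) * Q ^ i := by
      symm
      apply Finset.sum_subset
      · intro i hi
        rw [Finset.mem_range] at hi ⊢
        have h5 : i ≤ (m - d * i₁) / d := by
          rw [Nat.le_div_iff_mul_le (by omega)]
          have h6 : d * (i₁ + i) ≤ m := (hmi (fun _ => 0) ⟨i₁ + i, by omega⟩).2
          rw [Nat.mul_add] at h6
          rw [Nat.mul_comm i d]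
          omega
        omega
      · intro i _ hi
        rw [Finset.mem_range, not_lt] at hi
        rw [hbig (i₁ + i) (by omega), map_zero, zero_mul]
    rw [h4]
    rw [h1] at hrel'
    rcases hq.mem_or_mem hrel' with h5 | h5
    · exact absurd (hq.mem_of_pow_mem _ h5) hQq
    · exact h5

end Pool.Agent.TD
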